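import Pool.Agent.MP_2fe25f_gt.Mg.Prune

/-!
Finitely Suslinian continua, part 8: from a tree of cells to a continuum inside `C`.
-/

set_option autoImplicit false
set_option linter.unusedSectionVars false

open Set Metric Topology Filter

namespace Pool.Agent.MP_2fe25f_gt

variable {X : Type} [MetricSpace X] [CompactSpace X] [ConnectedSpace X]

theorem net_local {ι : Type} {E : Set X} (hE : IsClosed E) {L : Set ι} (T : ι → Set X)
    (h1 : ∀ ε > 0, {l | l ∈ L ∧ ∃ a ∈ T l, ∃ b ∈ T l, ε < dist a b}.Finite)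
    (h2 : ∀ l ∈ L, ∃ u ∈ E, u ∈ closure (T l)) {z : X} (hz : z ∉ E) :
    ∃ t ∈ 𝓝 z, {l | l ∈ L ∧ (t ∩ closure (T l)).Nonempty}.Finite := by
  obtain ⟨δ, hδ, hδ'⟩ := Metric.isOpen_iff.1 hE.isOpen_compl z hz
  refine ⟨ball z (δ / 2), ball_mem_nhds z (half_pos hδ), (h1 (δ / 4) (by positivity)).subset ?_⟩
  rintro l ⟨hl, y, hy, hy'⟩
  obtain ⟨u, hu, hu'⟩ := h2 l hl
  obtain ⟨a, ha, ha'⟩ := Metric.mem_closure_iff.1 hy' (δ / 8) (by positivity)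
  obtain ⟨b, hb, hb'⟩ := Metric.mem_closure_iff.1 hu' (δ / 8) (by positivity)
  refine ⟨hl, a, ha, b, hb, ?_⟩
  have h3 : δ ≤ dist u z := by
    by_contra h3
    exact hδ' (not_le.1 h3) hu
  rw [mem_ball] at hy
  have h4 := dist_triangle4 u b a y
  have h5 := dist_triangle u y z
  rw [dist_comm b a, dist_comm a y] at h4
  linarith

variable {C D : Set X} {𝓝' : Type} {lt : 𝓝' → 𝓝' → Prop} {W P Q : 𝓝' → Set X}

/-- two points of `C` in the closure of a component of an open part of `G c` -/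
def GoodS (C : Set X) (G : 𝓝' → Set X) (σ : X × X × Set X × 𝓝') : Prop :=
  σ.1 ∈ C ∧ σ.2.1 ∈ C ∧ σ.1 ∈ closure σ.2.2.1 ∧ σ.2.1 ∈ closure σ.2.2.1 ∧
    ∃ O, IsOpen O ∧ ∃ g, σ.2.2.1 = cc (G σ.2.2.2 ∩ O) g

theorem Sys.refine (hS : Sys C D lt W P Q) (hX : FS X) {G : 𝓝' → Set X}
    (hG : ∀ s x, x ∈ G s ↔ x ∈ C ∩ W s ∧ (x ∈ D ∨ ∃ c, lt s c ∧ x ∈ Lam (G c) (P c) (Q c)))
    (σ : X × X × Set X × 𝓝') (hσ : GoodS C G σ) :
    ∃ (E : Set X) (L : Set (X × X × Set X × 𝓝')), IsClosed E ∧ E ⊆ C ∧ E ⊆ closure σ.2.2.1 ∧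
      σ.1 ∈ E ∧ σ.2.1 ∈ E ∧
      (∀ l ∈ L, GoodS C G l ∧ lt σ.2.2.2 l.2.2.2 ∧ l.2.2.1 ⊆ σ.2.2.1 ∧ l.1 ∈ E) ∧
      (∀ ε > 0, {l | l ∈ L ∧ ∃ a ∈ l.2.2.1, ∃ b ∈ l.2.2.1, ε < dist a b}.Finite) ∧
      ∀ κ : X × X × Set X × 𝓝' → Set X,
        (∀ l ∈ L, IsPreconnected (κ l) ∧ l.1 ∈ κ l ∧ l.2.1 ∈ κ l) →
          IsPreconnected (E ∪ ⋃ l ∈ L, κ l) := by
  obtain ⟨u, v, T, c⟩ := σ
  obtain ⟨hu, hv, hu', hv', O, hO, g, hT⟩ := hσ
  dsimp only at hu hv hu' hv' hT ⊢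
  have Glt : ∀ {s c : 𝓝'}, lt s c → G c ⊆ G s := fun {s c} h x hx =>
    (hG _ _).2 ⟨⟨((hG _ _).1 hx).1.1, hS.anti s c h ((hG _ _).1 hx).1.2⟩,
      ((hG _ _).1 hx).2.imp_right fun ⟨c', h1, h2⟩ => ⟨c', hS.trans _ _ _ h h1, h2⟩⟩
  have hTG : T ⊆ G c ∩ O := hT ▸ cc_sub _ _
  have hH : insert u (insert v T) ⊆ closure T :=
    insert_subset hu' (insert_subset hv' subset_closure)
  have hHC : insert u (insert v T) ⊆ C :=
    insert_subset hu (insert_subset hv fun x hx => ((hG _ _).1 (hTG hx).1).1.1)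
  have hTH : T ⊆ insert u (insert v T) := (subset_insert _ _).trans (subset_insert _ _)
  let Reg : Set X → 𝓝' → Prop := fun T' c' =>
    lt c c' ∧ T' ⊆ T ∧ ∃ O', IsOpen O' ∧ ∃ g', T' = cc (G c' ∩ O') g'
  have hrel : Rel (insert u (insert v T)) Reg univ u v := by
    refine hX.rel_all ((hT ▸ cc_pre _ _ : IsPreconnected T).subset_closure hTH hH) ?_ ?_
      ((hS.count.insert v).insert u) ?_ (mem_insert _ _) (mem_insert_of_mem _ (mem_insert _ _))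
    · rintro T' c' ⟨-, h2, O', -, g', h3⟩
      exact ⟨h3 ▸ cc_pre _ _, h2.trans hTH⟩
    · rintro T' c' V x ⟨h1, h2, O', h3, g', rfl⟩ hV hx
      refine ⟨h1, ((cc_sub _ _).trans inter_subset_left).trans h2, O' ∩ V, h3.inter hV, x, ?_⟩
      apply Subset.antisymm
      · refine connectedComponentIn_mono x fun y hy => ⟨(cc_sub _ _ hy.1).1, (cc_sub _ _ hy.1).2, hy.2⟩
      · have h4 : x ∈ cc (G c' ∩ (O' ∩ V)) x :=
          cc_mem ⟨(cc_sub _ _ hx.1).1, (cc_sub _ _ hx.1).2, hx.2⟩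
        refine (cc_pre _ _).subset_connectedComponentIn h4 (subset_inter
          (cc_max (cc_pre _ _) (fun y hy => ⟨(cc_sub _ _ hy).1, (cc_sub _ _ hy).2.1⟩) h4 hx.1)
          fun y hy => (cc_sub _ _ hy).2.2)
    · intro z hz hzD
      have hzT : z ∈ T := by
        rcases hz with h | h | h
        · exact absurd (Or.inl h) hzD
        · exact absurd (Or.inr (Or.inl h)) hzD
        · exact h
      obtain ⟨c', h1, h2, ⟨p, hp, hp'⟩, ⟨q, hq, hq'⟩⟩ :=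
        ((hG _ _).1 (hTG hzT).1).2.resolve_left fun h => hzD (Or.inr (Or.inr h))
      obtain ⟨w, hw, hwz⟩ : ∃ w ∈ cc (G c') z, w ≠ z := by
        by_cases h : p = z
        · exact ⟨q, hq, fun h' => Set.disjoint_left.1 (hS.disj c') hp' (by rw [h, ← h']; exact hq')⟩
        · exact ⟨p, hp, h⟩
      obtain ⟨r, hr, hrO⟩ := nhds_basis_closedBall.mem_iff.1 (hO.mem_nhds (hTG hzT).2)
      obtain ⟨V, hV, hzV, hV'⟩ := mem_nhdsWithin.1 (hX.lc (cc_pre (G c') z) (cc_mem h2) hr)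
      obtain ⟨a, ha, haz⟩ := exists_ne_of_preconnected (cc_pre (G c') z) hV ⟨cc_mem h2, hzV⟩ hw hwz z
      refine ⟨cc (G c' ∩ O) z, c', a, ⟨h1, ?_, O, hO, z, rfl⟩, cc_mem ⟨h2, (hTG hzT).2⟩,
        connectedComponentIn_mono z (inter_subset_inter (cc_sub _ _) hrO) (hV' ⟨ha.2, ha.1⟩), haz⟩
      rw [hT]
      exact cc_max (cc_pre _ _) ((cc_sub _ _).trans (inter_subset_inter_left _ (Glt h1)))
        (cc_mem ⟨h2, (hTG hzT).2⟩) (hT ▸ hzT)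
  obtain ⟨E, L, ⟨h1, h2, -, h4, h5, h6⟩, h7, h8⟩ := hrel.net
  refine ⟨E, L, h1, h2.trans hHC, h2.trans hH, h7, h8, fun l hl => ?_, h5, h6⟩
  obtain ⟨l1, l2, l3, l4, ⟨l5, l6, l7⟩, -⟩ := h4 l hl
  exact ⟨⟨hHC (h2 l1), hHC (h2 l2), l3, l4, l7⟩, l5, l6, l1⟩

theorem Sys.exists_continuum (hS : Sys C D lt W P Q) (hX : FS X) (s : 𝓝') :
    ∃ K : Set X, IsClosed K ∧ IsPreconnected K ∧ K ⊆ C ∧ Cr (P s) (Q s) K := by
  obtain ⟨G, hG, hne⟩ := hS.exists_fix hX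
  choose! E L h1 h2 h3 h4 h5 h6 h7 h8 using hS.refine hX hG
  let K : ℕ → X × X × Set X × 𝓝' → Set X := fun n =>
    Nat.rec (fun σ => closure σ.2.2.1) (fun _ κ σ => E σ ∪ ⋃ l ∈ L σ, κ l) n
  have K0 : ∀ σ, K 0 σ = closure σ.2.2.1 := fun σ => rfl
  have K1 : ∀ n σ, K (n + 1) σ = E σ ∪ ⋃ l ∈ L σ, K n l := fun n σ => rfl
  clear_value K
  have hsub : ∀ n σ, GoodS C G σ → K n σ ⊆ closure σ.2.2.1 := by
    intro n
    induction n with
    | zero => intro σ _; rw [K0]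
    | succ n ih =>
      intro σ hσ
      rw [K1]
      exact union_subset (h3 σ hσ) (iUnion₂_subset fun l hl =>
        (ih l (h6 σ hσ l hl).1).trans (closure_mono (h6 σ hσ l hl).2.2.1))
  have hloc : ∀ σ, GoodS C G σ → ∀ z, z ∉ E σ →
      ∃ t ∈ 𝓝 z, {l | l ∈ L σ ∧ (t ∩ closure l.2.2.1).Nonempty}.Finite := fun σ hσ z hz =>
    net_local (h1 σ hσ) (fun l : X × X × Set X × 𝓝' => l.2.2.1) (h7 σ hσ)
      (fun l hl => ⟨l.1, (h6 σ hσ l hl).2.2.2, (h6 σ hσ l hl).1.2.2.1⟩) hz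
  have hgood : ∀ n σ, GoodS C G σ →
      IsClosed (K n σ) ∧ IsPreconnected (K n σ) ∧ σ.1 ∈ K n σ ∧ σ.2.1 ∈ K n σ := by
    intro n
    induction n with
    | zero =>
      rintro σ ⟨-, -, k1, k2, O, -, g, k3⟩
      rw [K0]
      exact ⟨isClosed_closure, (k3 ▸ cc_pre _ _ : IsPreconnected σ.2.2.1).closure, k1, k2⟩
    | succ n ih =>
      intro σ hσ
      rw [K1]
      refine ⟨isClosed_of_closure_subset fun z hz => ?_,
        h8 σ hσ _ fun l hl => (ih l (h6 σ hσ l hl).1).2, Or.inl (h4 σ hσ), Or.inl (h5 σ hσ)⟩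
      by_cases hzE : z ∈ E σ
      · exact Or.inl hzE
      right
      obtain ⟨t, ht, hf⟩ := hloc σ hσ z hzE
      have k1 : z ∈ closure (⋃ l ∈ {l | l ∈ L σ ∧ (t ∩ closure l.2.2.1).Nonempty}, K n l) := by
        rw [mem_closure_iff_nhds] at hz ⊢
        intro t' ht'
        obtain ⟨y, ⟨⟨hy1, hy2⟩, hy3⟩, hy4⟩ := hz _ (inter_mem (inter_mem ht' ht)
          ((h1 σ hσ).isOpen_compl.mem_nhds hzE))
        obtain ⟨l, hl, hy5⟩ := mem_iUnion₂.1 (hy4.resolve_left hy3)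
        exact ⟨y, hy1, mem_iUnion₂.2 ⟨l, ⟨hl, y, hy2, hsub n l (h6 σ hσ l hl).1 hy5⟩, hy5⟩⟩
      rw [(hf.isClosed_biUnion fun l hl => (ih l (h6 σ hσ l hl.1).1).1).closure_eq] at k1
      obtain ⟨l, hl, k2⟩ := mem_iUnion₂.1 k1
      exact mem_iUnion₂.2 ⟨l, hl.1, k2⟩
  have hsucc : ∀ n σ, GoodS C G σ → K (n + 1) σ ⊆ K n σ := by
    intro n
    induction n with
    | zero => intro σ hσ; rw [K0]; exact hsub _ σ hσ
    | succ n ih =>
      intro σ hσ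
      rw [K1 (n + 1), K1 n]
      exact union_subset_union_right _ (iUnion₂_mono fun l hl => ih l (h6 σ hσ l hl).1)
  have hanti : ∀ σ, GoodS C G σ → Antitone fun n => K n σ := fun σ hσ =>
    antitone_nat_of_succ_le fun n => hsucc n σ hσ
  have hC : ∀ σ, GoodS C G σ → ∀ z, (∀ n, z ∈ K n σ) → z ∈ C := by
    intro σ0 hσ0 z hz0
    by_contra hzC
    have step : ∀ σ : {σ // GoodS C G σ ∧ ∀ n, z ∈ K n σ},
        ∃ σ' : {σ // GoodS C G σ ∧ ∀ n, z ∈ K n σ}, lt σ.1.2.2.2 σ'.1.2.2.2 := by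
      rintro ⟨σ, hσ, hz⟩
      have hzE : z ∉ E σ := fun h => hzC (h2 σ hσ h)
      obtain ⟨t, ht, hf⟩ := hloc σ hσ z hzE
      by_contra hno
      have k1 : ∀ l ∈ {l | l ∈ L σ ∧ (t ∩ closure l.2.2.1).Nonempty}, ∀ᶠ n in atTop, z ∉ K n l := by
        intro l hl
        have k2 : ¬ ∀ n, z ∈ K n l := fun h =>
          hno ⟨⟨l, (h6 σ hσ l hl.1).1, h⟩, (h6 σ hσ l hl.1).2.1⟩
        push Not at k2
        obtain ⟨n, hn⟩ := k2
        exact eventually_atTop.2 ⟨n, fun m hm h => hn (hanti l (h6 σ hσ l hl.1).1 hm h)⟩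
      obtain ⟨n, hn⟩ := ((hf.eventually_all (l := atTop)).2 k1).exists
      have k3 := hz (n + 1)
      rw [K1] at k3
      obtain ⟨l, hl, k4⟩ := mem_iUnion₂.1 (k3.resolve_left hzE)
      exact hn l ⟨hl, z, mem_of_mem_nhds ht, hsub n l (h6 σ hσ l hl).1 k4⟩ k4
    choose f hf using step
    let t : ℕ → {σ // GoodS C G σ ∧ ∀ n, z ∈ K n σ} := fun n =>
      Nat.rec ⟨σ0, hσ0, hz0⟩ (fun _ t => f t) n
    obtain ⟨w, hwC, hw⟩ := hS.lim (fun n => (t n).1.2.2.2) (fun n => hf (t n))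
    have hzW : ∀ n, z ∈ W (t n).1.2.2.2 := by
      intro n
      obtain ⟨-, -, -, -, O, -, g, k3⟩ := (t n).2.1
      refine closure_minimal (fun y hy => ?_) (hS.closed _) (hsub 0 _ (t n).2.1 ((t n).2.2 0))
      rw [k3] at hy
      exact ((hG _ _).1 (cc_sub _ _ hy).1).1.2
    have : z = w := by
      refine eq_of_forall_dist_le fun r hr => ?_
      obtain ⟨n, hn⟩ := (hw r hr).exists
      exact hn (hzW n)
    exact hzC (this ▸ hwC)
  obtain ⟨x, hx, ⟨p, hp, hp'⟩, ⟨q, hq, hq'⟩⟩ := hne s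
  have hσ : GoodS C G (p, q, cc (G s) x, s) :=
    ⟨(hS.P_sub s hp').1.2, (hS.Q_sub s hq').1.2, subset_closure hp, subset_closure hq, univ,
      isOpen_univ, x, by rw [inter_univ]⟩
  exact ⟨⋂ n, K n (p, q, cc (G s) x, s), isClosed_iInter fun n => (hgood n _ hσ).1,
    isPreconnected_iInter_directed _ (hanti _ hσ).directed_ge (fun n => (hgood n _ hσ).1)
      (fun n => (hgood n _ hσ).2.1), fun z hz => hC _ hσ z (mem_iInter.1 hz),
    ⟨p, mem_iInter.2 fun n => (hgood n _ hσ).2.2.1, hp'⟩,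
    ⟨q, mem_iInter.2 fun n => (hgood n _ hσ).2.2.2, hq'⟩⟩

end Pool.Agent.MP_2fe25f_gt
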