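import Pool.Agent.MP_2fe25f_gt.Mg.Final
import Pool.Agent.Lib.BorelDet.Main

/-!
Finitely Suslinian continua, part 9: the cell game.  One player colours the ports, the other
chooses a cell of the next level whose ports carry both colours.
-/

set_option autoImplicit false
set_option linter.unusedSectionVars false

open Set Metric Topology Filter
open Pool.Agent.Lib.BorelDet

namespace Pool.Agent.MP_2fe25f_gt

variable {X : Type} [MetricSpace X] [CompactSpace X] [ConnectedSpace X]

/-- a sequence of finer and finer finite closed covers with countable overlaps -/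
structure Cells (X : Type) [MetricSpace X] where
  W : ℕ → ℕ → Set X
  F : ℕ → Set X
  closed : ∀ k i, IsClosed (W k i)
  fin : ∀ k, {i | (W k i).Nonempty}.Finite
  cover : ∀ k x, ∃ i, x ∈ W k i
  small : ∀ k i, ∀ x ∈ W k i, ∀ y ∈ W k i, dist x y ≤ 1 / ((k : ℝ) + 1)
  closedF : ∀ k, IsClosed (F k)
  countF : ∀ k, (F k).Countable
  overlap : ∀ k i j, i ≠ j → W k i ∩ W k j ⊆ F k

theorem FS.nonempty_cells (hX : FS X) : Nonempty (Cells X) := by
  choose W F h using fun k : ℕ => hX.cells (ε := 1 / ((k : ℝ) + 1)) (by positivity)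
  exact ⟨⟨W, F, fun k => (h k).1, fun k => (h k).2.1, fun k => (h k).2.2.1, fun k => (h k).2.2.2.1,
    fun k => (h k).2.2.2.2.1, fun k => (h k).2.2.2.2.2.1, fun k => (h k).2.2.2.2.2.2⟩⟩

abbrev Pl (X : Type) : Type := ℕ → (X → Bool) × ℕ

namespace Cells

variable (c : Cells X) (C : Set X) (a b : X)

def port (n : ℕ) : Set X := insert a (insert b (⋃ k ∈ Finset.range n, c.F k))

def cell (n : ℕ) (x : Pl X) : Set X := ⋂ k ∈ Finset.range n, c.W k (x (2 * k + 1)).2

open Classical in
noncomputable def col (x : Pl X) (y : X) : Bool :=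
  if y = a then false else if y = b then true else
    if h : ∃ k, y ∈ c.F k then (x (2 * Nat.find h)).1 y else false

def pt (e : Bool) (n : ℕ) (x : Pl X) : Set X :=
  {y | y ∈ c.port a b n ∧ y ∈ C ∧ y ∈ c.cell n x ∧ c.col a b x y = e}

def Dead (n : ℕ) (x : Pl X) : Prop := ∃ e, c.pt C a b e n x = ∅

open Classical in
noncomputable def lim (x : Pl X) : X := if h : ∃ z, ∀ n, z ∈ c.cell n x then h.choose else a

variable {c C a b}

theorem mem_cell {n : ℕ} {x : Pl X} {y : X} :
    y ∈ c.cell n x ↔ ∀ k < n, y ∈ c.W k (x (2 * k + 1)).2 := by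
  simp [cell]

theorem mem_port {n : ℕ} {y : X} : y ∈ c.port a b n ↔ y = a ∨ y = b ∨ ∃ k < n, y ∈ c.F k := by
  simp [port]

theorem isClosed_cell (n : ℕ) (x : Pl X) : IsClosed (c.cell n x) :=
  isClosed_biInter fun _ _ => c.closed _ _

theorem isClosed_port (n : ℕ) : IsClosed (c.port a b n) :=
  isClosed_singleton.union (isClosed_singleton.union
    (isClosed_biUnion_finset fun k _ => c.closedF k))

theorem cell_anti {m n : ℕ} (h : m ≤ n) (x : Pl X) : c.cell n x ⊆ c.cell m x := fun _ hy =>
  mem_cell.2 fun k hk => mem_cell.1 hy k (hk.trans_le h)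

theorem port_mono {m n : ℕ} (h : m ≤ n) : c.port a b m ⊆ c.port a b n := fun _ hy =>
  mem_port.2 ((mem_port.1 hy).imp_right fun h' => h'.imp_right fun ⟨k, hk, hk'⟩ =>
    ⟨k, hk.trans_le h, hk'⟩)

theorem cell_congr {n : ℕ} {x x' : Pl X} (h : Agree (2 * n) x x') : c.cell n x = c.cell n x' := by
  ext y
  rw [mem_cell, mem_cell]
  exact forall₂_congr fun k hk => by rw [h (2 * k + 1) (by omega)]

theorem col_congr {n m : ℕ} {x x' : Pl X} (h : Agree m x x') (hm : 2 * n ≤ m + 1) {y : X}
    (hy : y ∈ c.port a b n) : c.col a b x y = c.col a b x' y := by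
  classical
  unfold col
  split_ifs with h1 h2 h3
  · rfl
  · rfl
  · obtain ⟨k, hk, hk'⟩ := ((mem_port.1 hy).resolve_left h1).resolve_left h2
    have := Nat.find_min' h3 hk'
    rw [h (2 * Nat.find h3) (by omega)]
  · rfl

theorem col_new {n : ℕ} (x : Pl X) {y : X} (hy : y ∈ c.port a b (n + 1))
    (hy' : y ∉ c.port a b n) : c.col a b x y = (x (2 * n)).1 y := by
  classical
  have h1 : y ≠ a := fun h => hy' (mem_port.2 (Or.inl h))
  have h2 : y ≠ b := fun h => hy' (mem_port.2 (Or.inr (Or.inl h)))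
  obtain ⟨k, hk, hk'⟩ := ((mem_port.1 hy).resolve_left h1).resolve_left h2
  have h3 : ∃ k, y ∈ c.F k := ⟨k, hk'⟩
  have h4 : Nat.find h3 = n := by
    have h5 := Nat.find_min' h3 hk'
    by_contra h6
    exact hy' (mem_port.2 (Or.inr (Or.inr ⟨Nat.find h3, by omega, Nat.find_spec h3⟩)))
  unfold col
  rw [if_neg h1, if_neg h2, dif_pos h3, h4]

theorem col_a (x : Pl X) : c.col a b x a = false := by
  unfold col; rw [if_pos rfl]

theorem col_b (hab : a ≠ b) (x : Pl X) : c.col a b x b = true := by
  unfold col; rw [if_neg hab.symm, if_pos rfl]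

theorem pt_congr {n : ℕ} {x x' : Pl X} (h : Agree (2 * n) x x') (e : Bool) :
    c.pt C a b e n x = c.pt C a b e n x' := by
  ext y
  unfold pt
  rw [cell_congr h]
  exact and_congr_right fun hy => by rw [col_congr h (by omega) hy]

theorem dead_congr {n : ℕ} {x x' : Pl X} (h : Agree (2 * n) x x') :
    c.Dead C a b n x ↔ c.Dead C a b n x' := by
  unfold Dead
  simp only [pt_congr h]

theorem lim_mem {x : Pl X} (h : ∀ n, (c.cell n x).Nonempty) (n : ℕ) : c.lim a x ∈ c.cell n x := by
  have h1 : ∃ z, ∀ n, z ∈ c.cell n x := by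
    obtain ⟨z, hz⟩ := IsCompact.nonempty_iInter_of_sequence_nonempty_isCompact_isClosed
      (fun n => c.cell n x) (fun n => cell_anti (Nat.le_succ n) x) h
      (isClosed_cell 0 x).isCompact (fun n => isClosed_cell n x)
    exact ⟨z, mem_iInter.1 hz⟩
  unfold lim
  rw [dif_pos h1]
  exact h1.choose_spec n

theorem cell_small {x : Pl X} {k n : ℕ} (h : k < n) {y z : X} (hy : y ∈ c.cell n x)
    (hz : z ∈ c.cell n x) : dist y z ≤ 1 / ((k : ℝ) + 1) :=
  c.small k _ y (mem_cell.1 hy k h) z (mem_cell.1 hz k h)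

variable (c C a b) in
open Classical in
/-- the cell game -/
noncomputable def game : Game where
  M := fun _ => (X → Bool) × ℕ
  dflt := fun _ => (fun _ => false, 0)
  lab := fun m x => if ∃ n, 2 * n ≤ m ∧ c.Dead C a b n x then some true else none
  lab_na := fun m x y h => by
    have : (∃ n, 2 * n ≤ m ∧ c.Dead C a b n x) ↔ ∃ n, 2 * n ≤ m ∧ c.Dead C a b n y :=
      exists_congr fun n => and_congr_right fun hn => dead_congr (h.mono hn)
    simp only [this]
  lab_sticky := fun m x e h => by
    split_ifs at h with h1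
    obtain ⟨n, h2, h3⟩ := h1
    rw [if_pos ⟨n, by omega, h3⟩, h]

theorem unl_iff {x : Pl X} : Unl (G := c.game C a b) x ↔ ∀ n, ¬ c.Dead C a b n x := by
  unfold Unl game
  dsimp only
  constructor
  · intro h n hn
    have := h (2 * n)
    rw [if_pos ⟨n, le_rfl, hn⟩] at this
    cases this
  · intro h m
    rw [if_neg]
    rintro ⟨n, -, hn⟩
    exact h n hn

theorem lab_ne_false (m : ℕ) (x : Pl X) : (c.game C a b).lab m x ≠ some false := by
  unfold game
  dsimp only
  split_ifs <;> simp

theorem pt_ne {x : Pl X} (h : Unl (G := c.game C a b) x) (e : Bool) (n : ℕ) :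
    (c.pt C a b e n x).Nonempty :=
  nonempty_iff_ne_empty.2 fun h' => unl_iff.1 h n ⟨e, h'⟩

theorem unl_lim {x : Pl X} (h : Unl (G := c.game C a b) x) (n : ℕ) : c.lim a x ∈ c.cell n x :=
  lim_mem (fun n => (pt_ne h true n).mono fun _ hy => hy.2.2.1) n

theorem contU : ContU (c.game C a b) (c.lim a) := by
  intro O hO x hx hxO
  obtain ⟨r, hr, hrO⟩ := Metric.isOpen_iff.1 hO _ hxO
  obtain ⟨k, hk⟩ := exists_nat_one_div_lt hr
  refine ⟨2 * (k + 1), fun y hy hxy => hrO ?_⟩
  have h1 := unl_lim hy (k + 1)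
  rw [← cell_congr hxy] at h1
  exact (cell_small (Nat.lt_succ_self k) h1 (unl_lim hx (k + 1))).trans_lt hk

theorem turn_even (k : ℕ) : turn (2 * k) = true := by simp [turn]

theorem turn_odd (k : ℕ) : turn (2 * k + 1) = false := by rw [turn_succ, turn_even]; rfl

/-- the colouring player cannot win on a connected set -/
theorem not_colourer (hC : IsPreconnected C) (ha : a ∈ C) (hb : b ∈ C) (hab : a ≠ b)
    (σ : Strat (c.game C a b))
    (hσ : ∀ x, Cons true σ x → Win true (c.lim a ⁻¹' Cᶜ) x) : False := by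
  classical
  have hplay : ∀ β : ℕ → ℕ, ∃ x : Pl X, ∀ n, x n =
      if n % 2 = 0 then σ.mv n x else (fun _ => false, β (n / 2)) := fun β =>
    exists_play (M := fun _ => (X → Bool) × ℕ)
      (fun n x => if n % 2 = 0 then σ.mv n x else (fun _ => false, β (n / 2)))
      (fun n x y h => by rw [σ.na n x y h]) (fun _ => (fun _ => false, 0))
  choose π hπ using hplay
  have hodd : ∀ β k, (π β (2 * k + 1)).2 = β k := by
    intro β k
    rw [hπ, if_neg (by omega), show (2 * k + 1) / 2 = k by omega]
  have hag : ∀ β β' m, (∀ k < m, β k = β' k) → Agree (2 * m + 1) (π β) (π β') := by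
    intro β β' m h
    have : ∀ n, n ≤ 2 * m + 1 → Agree n (π β) (π β') := by
      intro n
      induction n with
      | zero => intro _ i hi; omega
      | succ n ih =>
        intro hn
        refine (ih (by omega)).succ ?_
        rw [hπ β n, hπ β' n]
        split_ifs with h1
        · exact σ.na n _ _ (ih (by omega))
        · rw [h (n / 2) (by omega)]
    exact this _ le_rfl
  have hcell : ∀ β z, (∀ k, z ∈ c.W k (β k)) → ∀ n, z ∈ c.cell n (π β) := fun β z h n =>
    mem_cell.2 fun k _ => by rw [hodd]; exact h k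
  have hdead : ∀ β, ∀ z ∈ C, (∀ k, z ∈ c.W k (β k)) → ∃ n, c.Dead C a b n (π β) := by
    intro β z hz h
    by_contra hno
    push Not at hno
    have hu := unl_iff.2 hno
    rcases hσ (π β) (fun n hn => Or.inl (by
      rw [hπ β n, if_pos (by simpa [turn] using hn)])) with ⟨n, hn⟩ | ⟨-, h1⟩
    · rw [hu n] at hn; cases hn
    · have h2 : c.lim a (π β) = z := by
        refine eq_of_forall_dist_le fun r hr => ?_
        obtain ⟨k, hk⟩ := exists_nat_one_div_lt hr
        exact (cell_small (Nat.lt_succ_self k) (unl_lim hu _) (hcell β z h _)).trans hk.le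
      exact h1.2 rfl (by rw [h2]; exact hz)
  let val : (ℕ → ℕ) → Prop := fun β => ∃ n, (∀ m < n, ¬ c.Dead C a b m (π β)) ∧
    c.Dead C a b n (π β) ∧ (c.pt C a b true n (π β)).Nonempty
  have hval1 : ∀ β β' m, (∀ k < m, β k = β' k) → (∃ n ≤ m, c.Dead C a b n (π β')) →
      val β → val β' := by
    rintro β β' m h ⟨n', hn', hd'⟩ ⟨n, h1, h2, h3⟩
    have h4 := hag β β' m h
    have h5 : n ≤ n' := by
      by_contra h5
      exact h1 n' (not_le.1 h5) ((dead_congr (h4.mono (by omega))).2 hd')
    exact ⟨n, fun j hj h6 => h1 j hj ((dead_congr (h4.mono (by omega))).2 h6),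
      (dead_congr (h4.mono (by omega))).1 h2, by rwa [← pt_congr (h4.mono (by omega))]⟩
  have hval2 : ∀ β, ∀ z ∈ C, (∀ k, z ∈ c.W k (β k)) → ∀ m, z ∈ c.port a b m →
      (∀ n < m, ¬ c.Dead C a b n (π β)) → (val β ↔ c.col a b (π β) z = true) := by
    intro β z hz h m hm hnd
    constructor
    · rintro ⟨n, -, ⟨e, h2⟩, h3⟩
      have h4 : m ≤ n := by
        by_contra h4
        exact hnd n (not_le.1 h4) ⟨e, h2⟩
      by_contra h5
      cases e with
      | true => exact h3.ne_empty h2
      | false =>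
        have h6 : z ∈ c.pt C a b false n (π β) :=
          ⟨port_mono h4 hm, hz, hcell β z h n, by simpa using h5⟩
        rw [h2] at h6
        exact h6
    · intro h5
      have h1 := hdead β z hz h
      have h4 : m ≤ Nat.find h1 := by
        by_contra h4
        exact hnd _ (not_le.1 h4) (Nat.find_spec h1)
      exact ⟨Nat.find h1, fun j hj => Nat.find_min h1 hj, Nat.find_spec h1,
        z, port_mono h4 hm, hz, hcell β z h _, h5⟩
  have hval3 : ∀ β β', ∀ z ∈ C, (∀ k, z ∈ c.W k (β k)) → (∀ k, z ∈ c.W k (β' k)) →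
      val β → val β' := by
    intro β β' z hz h h' hv
    by_cases hne : ∃ k, β k ≠ β' k
    swap
    · push Not at hne
      rwa [← funext hne]
    have h1 : ∀ k < Nat.find hne, β k = β' k := fun k hk => not_not.1 (Nat.find_min hne hk)
    by_cases hd : ∃ n ≤ Nat.find hne, c.Dead C a b n (π β')
    · exact hval1 β β' _ h1 hd hv
    push Not at hd
    have h2 := hag β β' _ h1
    have h3 : z ∈ c.port a b (Nat.find hne + 1) := mem_port.2 (Or.inr (Or.inr ⟨_, Nat.lt_succ_self _,
      c.overlap _ _ _ (Nat.find_spec hne) ⟨h _, h' _⟩⟩))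
    rw [hval2 β' z hz h' _ h3 fun n hn => hd n (by omega), ← col_congr h2 (by omega) h3,
      ← hval2 β z hz h _ h3 fun n hn h4 => hd n (by omega) ((dead_congr (h2.mono (by omega))).1 h4)]
    exact hv
  choose br hbr using fun z k => c.cover k z
  have hloc : ∀ z ∈ C, ∀ᶠ y in 𝓝[C] z, (val (br z) → val (br y)) ∧ (val (br y) → val (br z)) := by
    intro z hz
    have hK : IsCompact (Set.pi univ fun k => {i | z ∈ c.W k i}) :=
      isCompact_univ_pi fun k => ((c.fin k).subset fun i hi => ⟨z, hi⟩).isCompact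
    obtain ⟨N, hN⟩ := hK.elim_directed_cover (fun N => {β | ∃ n ≤ N, c.Dead C a b n (π β)})
      (fun N => by
        rw [isOpen_iff_mem_nhds]
        rintro β ⟨n, hn, hd⟩
        have : ∀ᶠ β' in 𝓝 β, ∀ k ∈ {k | k < n}, β' k = β k :=
          ((finite_lt_nat n).eventually_all).2 fun k _ =>
            ((isOpen_discrete {β k}).preimage (continuous_apply (A := fun _ : ℕ => ℕ) k)).mem_nhds
              (mem_singleton (β k))
        filter_upwards [this] with β' hβ'
        exact ⟨n, hn, (dead_congr ((hag β' β n hβ').mono (by omega))).2 hd⟩)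
      (fun β hβ => by
        obtain ⟨n, hn⟩ := hdead β z hz fun k => hβ k trivial
        exact mem_iUnion.2 ⟨n, n, le_rfl, hn⟩)
      (Monotone.directed_le fun N N' h β ⟨n, hn, hd⟩ => ⟨n, hn.trans h, hd⟩)
    have ht : ∀ᶠ y in 𝓝 z, ∀ k ∈ {k | k < N}, ∀ i ∈ {i | (c.W k i).Nonempty},
        y ∈ c.W k i → z ∈ c.W k i :=
      ((finite_lt_nat N).eventually_all).2 fun k _ => ((c.fin k).eventually_all).2 fun i _ => by
        by_cases h : z ∈ c.W k i
        · exact Eventually.of_forall fun _ _ => h
        · filter_upwards [(c.closed k i).isOpen_compl.mem_nhds h] with y hy hy'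
          exact absurd hy' hy
    filter_upwards [mem_nhdsWithin_of_mem_nhds ht] with y hy
    let β' : ℕ → ℕ := fun k => if k < N then br y k else br z k
    have h1 : ∀ k, z ∈ c.W k (β' k) := by
      intro k
      by_cases hk : k < N
      · simp only [β', if_pos hk]
        exact hy k hk _ ⟨y, hbr y k⟩ (hbr y k)
      · simp only [β', if_neg hk]
        exact hbr z k
    have h2 : ∀ k < N, br y k = β' k := fun k hk => by simp only [β', if_pos hk]
    obtain ⟨n, hn, hd⟩ := hN (fun k _ => h1 k : β' ∈ Set.pi univ fun k => {i | z ∈ c.W k i})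
    exact ⟨fun hv => hval1 β' (br y) N (fun k hk => (h2 k hk).symm)
        ⟨n, hn, (dead_congr ((hag _ _ N h2).mono (by omega))).2 hd⟩
        (hval3 _ _ z hz (hbr z) h1 hv),
      fun hv => hval3 _ _ z hz h1 (hbr z) (hval1 _ _ N h2 ⟨n, hn, hd⟩ hv)⟩
  have h1 := hC.induction₂' (fun y z => val (br y) → val (br z)) hloc
    (fun _ _ _ _ _ _ h h' hv => h' (h hv)) hb ha
    ((hval2 _ b hb (hbr b) 0 (mem_port.2 (Or.inr (Or.inl rfl))) (by simp)).2 (col_b hab _))
  rw [hval2 _ a ha (hbr a) 0 (mem_port.2 (Or.inl rfl)) (by simp), col_a] at h1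
  cases h1

/-- a winning strategy of the cell player gives a continuum inside `C` -/
theorem of_chooser (hX : FS X) (hab : a ≠ b) (σ : Strat (c.game C a b))
    (hσ : ∀ x, Cons false σ x → Win false (c.lim a ⁻¹' Cᶜ) x) :
    ∃ K : Set X, IsClosed K ∧ IsPreconnected K ∧ K ⊆ C ∧ a ∈ K ∧ b ∈ K := by
  classical
  have hwin : ∀ x : Pl X, (∀ n, n % 2 = 1 → x n = σ.mv n x) →
      Unl (G := c.game C a b) x ∧ c.lim a x ∈ C := by
    intro x hx
    rcases hσ x (fun n hn => Or.inl (hx n (by
      have : ¬ n % 2 = 0 := by simpa [turn] using hn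
      omega))) with ⟨n, hn⟩ | ⟨h1, h2⟩
    · exact absurd hn (lab_ne_false n x)
    · refine ⟨h1, ?_⟩
      by_contra h3
      cases h2.1 h3
  have hplay : ∀ (y : Pl X), ∃ x : Pl X, (∀ n, n % 2 = 1 → x n = σ.mv n x) ∧
      ∀ n, n % 2 = 0 → x n = y n := by
    intro y
    obtain ⟨x, hx⟩ := exists_play (M := fun _ => (X → Bool) × ℕ)
      (fun n x => if n % 2 = 0 then y n else σ.mv n x)
      (fun n x y h => by rw [σ.na n x y h]) y
    exact ⟨x, fun n hn => by rw [hx n, if_neg (by omega)], fun n hn => by rw [hx n, if_pos hn]⟩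
  let Nd := {s : ℕ × Pl X // (∀ n, n % 2 = 1 → s.2 n = σ.mv n s.2) ∧
    ∀ e, C ∩ closure (c.pt C a b e s.1 s.2) ⊆ c.pt C a b e s.1 s.2}
  have hsub : ∀ e n x, c.pt C a b e n x ⊆ (⋃ n, c.port a b n) ∩ C ∩ c.cell n x :=
    fun e n x y hy => ⟨⟨mem_iUnion.2 ⟨n, hy.1⟩, hy.2.1⟩, hy.2.2.1⟩
  have hS : Sys C (⋃ n, c.port a b n)
      (fun s t : Nd => s.1.1 < t.1.1 ∧ Agree (2 * s.1.1) s.1.2 t.1.2)
      (fun s => c.cell s.1.1 s.1.2) (fun s => c.pt C a b false s.1.1 s.1.2)
      (fun s => c.pt C a b true s.1.1 s.1.2) :=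
    { trans := fun s t u h h' => ⟨h.1.trans h'.1, h.2.trans (h'.2.mono (by have := h.1; omega))⟩
      closed := fun s => isClosed_cell _ _
      anti := fun s t h => by
        show c.cell _ _ ⊆ c.cell _ _
        rw [cell_congr h.2]
        exact cell_anti h.1.le _
      P_sub := fun s => hsub _ _ _
      Q_sub := fun s => hsub _ _ _
      P_ne := fun s => pt_ne (hwin _ s.2.1).1 _ _
      Q_ne := fun s => pt_ne (hwin _ s.2.1).1 _ _
      P_cl := fun s => s.2.2 false
      Q_cl := fun s => s.2.2 true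
      disj := fun s => Set.disjoint_left.2 fun y hy hy' => by
        have := hy.2.2.2.symm.trans hy'.2.2.2
        cases this
      count := countable_iUnion fun n =>
        ((Finset.range n).countable_toSet.biUnion (fun k _ => c.countF k)).insert b |>.insert a
      ext := by
        rintro ⟨⟨n, x⟩, hx, hx'⟩ U0 U1 hU0 hU1 hU h1 h2 h3
        dsimp only at hx h1 h2 h3 ⊢
        obtain ⟨x', k1, k2⟩ := hplay
          (fun m => if m < 2 * n then x m else (fun y => decide (y ∈ U1), 0))
        have k3 : ∀ m, m ≤ 2 * n → Agree m x x' := by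
          intro m
          induction m with
          | zero => intro _ i hi; omega
          | succ m ih =>
            intro hm
            refine (ih (by omega)).succ ?_
            rcases Nat.mod_two_eq_zero_or_one m with h | h
            · rw [k2 m h, if_pos (by omega)]
            · rw [hx m h, k1 m h]
              exact σ.na m _ _ (ih (by omega))
        have k4 := k3 _ le_rfl
        have k5 : ∀ y, (x' (2 * n)).1 y = decide (y ∈ U1) := fun y => by
          rw [k2 (2 * n) (by omega), if_neg (lt_irrefl _)]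
        have k6 : ∀ e y, y ∈ c.pt C a b e (n + 1) x' → y ∈ c.port a b n → y ∈ c.pt C a b e n x := by
          intro e y hy hy'
          rw [pt_congr k4]
          exact ⟨hy', hy.2.1, cell_anti (Nat.le_succ n) _ hy.2.2.1, hy.2.2.2⟩
        have k7 : c.pt C a b false (n + 1) x' ⊆ U0 := by
          intro y hy
          by_cases hy' : y ∈ c.port a b n
          · exact h2 (k6 _ y hy hy')
          · have k8 := hy.2.2.2
            rw [col_new x' hy.1 hy', k5] at k8
            refine (h1 ⟨(hsub _ _ _ hy).1, ?_⟩).resolve_right (by simpa using k8)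
            rw [cell_congr k4]
            exact cell_anti (Nat.le_succ n) _ hy.2.2.1
        have k8 : c.pt C a b true (n + 1) x' ⊆ U1 := by
          intro y hy
          by_cases hy' : y ∈ c.port a b n
          · exact h3 (k6 _ y hy hy')
          · have k8 := hy.2.2.2
            rw [col_new x' hy.1 hy', k5] at k8
            simpa using k8
        refine ⟨⟨(n + 1, x'), k1, ?_⟩, ⟨Nat.lt_succ_self n, k4⟩, k7, k8⟩
        rintro e y ⟨hy, hy'⟩
        have k9 : y ∈ c.port a b (n + 1) :=
          closure_minimal (fun w hw => hw.1) (isClosed_port _) hy'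
        have k10 : y ∈ c.cell (n + 1) x' :=
          closure_minimal (fun w hw => hw.2.2.1) (isClosed_cell _ _) hy'
        refine ⟨k9, hy, k10, ?_⟩
        by_contra k11
        cases e with
        | false =>
          exact Set.disjoint_left.1 (hU.closure_left hU1) (closure_mono k7 hy')
            (k8 ⟨k9, hy, k10, by simpa using k11⟩)
        | true =>
          exact Set.disjoint_left.1 (hU.closure_right hU0) (k7 ⟨k9, hy, k10, by simpa using k11⟩)
            (closure_mono k8 hy')
      lim := by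
        intro s hs
        have h1 : StrictMono fun j => (s j).1.1 := strictMono_nat_of_lt_succ fun j => (hs j).1
        have h2 : ∀ i j, i ≤ j → Agree (2 * (s i).1.1) (s i).1.2 (s j).1.2 := by
          intro i j hij
          induction hij with
          | refl => exact Agree.refl _ _
          | @step j h ih =>
            exact ih.trans ((hs j).2.mono (by have := h1.monotone h; omega))
        have h3 : ∀ j, Agree (2 * (s j).1.1) (s j).1.2 (fun m => (s (m + 1)).1.2 m) := by
          intro j m hm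
          have h4 : m + 1 ≤ (s (m + 1)).1.1 := h1.id_le (m + 1)
          rcases le_total j (m + 1) with h | h
          · exact h2 j (m + 1) h m hm
          · exact (h2 (m + 1) j h m (by omega)).symm
        obtain ⟨h4, h5⟩ := hwin (fun m => (s (m + 1)).1.2 m) (fun n hn => by
          have h4 : n + 1 ≤ (s (n + 1)).1.1 := h1.id_le (n + 1)
          exact ((s (n + 1)).2.1 n hn).trans (σ.na n _ _ ((h3 (n + 1)).mono (by omega))))
        refine ⟨_, h5, fun r hr => ?_⟩
        obtain ⟨k, hk⟩ := exists_nat_one_div_lt hr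
        refine eventually_atTop.2 ⟨k + 1, fun j hj y hy => ?_⟩
        have h6 : j ≤ (s j).1.1 := h1.id_le j
        rw [cell_congr (h3 j)] at hy
        exact (cell_small (show k < (s j).1.1 by omega) hy (unl_lim h4 _)).trans hk.le }
  obtain ⟨x, hx, -⟩ := hplay fun _ => (fun _ => false, 0)
  have h0 : ∀ e y, y ∈ c.pt C a b e 0 x → y = a ∨ y = b := fun e y hy => by
    simpa [mem_port] using hy.1
  obtain ⟨K, h1, h2, h3, ⟨p, hp, hp'⟩, ⟨q, hq, hq'⟩⟩ := hS.exists_continuum hX ⟨(0, x), hx,
    fun e => by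
      have : (c.pt C a b e 0 x).Finite := (toFinite ({a, b} : Set X)).subset fun y hy => h0 e y hy
      rw [this.isClosed.closure_eq]
      exact inter_subset_right⟩
  refine ⟨K, h1, h2, h3, ?_, ?_⟩
  · rcases h0 _ p hp' with h | h
    · exact h ▸ hp
    · have := hp'.2.2.2
      rw [h, col_b hab] at this
      cases this
  · rcases h0 _ q hq' with h | h
    · have := hq'.2.2.2
      rw [h, col_a] at this
      cases this
    · exact h ▸ hq

end Cells

theorem FS.borel_arc (hX : FS X) {C : Set X} (hC : IsPreconnected C)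
    (hB : @MeasurableSet X (borel X) C) {a b : X} (ha : a ∈ C) (hb : b ∈ C) (hab : a ≠ b) :
    ∃ γ : unitInterval → X, Continuous γ ∧ Function.Injective γ ∧ γ 0 = a ∧ γ 1 = b ∧
      range γ ⊆ C := by
  obtain ⟨c⟩ := hX.nonempty_cells
  obtain ⟨e, σ, hσ⟩ := borel_det (c.game C a b) (c.lim a) Cells.contU hB.compl
  cases e with
  | true => exact (Cells.not_colourer hC ha hb hab σ hσ).elim
  | false =>
    obtain ⟨K, h1, h2, h3, h4, h5⟩ := Cells.of_chooser hX hab σ hσ
    obtain ⟨γ, k1, k2, k3, k4, k5⟩ := hX.exists_arc h1 h2 h4 h5 hab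
    exact ⟨γ, k1, k2, k3, k4, k5.trans h3⟩

end Pool.Agent.MP_2fe25f_gt
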