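import Mathlib

-- part MP_2fe25f_gt.Top1
section

/-!
Finitely Suslinian compacta, part 1: subcontinua are locally connected, and separated connected
sets joining two disjoint closed sets are finitely many.
-/

set_option autoImplicit false
set_option linter.unusedSectionVars false

open Set Metric Topology Filter

namespace Pool.Agent.MP_2fe25f_gt

variable {X : Type} [MetricSpace X]

/-- `S` meets both `A` and `B` -/
def Cr (A B S : Set X) : Prop := (S ∩ A).Nonempty ∧ (S ∩ B).Nonempty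

theorem Cr.mono {A B S T : Set X} (h : Cr A B S) (hST : S ⊆ T) : Cr A B T :=
  ⟨h.1.mono (inter_subset_inter_left _ hST), h.2.mono (inter_subset_inter_left _ hST)⟩

theorem Cr.mono' {A B A' B' S : Set X} (h : Cr A B S) (hA : A ⊆ A') (hB : B ⊆ B') :
    Cr A' B' S :=
  ⟨h.1.mono (inter_subset_inter_right _ hA), h.2.mono (inter_subset_inter_right _ hB)⟩

/-- no infinite sequence of disjoint continua joins two disjoint closed sets -/
def FS (X : Type) [MetricSpace X] : Prop :=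
  ∀ A B : Set X, IsClosed A → IsClosed B → Disjoint A B → ∀ f : ℕ → Set X,
    (∀ n, IsClosed (f n) ∧ IsPreconnected (f n) ∧ Cr A B (f n)) →
    Pairwise (fun i j => Disjoint (f i) (f j)) → False

theorem fs_of [CompactSpace X] (h : ∀ ε : ℝ, 0 < ε →
    ¬ ∃ f : ℕ → Set X, (∀ n, IsCompact (f n) ∧ IsConnected (f n) ∧ ε < Metric.diam (f n)) ∧
      Pairwise (fun i j => Disjoint (f i) (f j))) : FS X := by
  intro A B hA hB hAB f hf hd
  obtain ⟨δ, hδ, h1⟩ := hAB.exists_thickenings hA.isCompact hB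
  refine h (δ / 2) (by positivity) ⟨f, fun n => ⟨(hf n).1.isCompact, ⟨?_, (hf n).2.1⟩, ?_⟩, hd⟩
  · exact (hf n).2.2.1.mono inter_subset_left
  · obtain ⟨⟨a, ha, ha'⟩, ⟨b, hb, hb'⟩⟩ := (hf n).2.2
    have h2 : dist a b ≤ diam (f n) := dist_le_diam_of_mem (hf n).1.isCompact.isBounded ha hb
    have h3 : δ ≤ dist a b := by
      by_contra h4
      push Not at h4
      exact Set.disjoint_left.1 h1 (mem_thickening_iff.2 ⟨a, ha', by rwa [dist_comm]⟩)
        (self_subset_thickening hδ B hb')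
    linarith

/-- the component of `x` in `S` -/
noncomputable abbrev cc (S : Set X) (x : X) : Set X := connectedComponentIn S x

theorem cc_pre (S : Set X) (x : X) : IsPreconnected (cc S x) :=
  isPreconnected_connectedComponentIn

theorem cc_sub (S : Set X) (x : X) : cc S x ⊆ S := connectedComponentIn_subset S x

theorem cc_mem {S : Set X} {x : X} (h : x ∈ S) : x ∈ cc S x := mem_connectedComponentIn h

theorem cc_max {S T : Set X} {x y : X} (hT : IsPreconnected T) (hTS : T ⊆ S) (hy : y ∈ T)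
    (hyx : y ∈ cc S x) : T ⊆ cc S x := by
  rw [show cc S x = cc S y from connectedComponentIn_eq hyx]
  exact hT.subset_connectedComponentIn hy hTS

theorem cc_closed {S : Set X} {x w : X} (hw : w ∈ S) (h : w ∈ closure (cc S x)) : w ∈ cc S x := by
  by_cases hx : x ∈ S
  · have h1 : IsPreconnected (insert w (cc S x)) :=
      (cc_pre S x).subset_closure (subset_insert _ _) (insert_subset h subset_closure)
    exact h1.subset_connectedComponentIn (mem_insert_of_mem _ (cc_mem hx))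
      (insert_subset hw (cc_sub S x)) (mem_insert _ _)
  · rw [show cc S x = ∅ from connectedComponentIn_eq_empty hx] at h
    simp at h

theorem isClosed_cc {S : Set X} (hS : IsClosed S) (x : X) : IsClosed (cc S x) :=
  isClosed_of_closure_subset fun _ hw =>
    cc_closed (closure_minimal (cc_sub S x) hS hw) hw

theorem cc_disjoint {S : Set X} {x y : X} (h : cc S x ≠ cc S y) : Disjoint (cc S x) (cc S y) := by
  rw [Set.disjoint_left]
  intro z hz hz'
  exact h ((connectedComponentIn_eq hz).trans (connectedComponentIn_eq hz').symm)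

theorem cc_sep {S : Set X} {x y : X} (h : cc S x ≠ cc S y) :
    Disjoint (closure (cc S x)) (cc S y) := by
  rw [Set.disjoint_left]
  intro z hz hz'
  exact Set.disjoint_left.1 (cc_disjoint h) (cc_closed (cc_sub S y hz') hz) hz'

/-- `H` is separated between `A` and `B` -/
def Sep (H A B : Set X) : Prop :=
  ∃ U W : Set X, IsOpen U ∧ IsOpen W ∧ Disjoint U W ∧ H ⊆ U ∪ W ∧ H ∩ A ⊆ U ∧ H ∩ B ⊆ W

theorem exists_open_sep {s t : Set X} (h1 : Disjoint (closure s) t) (h2 : Disjoint s (closure t)) :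
    ∃ U W : Set X, IsOpen U ∧ IsOpen W ∧ Disjoint U W ∧ s ⊆ U ∧ t ⊆ W := by
  obtain ⟨U, W, hU, hW, h3, h4, h5⟩ :=
    separatedNhds_iff_disjoint.2 (CompletelyNormalSpace.completely_normal h1 h2)
  exact ⟨U, W, hU, hW, h5, h3, h4⟩

theorem Sep.not_cr {H A B T : Set X} (h : Sep H A B) (hT : IsPreconnected T) (hTH : T ⊆ H) :
    ¬ Cr A B T := by
  obtain ⟨U, W, hU, hW, hd, h1, h2, h3⟩ := h
  rintro ⟨⟨a, ha, ha'⟩, ⟨b, hb, hb'⟩⟩
  rcases hT.subset_or_subset hU hW hd (hTH.trans h1) with h4 | h4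
  · exact Set.disjoint_left.1 hd (h4 hb) (h3 ⟨hTH hb, hb'⟩)
  · exact Set.disjoint_left.1 hd (h2 ⟨hTH ha, ha'⟩) (h4 ha)

theorem sep_point_compact [CompactSpace X] {H B : Set X} (hH : IsClosed H) (hB : IsClosed B)
    {x : X} (hx : x ∈ H) (h : Disjoint (cc H x) B) : Sep H {x} B := by
  have : CompactSpace H := isCompact_iff_compactSpace.1 hH.isCompact
  have : Nonempty {s : Set H // IsClopen s ∧ (⟨x, hx⟩ : H) ∈ s} := ⟨⟨univ, isClopen_univ, trivial⟩⟩
  have hdir : Directed (· ⊇ ·)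
      (fun s : {s : Set H // IsClopen s ∧ (⟨x, hx⟩ : H) ∈ s} => (s : Set H)) := by
    intro s t
    exact ⟨⟨s.1 ∩ t.1, s.2.1.inter t.2.1, s.2.2, t.2.2⟩, inter_subset_left, inter_subset_right⟩
  obtain ⟨s, hs⟩ := exists_subset_nhds_of_isCompact' hdir (fun s => s.2.1.isClosed.isCompact)
    (fun s => s.2.1.isClosed) (U := (↑) ⁻¹' Bᶜ) (by
      intro y hy
      rw [← connectedComponent_eq_iInter_isClopen] at hy
      refine (hB.isOpen_compl.preimage continuous_subtype_val).mem_nhds ?_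
      have : (y : X) ∈ cc H x := by
        rw [show cc H x = _ from connectedComponentIn_eq_image hx]; exact ⟨y, hy, rfl⟩
      exact Set.disjoint_left.1 h this)
  have h1 : IsClosed ((↑) '' s.1 : Set X) := hH.isClosedMap_subtype_val _ s.2.1.isClosed
  have h2 : IsClosed ((↑) '' s.1ᶜ : Set X) := hH.isClosedMap_subtype_val _ s.2.1.compl.isClosed
  have h3 : Disjoint ((↑) '' s.1 : Set X) ((↑) '' s.1ᶜ) :=
    disjoint_image_of_injective Subtype.val_injective disjoint_compl_right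
  obtain ⟨U, W, hU, hW, hd, h4, h5⟩ := exists_open_sep (s := Subtype.val '' s.1) (t := Subtype.val '' s.1ᶜ)
    (by rwa [h1.closure_eq]) (by rwa [h2.closure_eq])
  refine ⟨U, W, hU, hW, hd, fun y hy => ?_, ?_, ?_⟩
  · by_cases h6 : (⟨y, hy⟩ : H) ∈ s.1
    · exact Or.inl (h4 ⟨_, h6, rfl⟩)
    · exact Or.inr (h5 ⟨_, h6, rfl⟩)
  · rintro y ⟨-, rfl⟩
    exact h4 ⟨_, s.2.2, rfl⟩
  · rintro y ⟨hy, hyB⟩
    exact h5 ⟨⟨y, hy⟩, fun h6 => hs h6 hyB, rfl⟩

/-- boundary bumping from a separation property -/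
theorem bb_of_sep {T F V : Set X} (hT : IsPreconnected T) (hV : IsOpen V) (hF : IsClosed F)
    (hVF : V ⊆ F) {g : X} (hg : g ∈ T ∩ V) (hTV : ¬ T ⊆ V)
    (hsep : Disjoint (cc (T ∩ F) g) Vᶜ → Sep (T ∩ F) {g} Vᶜ) :
    ∃ w ∈ cc (T ∩ F) g, w ∉ V := by
  by_contra hne
  push Not at hne
  obtain ⟨U, W, hU, hW, hd, h1, h2, h3⟩ := hsep (Set.disjoint_left.2 fun w hw hw' => hw' (hne w hw))
  have hgU : g ∈ U := h2 ⟨⟨hg.1, hVF hg.2⟩, rfl⟩
  have h4 : T ⊆ (U ∩ V) ∪ (W ∪ Fᶜ) := by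
    intro t ht
    by_cases htF : t ∈ F
    · by_cases htV : t ∈ V
      · rcases h1 ⟨ht, htF⟩ with h | h
        · exact Or.inl ⟨h, htV⟩
        · exact Or.inr (Or.inl h)
      · exact Or.inr (Or.inl (h3 ⟨⟨ht, htF⟩, htV⟩))
    · exact Or.inr (Or.inr htF)
  have h5 : Disjoint (U ∩ V) (W ∪ Fᶜ) := by
    rw [Set.disjoint_left]
    rintro z ⟨hz, hz'⟩ (h | h)
    · exact Set.disjoint_left.1 hd hz h
    · exact h (hVF hz')
  have h6 := hT.subset_left_of_subset_union (hU.inter hV) (hW.union hF.isOpen_compl) h5 h4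
    ⟨g, hg.1, hgU, hg.2⟩
  exact hTV (h6.trans inter_subset_right)

/-- the components of `H` that meet `A` and `B` -/
def crC (H A B : Set X) : Set (Set X) := {S | ∃ x ∈ H, S = cc H x ∧ Cr A B S}

theorem lc_of {T : Set X} (hT : IsPreconnected T) {w : X} (hw : w ∈ T) {r : ℝ} (hr : 0 < r)
    (hsep : ∀ g ∈ T ∩ ball w r, Disjoint (cc (T ∩ closedBall w r) g) (ball w r)ᶜ →
      Sep (T ∩ closedBall w r) {g} (ball w r)ᶜ)
    (hfin : (crC (T ∩ closedBall w r) (closedBall w (r / 2)) (ball w r)ᶜ).Finite) :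
    cc (T ∩ closedBall w r) w ∈ 𝓝[T] w := by
  have hwH : w ∈ T ∩ closedBall w r := ⟨hw, mem_closedBall_self hr.le⟩
  by_cases hTV : T ⊆ ball w r
  · refine mem_of_superset self_mem_nhdsWithin ?_
    exact hT.subset_connectedComponentIn hw (subset_inter Subset.rfl (hTV.trans ball_subset_closedBall))
  · have h1 : ∀ S ∈ crC (T ∩ closedBall w r) (closedBall w (r / 2)) (ball w r)ᶜ,
        ∀ᶠ y in 𝓝 w, y ∈ S → y ∈ cc (T ∩ closedBall w r) w := by
      rintro S ⟨x, -, rfl, -⟩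
      by_cases h : w ∈ cc (T ∩ closedBall w r) x
      · exact Eventually.of_forall fun y hy => by
          rwa [show cc (T ∩ closedBall w r) w = _ from (connectedComponentIn_eq h).symm]
      · have h2 : w ∉ closure (cc (T ∩ closedBall w r) x) := fun h2 => h (cc_closed hwH h2)
        filter_upwards [isClosed_closure.isOpen_compl.mem_nhds h2] with y hy hy'
        exact absurd (subset_closure hy') hy
    have h2 := (hfin.eventually_all (l := 𝓝 w)).2 h1
    filter_upwards [mem_nhdsWithin_of_mem_nhds h2,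
      mem_nhdsWithin_of_mem_nhds (ball_mem_nhds w (half_pos hr)), self_mem_nhdsWithin]
      with y hy hy1 hy2
    have hyb : y ∈ ball w r := ball_subset_ball (by linarith) hy1
    have hyH : y ∈ T ∩ closedBall w r := ⟨hy2, ball_subset_closedBall hyb⟩
    obtain ⟨z, hz, hz'⟩ := bb_of_sep hT isOpen_ball isClosed_closedBall ball_subset_closedBall
      ⟨hy2, hyb⟩ hTV (hsep y ⟨hy2, hyb⟩)
    exact hy _ ⟨y, hyH, rfl, ⟨y, cc_mem hyH, ball_subset_closedBall hy1⟩, ⟨z, hz, hz'⟩⟩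
      (cc_mem hyH)

theorem finite_of_seq {α : Type*} {𝒮 : Set α}
    (h : ∀ f : ℕ → α, Function.Injective f → (∀ n, f n ∈ 𝒮) → False) : 𝒮.Finite := by
  by_contra hinf
  have e := Set.Infinite.natEmbedding 𝒮 hinf
  exact h (fun n => (e n).1) (Subtype.val_injective.comp e.injective) (fun n => (e n).2)

theorem disjoint_ball_half (w : X) {r : ℝ} (hr : 0 < r) :
    Disjoint (closedBall w (r / 2)) (ball w r)ᶜ :=
  disjoint_compl_right_iff_subset.2 (closedBall_subset_ball (by linarith))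

theorem FS.crC_closed (hX : FS X) {H A B : Set X} (hH : IsClosed H) (hA : IsClosed A)
    (hB : IsClosed B) (hAB : Disjoint A B) : (crC H A B).Finite := by
  refine finite_of_seq fun f hf hf' => ?_
  choose x hx hfx hcr using hf'
  refine hX A B hA hB hAB f (fun n => ⟨?_, ?_, hcr n⟩) (fun i j hij => ?_)
  · rw [hfx n]; exact isClosed_cc hH _
  · rw [hfx n]; exact cc_pre _ _
  · have := hf.ne hij
    show Disjoint (f i) (f j)
    rw [hfx i, hfx j] at this ⊢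
    exact cc_disjoint this

variable [CompactSpace X]

theorem FS.lc0 (hX : FS X) {K : Set X} (hK : IsClosed K) (hK' : IsPreconnected K) {w : X}
    (hw : w ∈ K) {r : ℝ} (hr : 0 < r) : cc (K ∩ closedBall w r) w ∈ 𝓝[K] w :=
  lc_of hK' hw hr
    (fun _ hg h => sep_point_compact (hK.inter isClosed_closedBall) isOpen_ball.isClosed_compl
      ⟨hg.1, ball_subset_closedBall hg.2⟩ h)
    (hX.crC_closed (hK.inter isClosed_closedBall) isClosed_closedBall isOpen_ball.isClosed_compl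
      (disjoint_ball_half w hr))

/-- a connected set inside an open part of a continuum can be replaced by a continuum -/
theorem FS.exists_continuum (hX : FS X) {K O S : Set X} (hK : IsClosed K) (hK' : IsPreconnected K)
    (hO : IsOpen O) (hS : IsPreconnected S) (hSK : S ⊆ K ∩ O) {p q : X} (hp : p ∈ S) (hq : q ∈ S) :
    ∃ M, IsClosed M ∧ IsPreconnected M ∧ M ⊆ K ∩ O ∧ p ∈ M ∧ q ∈ M := by
  refine hS.induction₂'
    (fun p q => ∃ M, IsClosed M ∧ IsPreconnected M ∧ M ⊆ K ∩ O ∧ p ∈ M ∧ q ∈ M) ?_ ?_ hp hq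
  · intro w hw
    obtain ⟨r, hr, hrO⟩ := nhds_basis_closedBall.mem_iff.1 (hO.mem_nhds (hSK hw).2)
    have h1 := hX.lc0 hK hK' (hSK hw).1 hr
    have h2 : cc (K ∩ closedBall w r) w ⊆ K ∩ O :=
      (cc_sub _ _).trans (inter_subset_inter_right _ hrO)
    have h3 : w ∈ cc (K ∩ closedBall w r) w := cc_mem ⟨(hSK hw).1, mem_closedBall_self hr.le⟩
    filter_upwards [nhdsWithin_mono w (hSK.trans inter_subset_left) h1] with y hy
    exact ⟨⟨_, isClosed_cc (hK.inter isClosed_closedBall) _, cc_pre _ _, h2, h3, hy⟩,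
      ⟨_, isClosed_cc (hK.inter isClosed_closedBall) _, cc_pre _ _, h2, hy, h3⟩⟩
  · rintro x y z - - - ⟨M, h1, h2, h3, h4, h5⟩ ⟨N, h6, h7, h8, h9, h10⟩
    exact ⟨M ∪ N, h1.union h6, h2.union y h5 h9 h7, union_subset h3 h8, Or.inl h4, Or.inr h10⟩

/-- separated connected sets joining two disjoint closed sets are finitely many -/
theorem FS.ns (hX : FS X) {A B : Set X} (hA : IsClosed A) (hB : IsClosed B) (hAB : Disjoint A B)
    (S : ℕ → Set X) (hS : ∀ n, IsPreconnected (S n) ∧ Cr A B (S n))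
    (hd : ∀ j k, j < k → Disjoint (closure (S j)) (S k)) : False := by
  have h1 : ∀ k, ∃ M, IsClosed M ∧ IsPreconnected M ∧ Cr A B M ∧ M ⊆ closure (S k) ∧
      ∀ j, j < k → Disjoint (closure (S j)) M := by
    intro k
    obtain ⟨⟨a, ha, ha'⟩, ⟨b, hb, hb'⟩⟩ := (hS k).2
    have hO : IsOpen (⋂ j ∈ Finset.range k, (closure (S j))ᶜ) :=
      isOpen_biInter_finset fun j _ => isClosed_closure.isOpen_compl
    obtain ⟨M, h1, h2, h3, h4, h5⟩ := hX.exists_continuum isClosed_closure (hS k).1.closure hO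
      (hS k).1 (subset_inter subset_closure (fun z hz => mem_iInter₂.2 fun j hj hz' =>
        Set.disjoint_left.1 (hd j k (Finset.mem_range.1 hj)) hz' hz)) ha hb
    refine ⟨M, h1, h2, ⟨⟨a, h4, ha'⟩, ⟨b, h5, hb'⟩⟩, h3.trans inter_subset_left, fun j hj => ?_⟩
    exact Set.disjoint_left.2 fun z hz hz' =>
      mem_iInter₂.1 (h3 hz').2 j (Finset.mem_range.2 hj) hz
  choose M h1 h2 h3 h4 h5 using h1
  refine hX A B hA hB hAB M (fun n => ⟨h1 n, h2 n, h3 n⟩) (fun i j hij => ?_)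
  rcases lt_or_gt_of_ne hij with h | h
  · exact (h5 j i h).mono_left (h4 i)
  · exact ((h5 i j h).mono_left (h4 j)).symm

theorem FS.crC_finite (hX : FS X) (H : Set X) {A B : Set X} (hA : IsClosed A)
    (hB : IsClosed B) (hAB : Disjoint A B) : (crC H A B).Finite := by
  refine finite_of_seq fun f hf hf' => ?_
  choose x hx hfx hcr using hf'
  refine hX.ns hA hB hAB f (fun n => ⟨?_, hcr n⟩) (fun i j hij => ?_)
  · rw [hfx n]; exact cc_pre _ _
  · have := hf.ne hij.ne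
    rw [hfx i, hfx j] at this ⊢
    exact cc_sep this

theorem FS.locallyConnected [ConnectedSpace X] (hX : FS X) : LocallyConnectedSpace X := by
  rw [locallyConnectedSpace_iff_connected_subsets]
  intro x U hU
  obtain ⟨r, hr, hrU⟩ := nhds_basis_closedBall.mem_iff.1 hU
  have := hX.lc0 isClosed_univ isPreconnected_univ (mem_univ x) hr
  rw [nhdsWithin_univ] at this
  exact ⟨_, this, cc_pre _ _, (cc_sub _ _).trans (inter_subset_right.trans hrU)⟩

end Pool.Agent.MP_2fe25f_gt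

end

-- part MP_2fe25f_gt.Top2
section

/-!
Finitely Suslinian continua, part 2: in every subset components are quasi-components, connected
subsets are locally connected.
-/

set_option autoImplicit false
set_option linter.unusedSectionVars false

open Set Metric Topology Filter

namespace Pool.Agent.MP_2fe25f_gt

variable {X : Type} [MetricSpace X] [CompactSpace X] [ConnectedSpace X]

theorem exists_seq_cover {ι : Type} (F : ι → Set X) (hF : ∀ i, IsOpen (F i)) (i0 : ι) :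
    ∃ u : ℕ → ι, ⋃ i, F i ⊆ ⋃ n, F (u n) := by
  obtain ⟨T, hT, h⟩ := TopologicalSpace.isOpen_iUnion_countable F hF
  obtain ⟨u, hu⟩ := (hT.insert i0).exists_eq_range (insert_nonempty _ _)
  refine ⟨u, fun x hx => ?_⟩
  rw [← h] at hx
  obtain ⟨i, hi, hx⟩ := mem_iUnion₂.1 hx
  have : i ∈ range u := hu ▸ mem_insert_of_mem _ hi
  obtain ⟨n, rfl⟩ := this
  exact mem_iUnion.2 ⟨n, hx⟩

theorem FS.cross_of_not_sep (hX : FS X) {V O A B : Set X} (hO : IsOpen O) (hVO : V ⊆ O)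
    (h : ¬ Sep V A B) : ∃ M, IsClosed M ∧ IsPreconnected M ∧ Cr A B M ∧ M ⊆ O := by
  have := hX.locallyConnected
  have key : ∀ P : Set X → Prop, IsOpen {z | z ∈ O ∧ P (cc O z)} := by
    intro P
    rw [isOpen_iff_mem_nhds]
    intro z hz
    filter_upwards [(hO.connectedComponentIn (x := z)).mem_nhds (cc_mem hz.1)] with y hy
    refine ⟨cc_sub _ _ hy, ?_⟩
    rw [← show cc O z = cc O y from connectedComponentIn_eq hy]
    exact hz.2
  by_contra hne
  apply h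
  refine ⟨_, _, key (fun S => (S ∩ A).Nonempty), key (fun S => ¬ (S ∩ A).Nonempty), ?_, ?_, ?_, ?_⟩
  · exact Set.disjoint_left.2 fun z hz hz' => hz'.2 hz.2
  · intro z hz
    by_cases h1 : (cc O z ∩ A).Nonempty
    · exact Or.inl ⟨hVO hz, h1⟩
    · exact Or.inr ⟨hVO hz, h1⟩
  · rintro z ⟨hz, hz'⟩
    exact ⟨hVO hz, z, cc_mem (hVO hz), hz'⟩
  · rintro z ⟨hz, hz'⟩
    refine ⟨hVO hz, ?_⟩
    rintro ⟨a, ha, ha'⟩
    obtain ⟨M, h1, h2, h3, h4, h5⟩ := hX.exists_continuum isClosed_univ isPreconnected_univ hO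
      (cc_pre O z) (subset_inter (subset_univ _) (cc_sub _ _)) ha (cc_mem (hVO hz))
    exact hne ⟨M, h1, h2, ⟨⟨a, h4, ha'⟩, ⟨z, h5, hz'⟩⟩, h3.trans inter_subset_right⟩

theorem exists_disjoint_open {H : Set X} (O : ℕ → Set X) (hO : ∀ n, IsOpen (O n))
    (hd : Pairwise fun i j => Disjoint (H ∩ O i) (H ∩ O j)) :
    ∃ O' : ℕ → Set X, (∀ n, IsOpen (O' n) ∧ H ∩ O n ⊆ O' n) ∧
      Pairwise fun i j => Disjoint (O' i) (O' j) := by
  have h1 : ∀ n, ∀ x ∈ H ∩ O n, ∃ r > 0, ball x r ⊆ O n := fun n x hx =>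
    Metric.isOpen_iff.1 (hO n) x hx.2
  choose! r hr hrO using h1
  refine ⟨fun n => ⋃ x ∈ H ∩ O n, ball x (r n x / 2), fun n => ⟨?_, ?_⟩, ?_⟩
  · exact isOpen_biUnion fun _ _ => isOpen_ball
  · intro x hx
    exact mem_iUnion₂.2 ⟨x, hx, mem_ball_self (half_pos (hr n x hx))⟩
  · intro i j hij
    rw [Set.disjoint_left]
    intro z hz hz'
    obtain ⟨x, hx, hz⟩ := mem_iUnion₂.1 hz
    obtain ⟨y, hy, hz'⟩ := mem_iUnion₂.1 hz'
    rw [mem_ball] at hz hz'
    have h2 := dist_triangle_left x y z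
    rcases le_total (r i x) (r j y) with h | h
    · have : x ∈ O j := hrO j y hy (by rw [mem_ball]; linarith)
      exact Set.disjoint_left.1 (hd hij) hx ⟨hx.1, this⟩
    · have : y ∈ O i := hrO i x hx (by rw [mem_ball, dist_comm]; linarith)
      exact Set.disjoint_left.1 (hd hij) ⟨hy.1, this⟩ hy

theorem FS.fin_not_sep (hX : FS X) {H A B : Set X} (hA : IsClosed A) (hB : IsClosed B)
    (hAB : Disjoint A B) (O : ℕ → Set X) (hO : ∀ n, IsOpen (O n))
    (hd : Pairwise fun i j => Disjoint (H ∩ O i) (H ∩ O j)) :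
    {n | ¬ Sep (H ∩ O n) A B}.Finite := by
  obtain ⟨O', h1, h2⟩ := exists_disjoint_open O hO hd
  refine finite_of_seq fun f hf hf' => ?_
  choose M h3 h4 h5 h6 using fun n => hX.cross_of_not_sep (h1 (f n)).1 (h1 (f n)).2 (hf' n)
  exact hX A B hA hB hAB M (fun n => ⟨h3 n, h4 n, h5 n⟩)
    (fun i j hij => (h2 (hf.ne hij)).mono (h6 i) (h6 j))

/-- the points at distance at least `1/(k+1)` from the complement of `G` -/
def core (G : Set X) (k : ℕ) : Set X := {z | ∀ y, y ∉ G → 1 / ((k : ℝ) + 1) ≤ dist z y}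

theorem isClosed_core (G : Set X) (k : ℕ) : IsClosed (core G k) := by
  unfold core
  simp only [ofPred_forall]
  exact isClosed_iInter fun y => isClosed_iInter fun _ =>
    isClosed_le continuous_const (continuous_id.dist continuous_const)

theorem core_subset (G : Set X) (k : ℕ) : core G k ⊆ G := by
  intro z hz
  by_contra h
  have := hz z h
  rw [dist_self] at this
  have : (0 : ℝ) < 1 / ((k : ℝ) + 1) := by positivity
  linarith

theorem core_mono (G : Set X) {k l : ℕ} (h : k ≤ l) : core G k ⊆ core G l := by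
  intro z hz y hy
  refine le_trans ?_ (hz y hy)
  have : (k : ℝ) ≤ l := by exact_mod_cast h
  exact one_div_le_one_div_of_le (by positivity) (by linarith)

theorem exists_core_nhds {G : Set X} (hG : IsOpen G) {x : X} (hx : x ∈ G) :
    ∃ k, core G k ∈ 𝓝 x := by
  obtain ⟨r, hr, hrG⟩ := Metric.isOpen_iff.1 hG x hx
  obtain ⟨k, hk⟩ := exists_nat_one_div_lt (half_pos hr)
  refine ⟨k, mem_of_superset (ball_mem_nhds x (half_pos hr)) fun z hz y hy => ?_⟩
  have h1 : r ≤ dist y x := by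
    by_contra h2
    exact hy (hrG (not_le.1 h2))
  have h2 := dist_triangle_left y x z
  rw [mem_ball] at hz
  linarith

theorem core_subset_interior (G : Set X) (k : ℕ) : core G k ⊆ interior (core G (k + 1)) := by
  intro z hz
  rw [mem_interior_iff_mem_nhds]
  have h0 : (0 : ℝ) < 1 / ((k : ℝ) + 1) - 1 / ((k + 1 : ℕ) + 1) := by
    rw [sub_pos]
    exact one_div_lt_one_div_of_lt (by positivity) (by push_cast; linarith)
  filter_upwards [ball_mem_nhds z h0] with w hw y hy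
  have h1 := hz y hy
  have h2 := dist_triangle_left z y w
  rw [mem_ball] at hw
  linarith

theorem exists_core_compact {G K : Set X} (hG : IsOpen G) (hK : IsCompact K) (hKG : K ⊆ G) :
    ∃ k, K ⊆ core G k := by
  obtain ⟨δ, hδ, h⟩ := hK.exists_thickening_subset_open hG hKG
  obtain ⟨k, hk⟩ := exists_nat_one_div_lt hδ
  refine ⟨k, fun z hz y hy => ?_⟩
  by_contra h1
  exact hy (h (mem_thickening_iff.2 ⟨z, hz, by rw [dist_comm]; linarith⟩))

/-- disjointification of a sequence of clopen pieces of `H` -/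
def dj (U W : ℕ → Set X) (n : ℕ) : Set X := W n ∩ ⋂ m ∈ Finset.range n, U m

theorem isOpen_dj {U W : ℕ → Set X} (hU : ∀ n, IsOpen (U n)) (hW : ∀ n, IsOpen (W n)) (n : ℕ) :
    IsOpen (dj U W n) := (hW n).inter (isOpen_biInter_finset fun m _ => hU m)

theorem dj_disjoint {U W : ℕ → Set X} (hd : ∀ n, Disjoint (U n) (W n)) :
    Pairwise fun i j => Disjoint (dj U W i) (dj U W j) := by
  have key : ∀ i j, i < j → Disjoint (dj U W i) (dj U W j) := fun i j h =>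
    Set.disjoint_left.2 fun z hz hz' =>
      Set.disjoint_left.1 (hd i) (mem_iInter₂.1 hz'.2 i (Finset.mem_range.2 h)) hz.1
  intro i j hij
  rcases lt_or_gt_of_ne hij with h | h
  · exact key i j h
  · exact (key j i h).symm

theorem dj_cover {H : Set X} {U W : ℕ → Set X} (hH : ∀ n, H ⊆ U n ∪ W n) {y : X} (hy : y ∈ H)
    (h : ∃ n, y ∈ W n) : ∃ n, y ∈ dj U W n := by
  classical
  refine ⟨Nat.find h, Nat.find_spec h, mem_iInter₂.2 fun m hm => ?_⟩
  exact (hH m hy).resolve_right (Nat.find_min h (Finset.mem_range.1 hm))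

theorem FS.split (hX : FS X) {H Q0 Q1 G0 G1 B : Set X} {U W : ℕ → Set X}
    (hU : ∀ n, IsOpen (U n)) (hW : ∀ n, IsOpen (W n)) (hd : ∀ n, Disjoint (U n) (W n))
    (hH : ∀ n, H ⊆ U n ∪ W n) (hQ : ∀ n, Q0 ∪ Q1 ⊆ U n) (hQH : Q0 ∪ Q1 ⊆ H)
    (hcov : ∀ y ∈ H, y ∈ Q0 ∪ Q1 ∨ ∃ n, y ∈ W n)
    (hG0 : IsOpen G0) (hG1 : IsOpen G1) (hG : Disjoint G0 G1) (h0 : Q0 ⊆ G0) (h1 : Q1 ⊆ G1)
    (hB : IsClosed B) (hQB : Disjoint Q0 B) :
    ∃ U' W' : Set X, IsOpen U' ∧ IsOpen W' ∧ Disjoint U' W' ∧ H ⊆ U' ∪ W' ∧ Q0 ⊆ U' ∧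
      Q1 ⊆ W' ∧ H ∩ B ⊆ W' := by
  classical
  let A : ℕ → Set X := fun k => core (G0 \ B) k
  let A' : ℕ → Set X := fun k => core G1 k ∪ B
  have hAA : ∀ k, Disjoint (A k) (A' k) := by
    intro k
    rw [Set.disjoint_left]
    rintro z hz (hz' | hz')
    · exact Set.disjoint_left.1 hG (core_subset _ _ hz).1 (core_subset _ _ hz')
    · exact (core_subset _ _ hz).2 hz'
  have hfin : ∀ k, {n | ¬ Sep (H ∩ dj U W n) (A k) (A' k)}.Finite := fun k =>
    hX.fin_not_sep (isClosed_core _ _) ((isClosed_core _ _).union hB) (hAA k) _ (isOpen_dj hU hW)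
      (fun i j hij => (dj_disjoint hd hij).mono inter_subset_right inter_subset_right)
  have hch : ∀ n, ∃ U' W' : Set X, IsOpen U' ∧ IsOpen W' ∧ Disjoint U' W' ∧
      H ∩ dj U W n ⊆ U' ∪ W' ∧ H ∩ dj U W n ∩ B ⊆ W' ∧ ∀ k, k ≤ n →
        Sep (H ∩ dj U W n) (A k) (A' k) →
          H ∩ dj U W n ∩ A k ⊆ U' ∧ H ∩ dj U W n ∩ A' k ⊆ W' := by
    intro n
    by_cases hex : ∃ k, k ≤ n ∧ Sep (H ∩ dj U W n) (A k) (A' k)
    · obtain ⟨k0, hk0, hk0'⟩ := hex
      obtain ⟨U', W', h2, h3, h4, h5, h6, h7⟩ :=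
        Nat.findGreatest_spec (P := fun k => Sep (H ∩ dj U W n) (A k) (A' k)) hk0 hk0'
      refine ⟨U', W', h2, h3, h4, h5, fun z hz => h7 ⟨hz.1, Or.inr hz.2⟩, fun k hk hs => ?_⟩
      have h8 := Nat.le_findGreatest (P := fun k => Sep (H ∩ dj U W n) (A k) (A' k)) hk hs
      refine ⟨fun z hz => h6 ⟨hz.1, core_mono _ h8 hz.2⟩, fun z hz => h7 ⟨hz.1, ?_⟩⟩
      exact hz.2.imp_left (fun h => core_mono _ h8 h)
    · refine ⟨∅, univ, isOpen_empty, isOpen_univ, empty_disjoint _, by simp, subset_univ _,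
        fun k hk hs => absurd ⟨k, hk, hs⟩ hex⟩
  choose U' W' hU' hW' hd' hc' hB' hk' using hch
  have hev : ∀ k, ∃ N, ∀ n, N ≤ n →
      H ∩ dj U W n ∩ A k ⊆ U' n ∧ H ∩ dj U W n ∩ A' k ⊆ W' n := by
    intro k
    obtain ⟨N, hN⟩ := (hfin k).bddAbove
    refine ⟨max (N + 1) k, fun n hn => hk' n k (le_trans (le_max_right _ _) hn) ?_⟩
    by_contra h
    have := hN h
    have := le_trans (le_max_left _ _) hn
    omega
  have key : ∀ (Q Q' G G' : Set X) (C : ℕ → Set X) (u w : ℕ → Set X), IsOpen G → Disjoint G G' →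
      Q ⊆ G → Q' ⊆ G' → (∀ n, Q ∪ Q' ⊆ U n) → (∀ n, IsOpen (u n)) →
      (∀ n, Disjoint (u n) (w n)) →
      (∀ x ∈ Q, ∃ k, C k ∈ 𝓝 x) → (∀ k, ∃ N, ∀ n, N ≤ n → H ∩ dj U W n ∩ C k ⊆ u n) →
      Disjoint (Q ∪ ⋃ n, H ∩ dj U W n ∩ u n) (closure (Q' ∪ ⋃ n, H ∩ dj U W n ∩ w n)) := by
    intro Q Q' G G' C u w hG hGG hQG hQG' hQU hu huw hC hN
    rw [Set.disjoint_left]
    rintro x (hx | hx) hx'
    · obtain ⟨k, hk⟩ := hC x hx
      obtain ⟨N, hN⟩ := hN k
      have h2 : C k ∩ G ∩ ⋂ m ∈ Finset.range N, U m ∈ 𝓝 x :=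
        inter_mem (inter_mem hk (hG.mem_nhds (hQG hx)))
          ((isOpen_biInter_finset fun m _ => hU m).mem_nhds
            (mem_iInter₂.2 fun m _ => hQU m (Or.inl hx)))
      obtain ⟨y, ⟨⟨hy1, hy2⟩, hy3⟩, hy4 | hy4⟩ := mem_closure_iff_nhds.1 hx' _ h2
      · exact Set.disjoint_left.1 hGG hy2 (hQG' hy4)
      · obtain ⟨n, hn1, hn2⟩ := mem_iUnion.1 hy4
        by_cases hn : N ≤ n
        · exact Set.disjoint_left.1 (huw n) (hN n hn ⟨hn1, hy1⟩) hn2
        · exact Set.disjoint_left.1 (hd n)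
            (mem_iInter₂.1 hy3 n (Finset.mem_range.2 (not_le.1 hn))) hn1.2.1
    · obtain ⟨n, hn1, hn2⟩ := mem_iUnion.1 hx
      have h2 : dj U W n ∩ u n ∈ 𝓝 x := ((isOpen_dj hU hW n).inter (hu n)).mem_nhds ⟨hn1.2, hn2⟩
      obtain ⟨y, ⟨hy1, hy2⟩, hy4 | hy4⟩ := mem_closure_iff_nhds.1 hx' _ h2
      · exact Set.disjoint_left.1 (hd n) (hQU n (Or.inr hy4)) hy1.1
      · obtain ⟨m, hm1, hm2⟩ := mem_iUnion.1 hy4
        by_cases hmn : m = n
        · subst hmn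
          exact Set.disjoint_left.1 (huw m) hy2 hm2
        · exact Set.disjoint_left.1 (dj_disjoint hd hmn) hm1.2 hy1
  have k0 := key Q0 Q1 G0 G1 A U' W' hG0 hG h0 h1 hQ hU' hd'
    (fun x hx => exists_core_nhds (hG0.sdiff hB) ⟨h0 hx, Set.disjoint_left.1 hQB hx⟩)
    (fun k => (hev k).imp fun N hN n hn => (hN n hn).1)
  have k1 := key Q1 Q0 G1 G0 A' W' U' hG1 hG.symm h1 h0 (fun n => by rw [union_comm]; exact hQ n)
    hW' (fun n => (hd' n).symm)
    (fun x hx => (exists_core_nhds hG1 (h1 hx)).imp fun k hk => mem_of_superset hk subset_union_left)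
    (fun k => (hev k).imp fun N hN n hn => (hN n hn).2)
  obtain ⟨U'', W'', h2, h3, h4, h5, h6⟩ := exists_open_sep k1.symm k0
  refine ⟨U'', W'', h2, h3, h4, fun y hy => ?_, subset_union_left.trans h5,
    subset_union_left.trans h6, fun y hy => ?_⟩
  · rcases hcov y hy with (h | h) | h
    · exact Or.inl (h5 (Or.inl h))
    · exact Or.inr (h6 (Or.inl h))
    · obtain ⟨n, hn⟩ := dj_cover hH hy h
      rcases hc' n ⟨hy, hn⟩ with h | h
      · exact Or.inl (h5 (Or.inr (mem_iUnion.2 ⟨n, ⟨hy, hn⟩, h⟩)))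
      · exact Or.inr (h6 (Or.inr (mem_iUnion.2 ⟨n, ⟨hy, hn⟩, h⟩)))
  · rcases hcov y hy.1 with (h | h) | h
    · exact absurd hy.2 (Set.disjoint_left.1 hQB h)
    · exact h6 (Or.inl h)
    · obtain ⟨n, hn⟩ := dj_cover hH hy.1 h
      exact h6 (Or.inr (mem_iUnion.2 ⟨n, ⟨hy.1, hn⟩, hB' n ⟨⟨hy.1, hn⟩, hy.2⟩⟩))

theorem FS.sep_point (hX : FS X) {H B : Set X} (hB : IsClosed B) {x : X} (hx : x ∈ H)
    (h : Disjoint (cc H x) B) : Sep H {x} B := by
  let ι := {p : Set X × Set X // IsOpen p.1 ∧ IsOpen p.2 ∧ Disjoint p.1 p.2 ∧ H ⊆ p.1 ∪ p.2 ∧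
    x ∈ p.1}
  let Q : Set X := {y | y ∈ H ∧ ∀ p : ι, y ∈ p.1.1}
  obtain ⟨u, hu⟩ := exists_seq_cover (fun p : ι => p.1.2) (fun p => p.2.2.1)
    ⟨(univ, ∅), isOpen_univ, isOpen_empty, disjoint_empty _, by simp, trivial⟩
  have hcov : ∀ y ∈ H, y ∈ Q ∨ ∃ n, y ∈ (u n).1.2 := by
    intro y hy
    by_cases hQ : y ∈ Q
    · exact Or.inl hQ
    · right
      have : ∃ p : ι, y ∉ p.1.1 := by
        by_contra hne
        push Not at hne
        exact hQ ⟨hy, hne⟩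
      obtain ⟨p, hp⟩ := this
      exact mem_iUnion.1 (hu (mem_iUnion.2 ⟨p, (p.2.2.2.2.1 hy).resolve_left hp⟩))
  have hxQ : x ∈ Q := ⟨hx, fun p => p.2.2.2.2.2⟩
  have main : ∀ Q0 Q1 G0 G1 B : Set X, Q0 ∪ Q1 = Q → IsOpen G0 → IsOpen G1 → Disjoint G0 G1 →
      Q0 ⊆ G0 → Q1 ⊆ G1 → IsClosed B → Disjoint Q0 B →
      ∃ U' W' : Set X, IsOpen U' ∧ IsOpen W' ∧ Disjoint U' W' ∧ H ⊆ U' ∪ W' ∧ Q0 ⊆ U' ∧
        Q1 ⊆ W' ∧ H ∩ B ⊆ W' := by
    intro Q0 Q1 G0 G1 B hQ hG0 hG1 hG h0 h1 hB hQB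
    exact hX.split (U := fun n => (u n).1.1) (W := fun n => (u n).1.2) (fun n => (u n).2.1)
      (fun n => (u n).2.2.1) (fun n => (u n).2.2.2.1) (fun n => (u n).2.2.2.2.1)
      (fun n y hy => (hQ ▸ hy : y ∈ Q).2 (u n)) (fun y hy => (hQ ▸ hy : y ∈ Q).1)
      (by rw [hQ]; exact hcov) hG0 hG1 hG h0 h1 hB hQB
  have aux : ∀ a b : Set X, IsOpen a → IsOpen b → Q ⊆ a ∪ b → Q ∩ (a ∩ b) = ∅ → x ∈ a → Q ⊆ a := by
    intro a b ha hb hab hab' hxa
    have h3 : ∀ z, z ∈ Q → z ∈ a → z ∈ b → False := fun z h1 h2 h3 =>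
      (hab' ▸ (⟨h1, h2, h3⟩ : z ∈ Q ∩ (a ∩ b)) : z ∈ (∅ : Set X))
    obtain ⟨G0, G1, hG0, hG1, hG, h0, h1⟩ := exists_open_sep (s := Q ∩ a) (t := Q ∩ b)
      (Set.disjoint_left.2 fun z hz hz' => by
        obtain ⟨y, hy1, hy2⟩ := mem_closure_iff.1 hz b hb hz'.2
        exact h3 y hy2.1 hy2.2 hy1)
      (Set.disjoint_left.2 fun z hz hz' => by
        obtain ⟨y, hy1, hy2⟩ := mem_closure_iff.1 hz' a ha hz.2
        exact h3 y hy2.1 hy1 hy2.2)
    obtain ⟨U', W', h4, h5, h6, h7, h8, h9, -⟩ := main (Q ∩ a) (Q ∩ b) G0 G1 ∅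
      (by rw [← inter_union_distrib_left, inter_eq_left.2 hab]) hG0 hG1 hG h0 h1 isClosed_empty
      (disjoint_empty _)
    intro z hz
    by_contra hza
    exact Set.disjoint_left.1 h6 (hz.2 ⟨(U', W'), h4, h5, h6, h7, h8 ⟨hxQ, hxa⟩⟩)
      (h9 ⟨hz, (hab hz).resolve_left hza⟩)
  have hpre : IsPreconnected Q := by
    rw [isPreconnected_iff_subset_of_disjoint]
    intro a b ha hb hab hab'
    rcases hab hxQ with h1 | h1
    · exact Or.inl (aux a b ha hb hab hab' h1)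
    · exact Or.inr (aux b a hb ha (by rwa [union_comm]) (by rwa [inter_comm b a]) h1)
  have hQc : Q ⊆ cc H x := hpre.subset_connectedComponentIn hxQ (fun y hy => hy.1)
  obtain ⟨U', W', h4, h5, h6, h7, h8, -, h9⟩ := main Q ∅ univ ∅ B (union_empty _) isOpen_univ
    isOpen_empty (disjoint_empty _) (subset_univ _) Subset.rfl hB (h.mono_left hQc)
  refine ⟨U', W', h4, h5, h6, h7, ?_, h9⟩
  rintro y ⟨-, rfl⟩
  exact h8 hxQ

/-- if no component of `H` meets both closed sets, `H` is separated between them -/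
theorem FS.sep (hX : FS X) {H A B : Set X} (hA : IsClosed A) (hB : IsClosed B)
    (h : ∀ x ∈ H, ¬ Cr A B (cc H x)) : Sep H A B := by
  let ι := {p : Set X × Set X × Bool // IsOpen p.1 ∧ IsOpen p.2.1 ∧ Disjoint p.2.1 p.1 ∧
    H ⊆ p.2.1 ∪ p.1 ∧ (p.2.2 = true → H ∩ B ⊆ p.2.1) ∧ (p.2.2 = false → H ∩ A ⊆ p.2.1)}
  obtain ⟨u, hu⟩ := exists_seq_cover (fun p : ι => p.1.1) (fun p => p.2.1)
    ⟨(∅, univ, true), isOpen_empty, isOpen_univ, disjoint_empty _, by simp, by simp, by simp⟩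
  have hcov : ∀ y ∈ H, ∃ n, y ∈ (u n).1.1 := by
    intro y hy
    apply mem_iUnion.1 (hu _)
    by_cases h1 : (cc H y ∩ A).Nonempty
    · have h2 : Disjoint (cc H y) B := by
        rw [Set.disjoint_iff_inter_eq_empty, ← not_nonempty_iff_eq_empty]
        exact fun h2 => h y hy ⟨h1, h2⟩
      obtain ⟨U, W, h3, h4, h5, h6, h7, h8⟩ := hX.sep_point hB hy h2
      exact mem_iUnion.2 ⟨⟨(U, W, true), h3, h4, h5.symm, by rwa [union_comm], fun _ => h8,
        by simp⟩, h7 ⟨hy, rfl⟩⟩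
    · have h2 : Disjoint (cc H y) A := by
        rwa [Set.disjoint_iff_inter_eq_empty, ← not_nonempty_iff_eq_empty]
      obtain ⟨U, W, h3, h4, h5, h6, h7, h8⟩ := hX.sep_point hA hy h2
      exact mem_iUnion.2 ⟨⟨(U, W, false), h3, h4, h5.symm, by rwa [union_comm], by simp,
        fun _ => h8⟩, h7 ⟨hy, rfl⟩⟩
  let U : ℕ → Set X := fun n => (u n).1.2.1
  let W : ℕ → Set X := fun n => (u n).1.1
  have hU : ∀ n, IsOpen (U n) := fun n => (u n).2.2.1
  have hW : ∀ n, IsOpen (W n) := fun n => (u n).2.1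
  have hd : ∀ n, Disjoint (U n) (W n) := fun n => (u n).2.2.2.1
  have hH : ∀ n, H ⊆ U n ∪ W n := fun n => (u n).2.2.2.2.1
  have hop : ∀ b : Bool, IsOpen (⋃ n ∈ {n | (u n).1.2.2 = b}, dj U W n) := fun b =>
    isOpen_biUnion fun n _ => isOpen_dj hU hW n
  refine ⟨_, _, hop true, hop false, ?_, fun y hy => ?_, fun y hy => ?_, fun y hy => ?_⟩
  · rw [Set.disjoint_left]
    intro z hz hz'
    obtain ⟨n, hn, hz⟩ := mem_iUnion₂.1 hz
    obtain ⟨m, hm, hz'⟩ := mem_iUnion₂.1 hz'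
    have hnm : n ≠ m := by
      rintro rfl
      have := hn.symm.trans hm
      cases this
    exact Set.disjoint_left.1 (dj_disjoint hd hnm) hz hz'
  · obtain ⟨n, hn⟩ := dj_cover hH hy (hcov y hy)
    cases hb : (u n).1.2.2
    · exact Or.inr (mem_iUnion₂.2 ⟨n, hb, hn⟩)
    · exact Or.inl (mem_iUnion₂.2 ⟨n, hb, hn⟩)
  · obtain ⟨n, hn⟩ := dj_cover hH hy.1 (hcov y hy.1)
    cases hb : (u n).1.2.2
    · exact absurd hn.1 (Set.disjoint_left.1 (hd n) ((u n).2.2.2.2.2.2 hb hy))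
    · exact mem_iUnion₂.2 ⟨n, hb, hn⟩
  · obtain ⟨n, hn⟩ := dj_cover hH hy.1 (hcov y hy.1)
    cases hb : (u n).1.2.2
    · exact mem_iUnion₂.2 ⟨n, hb, hn⟩
    · exact absurd hn.1 (Set.disjoint_left.1 (hd n) ((u n).2.2.2.2.2.1 hb hy))

/-- boundary bumping for arbitrary connected sets -/
theorem FS.bb (hX : FS X) {T F V : Set X} (hT : IsPreconnected T) (hV : IsOpen V)
    (hF : IsClosed F) (hVF : V ⊆ F) {g : X} (hg : g ∈ T ∩ V) (hTV : ¬ T ⊆ V) :
    ∃ w ∈ cc (T ∩ F) g, w ∉ V :=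
  bb_of_sep hT hV hF hVF hg hTV (fun h => hX.sep_point hV.isClosed_compl ⟨hg.1, hVF hg.2⟩ h)

/-- connected subsets are locally connected -/
theorem FS.lc (hX : FS X) {T : Set X} (hT : IsPreconnected T) {w : X} (hw : w ∈ T) {r : ℝ}
    (hr : 0 < r) : cc (T ∩ closedBall w r) w ∈ 𝓝[T] w :=
  lc_of hT hw hr
    (fun _ hg h => hX.sep_point isOpen_ball.isClosed_compl ⟨hg.1, ball_subset_closedBall hg.2⟩ h)
    (hX.crC_finite _ isClosed_closedBall isOpen_ball.isClosed_compl (disjoint_ball_half w hr))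

theorem FS.refine (hX : FS X) {O S : Set X} (hO : IsOpen O) (hS : IsPreconnected S) (hSO : S ⊆ O)
    {p q : X} (hp : p ∈ S) (hq : q ∈ S) :
    ∃ M, M ⊆ S ∧ IsPreconnected M ∧ closure M ⊆ O ∧ p ∈ M ∧ q ∈ M := by
  refine hS.induction₂'
    (fun p q => ∃ M, M ⊆ S ∧ IsPreconnected M ∧ closure M ⊆ O ∧ p ∈ M ∧ q ∈ M) ?_ ?_ hp hq
  · intro w hw
    obtain ⟨r, hr, hrO⟩ := nhds_basis_closedBall.mem_iff.1 (hO.mem_nhds (hSO hw))
    have h1 := hX.lc hS hw hr
    have h2 : closure (cc (S ∩ closedBall w r) w) ⊆ O :=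
      (closure_minimal ((cc_sub _ _).trans inter_subset_right) isClosed_closedBall).trans hrO
    have h3 : w ∈ cc (S ∩ closedBall w r) w := cc_mem ⟨hw, mem_closedBall_self hr.le⟩
    have h4 : cc (S ∩ closedBall w r) w ⊆ S := (cc_sub _ _).trans inter_subset_left
    filter_upwards [h1] with y hy
    exact ⟨⟨_, h4, cc_pre _ _, h2, h3, hy⟩, ⟨_, h4, cc_pre _ _, h2, hy, h3⟩⟩
  · rintro x y z - - - ⟨M, h1, h2, h3, h4, h5⟩ ⟨N, h6, h7, h8, h9, h10⟩
    exact ⟨M ∪ N, union_subset h1 h6, h2.union y h5 h9 h7,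
      by rw [closure_union]; exact union_subset h3 h8, Or.inl h4, Or.inr h10⟩

end Pool.Agent.MP_2fe25f_gt

end

-- part MP_2fe25f_gt.Arc
section

/-!
Finitely Suslinian compacta, part 3: every subcontinuum is arcwise connected.
-/

set_option autoImplicit false
set_option linter.unusedSectionVars false

open Set Metric Topology Filter

namespace Pool.Agent.MP_2fe25f_gt

variable {X : Type} [MetricSpace X] [CompactSpace X]

theorem isPreconnected_iInter_directed {ι : Type} [Nonempty ι] (K : ι → Set X)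
    (hdir : Directed (· ⊇ ·) K) (hc : ∀ i, IsClosed (K i)) (hp : ∀ i, IsPreconnected (K i)) :
    IsPreconnected (⋂ i, K i) := by
  rw [isPreconnected_iff_subset_of_fully_disjoint_closed (isClosed_iInter hc)]
  intro u v hu hv huv hd
  obtain ⟨U, W, hU, hW, h1, h2, h3⟩ := exists_open_sep (s := u) (t := v)
    (by rwa [hu.closure_eq]) (by rwa [hv.closure_eq])
  obtain ⟨i, hi⟩ := exists_subset_nhds_of_isCompact' hdir (fun i => (hc i).isCompact) hc
    (U := U ∪ W) (fun x hx => (hU.union hW).mem_nhds (union_subset_union h2 h3 (huv hx)))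
  rcases (hp i).subset_or_subset hU hW h1 hi with h | h
  · exact Or.inl fun x hx => (huv hx).resolve_right fun hv =>
      Set.disjoint_left.1 h1 (h (mem_iInter.1 hx i)) (h3 hv)
  · exact Or.inr fun x hx => (huv hx).resolve_left fun hu =>
      Set.disjoint_left.1 h1 (h2 hu) (h (mem_iInter.1 hx i))

theorem exists_irreducible {K : Set X} (hK : IsClosed K) (hK' : IsPreconnected K) {a b : X}
    (ha : a ∈ K) (hb : b ∈ K) :
    ∃ L, L ⊆ K ∧ Minimal (fun M => IsClosed M ∧ IsPreconnected M ∧ a ∈ M ∧ b ∈ M) L := by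
  refine zorn_superset_nonempty {M | IsClosed M ∧ IsPreconnected M ∧ a ∈ M ∧ b ∈ M} ?_ K
    ⟨hK, hK', ha, hb⟩
  intro c hc hchain hne
  have : Nonempty c := hne.to_subtype
  refine ⟨⋂ s : c, s.1, ⟨isClosed_iInter fun s => (hc s.2).1, ?_, mem_iInter.2 fun s => (hc s.2).2.2.1,
    mem_iInter.2 fun s => (hc s.2).2.2.2⟩, fun s hs => iInter_subset_of_subset ⟨s, hs⟩ Subset.rfl⟩
  refine isPreconnected_iInter_directed _ (fun s t => ?_) (fun s => (hc s.2).1) (fun s => (hc s.2).2.1)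
  rcases hchain.total s.2 t.2 with h | h
  · exact ⟨s, Subset.rfl, h⟩
  · exact ⟨t, h, Subset.rfl⟩

theorem mem_closure_cc_diff {K : Set X} (hK : IsClosed K) (hK' : IsPreconnected K) {x w : X}
    (hx : x ∈ K) (hw : w ∈ K \ {x}) : x ∈ closure (cc (K \ {x}) w) := by
  rw [Metric.mem_closure_iff]
  intro ε hε
  have hwx : 0 < dist w x := dist_pos.2 hw.2
  let r := min (ε / 2) (dist w x / 2)
  have hr : 0 < r := lt_min (by linarith) (by linarith)
  have hr1 : r ≤ ε / 2 := min_le_left _ _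
  have hr2 : r ≤ dist w x / 2 := min_le_right _ _
  have hwV : w ∈ (closedBall x r)ᶜ := by
    rw [mem_compl_iff, mem_closedBall, not_le]; linarith
  have hVF : (closedBall x r)ᶜ ⊆ (ball x r)ᶜ := compl_subset_compl.2 ball_subset_closedBall
  obtain ⟨z, hz, hz'⟩ := bb_of_sep hK' isClosed_closedBall.isOpen_compl isOpen_ball.isClosed_compl
    hVF ⟨hw.1, hwV⟩ (fun h => h hx (mem_closedBall_self hr.le))
    (fun h => sep_point_compact (hK.inter isOpen_ball.isClosed_compl)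
      isClosed_closedBall.isOpen_compl.isClosed_compl ⟨hw.1, hVF hwV⟩ h)
  refine ⟨z, connectedComponentIn_mono w ?_ hz, ?_⟩
  · rintro y ⟨hy, hy'⟩
    exact ⟨hy, fun h => hy' (by rw [h]; exact mem_ball_self hr)⟩
  · rw [mem_compl_iff, not_not, mem_closedBall] at hz'
    rw [dist_comm]; linarith

theorem FS.least (hX : FS X) {K : Set X} {a b : X}
    (hK : Minimal (fun M => IsClosed M ∧ IsPreconnected M ∧ a ∈ M ∧ b ∈ M) K) {x : X}
    (hx : x ∈ K) :
    ∃ L, (IsClosed L ∧ IsPreconnected L ∧ L ⊆ K ∧ a ∈ L ∧ x ∈ L) ∧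
      (∀ M, IsClosed M → IsPreconnected M → M ⊆ K → a ∈ M → x ∈ M → L ⊆ M) ∧
      cc (K \ {x}) a ⊆ L ∧ (x ≠ b → L ⊆ insert x (cc (K \ {x}) a)) := by
  obtain ⟨h1, h2, h3, h4⟩ := hK.1
  by_cases hxa : x = a
  · subst hxa
    refine ⟨{x}, ⟨isClosed_singleton, isPreconnected_singleton, singleton_subset_iff.2 hx, rfl, rfl⟩,
      fun M _ _ _ h _ => singleton_subset_iff.2 h, ?_, fun _ => singleton_subset_iff.2 (mem_insert _ _)⟩
    rw [show cc (K \ {x}) x = ∅ from connectedComponentIn_eq_empty (by simp)]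
    exact empty_subset _
  by_cases hxb : x = b
  · subst hxb
    exact ⟨K, ⟨h1, h2, Subset.rfl, h3, hx⟩, fun M h5 h6 h7 h8 h9 => hK.2 ⟨h5, h6, h8, h9⟩ h7,
      (cc_sub _ _).trans sdiff_subset, fun h => absurd rfl h⟩
  have haK : a ∈ K \ {x} := ⟨h3, fun h => hxa h.symm⟩
  have hpre : ∀ w ∈ K \ {x}, IsPreconnected (insert x (cc (K \ {x}) w)) := fun w hw =>
    (cc_pre _ _).subset_closure (subset_insert _ _)
      (insert_subset (mem_closure_cc_diff h1 h2 hx hw) subset_closure)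
  have hbU : b ∉ cc (K \ {x}) a := by
    intro hb
    obtain ⟨M, h5, h6, h7, h8, h9⟩ := hX.exists_continuum h1 h2 isOpen_compl_singleton
      (cc_pre (K \ {x}) a) (cc_sub _ _) (cc_mem haK) hb
    exact (h7 (hK.2 ⟨h5, h6, h8, h9⟩ (h7.trans inter_subset_left) hx)).2 rfl
  have hBc : IsClosed (K \ cc (K \ {x}) a) := by
    refine isClosed_of_closure_subset fun w hw => ?_
    have hwK : w ∈ K := closure_minimal sdiff_subset h1 hw
    refine ⟨hwK, fun hwU => ?_⟩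
    obtain ⟨r, hr, hrO⟩ := nhds_basis_closedBall.mem_iff.1
      (isOpen_compl_singleton.mem_nhds (cc_sub _ _ hwU).2)
    have h5 := hX.lc0 h1 h2 hwK hr
    have h6 : cc (K ∩ closedBall w r) w ⊆ cc (K \ {x}) a :=
      cc_max (cc_pre _ _) ((cc_sub _ _).trans (inter_subset_inter_right _ hrO))
        (cc_mem ⟨hwK, mem_closedBall_self hr.le⟩) hwU
    obtain ⟨O, hO, hO'⟩ := mem_nhdsWithin_iff_exists_mem_nhds_inter.1 h5
    obtain ⟨y, hy1, hy2⟩ := mem_closure_iff_nhds.1 hw O hO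
    exact hy2.2 (h6 (hO' ⟨hy1, hy2.1⟩))
  have hxB : x ∈ K \ cc (K \ {x}) a := ⟨hx, fun h => (cc_sub _ _ h).2 rfl⟩
  have hBp : IsPreconnected (K \ cc (K \ {x}) a) := by
    refine isPreconnected_of_forall x fun y hy => ?_
    by_cases hyx : y = x
    · exact ⟨{x}, singleton_subset_iff.2 hxB, rfl, hyx, isPreconnected_singleton⟩
    · have hyK : y ∈ K \ {x} := ⟨hy.1, hyx⟩
      refine ⟨_, insert_subset hxB fun z hz => ⟨(cc_sub _ _ hz).1, fun hz' => hy.2 ?_⟩,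
        mem_insert _ _, mem_insert_of_mem _ (cc_mem hyK), hpre y hyK⟩
      exact cc_max (cc_pre _ _) (cc_sub _ _) hz hz' (cc_mem hyK)
  refine ⟨insert x (cc (K \ {x}) a), ⟨?_, hpre a haK, insert_subset hx ((cc_sub _ _).trans sdiff_subset),
    mem_insert_of_mem _ (cc_mem haK), mem_insert _ _⟩, fun M h5 h6 h7 h8 h9 => ?_,
    subset_insert _ _, fun _ => Subset.rfl⟩
  · refine isClosed_of_closure_subset fun w hw => ?_
    rw [insert_eq, closure_union, closure_singleton] at hw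
    rcases hw with hw | hw
    · exact Or.inl hw
    · by_cases hwx : w = x
      · exact Or.inl hwx
      · exact Or.inr (cc_closed ⟨closure_minimal ((cc_sub _ _).trans sdiff_subset) h1 hw, hwx⟩ hw)
  · have h10 : K ⊆ M ∪ (K \ cc (K \ {x}) a) :=
      hK.2 ⟨h5.union hBc, h6.union x h9 hxB hBp, Or.inl h8, Or.inr ⟨h4, hbU⟩⟩
        (union_subset h7 sdiff_subset)
    refine insert_subset h9 fun z hz => (h10 (cc_sub _ _ hz).1).resolve_right fun h => h.2 hz

theorem FS.exists_arc (hX : FS X) {K : Set X} (hK : IsClosed K) (hK' : IsPreconnected K) {a b : X}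
    (ha : a ∈ K) (hb : b ∈ K) (hab : a ≠ b) :
    ∃ γ : unitInterval → X, Continuous γ ∧ Function.Injective γ ∧ γ 0 = a ∧ γ 1 = b ∧
      range γ ⊆ K := by
  obtain ⟨L, hLK, hL⟩ := exists_irreducible hK hK' ha hb
  obtain ⟨h1, h2, h3, h4⟩ := hL.1
  choose! A hA hmin hU hU' using fun x (hx : x ∈ L) => hX.least hL hx
  have htot : ∀ x ∈ L, ∀ y ∈ L, A x ⊆ A y ∨ A y ⊆ A x := by
    intro x hx y hy
    by_cases h : y ∈ A x
    · exact Or.inr (hmin y hy _ (hA x hx).1 (hA x hx).2.1 (hA x hx).2.2.1 (hA x hx).2.2.2.1 h)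
    · refine Or.inl (Subset.trans ?_ (hU y hy))
      exact (hA x hx).2.1.subset_connectedComponentIn (hA x hx).2.2.2.1
        (fun z hz => ⟨(hA x hx).2.2.1 hz, fun hzy => h (hzy ▸ hz)⟩)
  have hinj0 : ∀ x ∈ L, ∀ y ∈ L, y ≠ b → x ≠ y → A x = A y → False := by
    intro x hx y hy hyb hxy h
    have h5 : x ∈ cc (L \ {y}) a := (hU' y hy hyb (h ▸ (hA x hx).2.2.2.2)).resolve_left hxy
    have haL : a ∈ L \ {y} := connectedComponentIn_nonempty_iff.1 ⟨x, h5⟩
    obtain ⟨M, h6, h7, h8, h9, h10⟩ := hX.exists_continuum h1 h2 isOpen_compl_singleton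
      (cc_pre (L \ {y}) a) (cc_sub _ _) (cc_mem haL) h5
    exact (h8 (hmin x hx M h6 h7 (h8.trans inter_subset_left) h9 h10 (h ▸ (hA y hy).2.2.2.2))).2 rfl
  have hinj : ∀ x ∈ L, ∀ y ∈ L, A x = A y → x = y := by
    intro x hx y hy h
    by_contra hxy
    by_cases hyb : y = b
    · exact hinj0 y hy x hx (fun h' => hxy (h'.trans hyb.symm)) (Ne.symm hxy) h.symm
    · exact hinj0 x hx y hy hyb hxy h
  have : Nonempty X := ⟨a⟩
  let d : ℕ → X := TopologicalSpace.denseSeq X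
  obtain ⟨C, hC⟩ := Metric.isBounded_iff.1 (isCompact_univ (X := X)).isBounded
  have hsum : ∀ x ∈ L, Summable fun n => (1 / 2 : ℝ) ^ n * infDist (d n) (A x) := by
    intro x hx
    refine Summable.of_nonneg_of_le (fun n => mul_nonneg (by positivity) infDist_nonneg)
      (fun n => ?_) (summable_geometric_two.mul_right C)
    exact mul_le_mul_of_nonneg_left ((infDist_le_dist_of_mem (hA x hx).2.2.2.2).trans
      (hC trivial trivial)) (by positivity)
  let f : X → ℝ := fun x => ∑' n, (1 / 2 : ℝ) ^ n * infDist (d n) (A x)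
  have hlt : ∀ x ∈ L, ∀ y ∈ L, A x ⊆ A y → x ≠ y → f y < f x := by
    intro x hx y hy hxy hne
    obtain ⟨z, hz, hz'⟩ : ∃ z, z ∈ A y ∧ z ∉ A x := by
      by_contra h
      push Not at h
      exact hne (hinj x hx y hy (Subset.antisymm hxy h))
    have hne' : (A x).Nonempty := ⟨x, (hA x hx).2.2.2.2⟩
    have hρ : 0 < infDist z (A x) := ((hA x hx).1.notMem_iff_infDist_pos hne').1 hz'
    obtain ⟨n, hn⟩ := (TopologicalSpace.denseRange_denseSeq X).exists_dist_lt z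
      (half_pos hρ)
    refine Summable.tsum_lt_tsum (i := n) (fun m => mul_le_mul_of_nonneg_left
      (infDist_le_infDist_of_subset hxy hne') (by positivity)) ?_ (hsum y hy) (hsum x hx)
    refine mul_lt_mul_of_pos_left ?_ (by positivity)
    have h5 : infDist (d n) (A y) ≤ dist (d n) z := infDist_le_dist_of_mem hz
    have h6 : infDist z (A x) ≤ infDist (d n) (A x) + dist z (d n) := infDist_le_infDist_add_dist
    rw [dist_comm] at h5
    change dist z (d n) < _ at hn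
    linarith
  have hfinj : InjOn f L := by
    intro x hx y hy h
    by_contra hne
    rcases htot x hx y hy with h5 | h5
    · exact (hlt x hx y hy h5 hne).ne' h
    · exact (hlt y hy x hx h5 (Ne.symm hne)).ne h
  have hle : ∀ x ∈ L, ∀ y ∈ L, ∀ r, 0 ≤ r → (∀ z ∈ A y, z ∈ A x ∨ dist z x ≤ r) →
      f x ≤ f y + 2 * r := by
    intro x hx y hy r hr h
    have h5 : ∀ n, infDist (d n) (A x) ≤ infDist (d n) (A y) + r := by
      intro n
      rw [← sub_le_iff_le_add, le_infDist ⟨y, (hA y hy).2.2.2.2⟩]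
      intro z hz
      rcases h z hz with h6 | h6
      · have := infDist_le_dist_of_mem (x := d n) h6
        linarith
      · have := infDist_le_dist_of_mem (x := d n) (hA x hx).2.2.2.2
        have := dist_triangle (d n) z x
        linarith
    have h6 : 2 * r = ∑' n : ℕ, (1 / 2 : ℝ) ^ n * r := by
      rw [tsum_mul_right, tsum_geometric_two]
    rw [h6, ← (hsum y hy).tsum_add (summable_geometric_two.mul_right r)]
    refine (hsum x hx).tsum_le_tsum (fun n => ?_)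
      ((hsum y hy).add (summable_geometric_two.mul_right r))
    rw [← mul_add]
    exact mul_le_mul_of_nonneg_left (h5 n) (by positivity)
  have hcont : ContinuousOn f L := by
    intro x hx
    rw [Metric.continuousWithinAt_iff']
    intro ε hε
    have hr : 0 < ε / 5 := by positivity
    have hN1 := isClosed_cc (h1.inter (isClosed_closedBall (x := x) (ε := ε / 5))) x
    have hN2 : cc (L ∩ closedBall x (ε / 5)) x ⊆ L := (cc_sub _ _).trans inter_subset_left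
    have hxN : x ∈ cc (L ∩ closedBall x (ε / 5)) x := cc_mem ⟨hx, mem_closedBall_self hr.le⟩
    filter_upwards [hX.lc0 h1 h2 hx hr] with y hy
    have hyL := hN2 hy
    have h5 := hmin y hyL _ ((hA x hx).1.union hN1) ((hA x hx).2.1.union x (hA x hx).2.2.2.2 hxN
      (cc_pre _ _)) (union_subset (hA x hx).2.2.1 hN2) (Or.inl (hA x hx).2.2.2.1) (Or.inr hy)
    have h6 := hmin x hx _ ((hA y hyL).1.union hN1) ((hA y hyL).2.1.union y (hA y hyL).2.2.2.2 hy
      (cc_pre _ _)) (union_subset (hA y hyL).2.2.1 hN2) (Or.inl (hA y hyL).2.2.2.1) (Or.inr hxN)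
    have h7 := hle x hx y hyL (2 * (ε / 5)) (by positivity) fun z hz => (h5 hz).imp_right fun h => by
      have := (cc_sub _ _ h).2
      rw [mem_closedBall] at this
      linarith
    have h8 := hle y hyL x hx (2 * (ε / 5)) (by positivity) fun z hz => (h6 hz).imp_right fun h => by
      have h9 := (cc_sub _ _ h).2
      have h10 := (cc_sub _ _ hy).2
      rw [mem_closedBall] at h9 h10
      have := dist_triangle_right z y x
      linarith
    rw [Real.dist_eq, abs_lt]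
    constructor <;> linarith
  have hex : ∀ t : unitInterval, ∃ x : L, f x = f a + t * (f b - f a) := by
    intro t
    have h5 := (h2.image f hcont).ordConnected.uIcc_subset (mem_image_of_mem f h3)
      (mem_image_of_mem f h4)
    have h6 : f a + t * (f b - f a) ∈ uIcc (f a) (f b) := by
      have h7 := t.2.1
      have h8 := t.2.2
      rcases le_total (f a) (f b) with h | h
      · rw [uIcc_of_le h]; constructor <;> nlinarith
      · rw [uIcc_of_ge h]; constructor <;> nlinarith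
    obtain ⟨x, hx, hx'⟩ := h5 h6
    exact ⟨⟨x, hx⟩, hx'⟩
  choose γ hγ using hex
  have : CompactSpace L := isCompact_iff_compactSpace.1 h1.isCompact
  have hemb : IsClosedEmbedding (L.domRestrict f) :=
    (continuousOn_iff_continuous_domRestrict.1 hcont).isClosedEmbedding (injOn_iff_injective.1 hfinj)
  have hγc : Continuous γ := by
    rw [hemb.isInducing.continuous_iff]
    have : L.domRestrict f ∘ γ = fun t : unitInterval => f a + t * (f b - f a) := funext hγ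
    rw [this]
    fun_prop
  have hfab : f b - f a ≠ 0 := fun h => hab (hfinj h3 h4 (by linarith))
  refine ⟨fun t => γ t, continuous_subtype_val.comp hγc, fun s t hst => ?_, ?_, ?_, ?_⟩
  · have h5 := hγ s
    rw [show (γ s : X) = γ t from hst, hγ t] at h5
    exact Subtype.ext (mul_right_cancel₀ hfab (by linarith))
  · exact hfinj (γ 0).2 h3 (by rw [hγ]; simp)
  · exact hfinj (γ 1).2 h4 (by rw [hγ]; simp)
  · rintro _ ⟨t, rfl⟩
    exact hLK (γ t).2

theorem FS.first_hit (hX : FS X) {K E : Set X} (hK : IsClosed K) (hK' : IsPreconnected K)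
    (hE : IsClosed E) {b : X} (hb : b ∈ K) (h : (K ∩ E).Nonempty) :
    ∃ w ∈ E, ∃ L, IsClosed L ∧ IsPreconnected L ∧ L ⊆ K ∧ b ∈ L ∧ w ∈ L ∧ L ∩ E ⊆ {w} ∧
      IsPreconnected (L \ E) := by
  by_cases hbE : b ∈ E
  · refine ⟨b, hbE, {b}, isClosed_singleton, isPreconnected_singleton, singleton_subset_iff.2 hb,
      rfl, rfl, inter_subset_left, ?_⟩
    exact (subsingleton_singleton.anti sdiff_subset).isPreconnected
  obtain ⟨a, ha, haE⟩ := h
  obtain ⟨γ, h1, -, h2, h3, h4⟩ := hX.exists_arc hK hK' hb ha (fun h => hbE (h ▸ haE))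
  have h5 : IsClosed (γ ⁻¹' E) := hE.preimage h1
  have h6 : (γ ⁻¹' E).Nonempty := ⟨1, by rw [mem_preimage, h3]; exact haE⟩
  have h7 := h5.csInf_mem h6 (OrderBot.bddBelow _)
  refine ⟨_, h7, γ '' Icc 0 (sInf (γ ⁻¹' E)), (isCompact_Icc.image h1).isClosed,
    isPreconnected_Icc.image _ h1.continuousOn, (image_subset_range _ _).trans h4,
    ⟨0, ⟨le_rfl, bot_le⟩, h2⟩, ⟨_, ⟨bot_le, le_rfl⟩, rfl⟩, ?_, ?_⟩
  · rintro _ ⟨⟨t, ht, rfl⟩, ht'⟩
    have : t = sInf (γ ⁻¹' E) := le_antisymm ht.2 (csInf_le (OrderBot.bddBelow _) ht')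
    rw [this]; rfl
  · have h8 : γ '' Icc 0 (sInf (γ ⁻¹' E)) \ E = γ '' Ico 0 (sInf (γ ⁻¹' E)) := by
      apply Subset.antisymm
      · rintro _ ⟨⟨t, ht, rfl⟩, ht'⟩
        exact ⟨t, ⟨ht.1, lt_of_le_of_ne ht.2 (fun h => ht' (by rw [h]; exact h7))⟩, rfl⟩
      · rintro _ ⟨t, ht, rfl⟩
        exact ⟨⟨t, ⟨ht.1, ht.2.le⟩, rfl⟩, fun h =>
          not_le.2 ht.2 (csInf_le (OrderBot.bddBelow _) h)⟩
    rw [h8]
    exact isPreconnected_Ico.image _ h1.continuousOn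

end Pool.Agent.MP_2fe25f_gt

end

-- part MP_2fe25f_gt.Rat
section

/-!
Finitely Suslinian continua, part 4: they are rational curves.
-/

set_option autoImplicit false
set_option linter.unusedSectionVars false

open Set Metric Topology Filter

namespace Pool.Agent.MP_2fe25f_gt

variable {X : Type} [MetricSpace X] [CompactSpace X] [ConnectedSpace X]

theorem FS.avoid_countable (hX : FS X) {O D S : Set X} (hO : IsOpen O) (hD : D.Countable)
    (hS : IsPreconnected S) (hSO : S ⊆ O \ D) {p q : X} (hp : p ∈ S) (hq : q ∈ S) :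
    ∃ M, IsClosed M ∧ IsPreconnected M ∧ M ⊆ closure S ∧ M ⊆ O \ D ∧ p ∈ M ∧ q ∈ M := by
  obtain ⟨u, hu⟩ := (hD.insert p).exists_eq_range (insert_nonempty _ _)
  have step : ∀ (n : ℕ) (T : {T : Set X // T ⊆ S ∧ IsPreconnected T ∧ p ∈ T ∧ q ∈ T}),
      ∃ T' : {T : Set X // T ⊆ S ∧ IsPreconnected T ∧ p ∈ T ∧ q ∈ T},
        T'.1 ⊆ T.1 ∧ closure T'.1 ⊆ O \ ({u n} ∩ D) := by
    intro n T
    obtain ⟨M, h1, h2, h3, h4, h5⟩ := hX.refine (O := O \ ({u n} ∩ D))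
      (hO.sdiff ((finite_singleton _).inter_of_left _).isClosed) T.2.2.1
      (fun z hz => ⟨(hSO (T.2.1 hz)).1, fun h => (hSO (T.2.1 hz)).2 h.2⟩) T.2.2.2.1 T.2.2.2.2
    exact ⟨⟨M, h1.trans T.2.1, h2, h4, h5⟩, h1, h3⟩
  choose f hf using step
  let s : ℕ → {T : Set X // T ⊆ S ∧ IsPreconnected T ∧ p ∈ T ∧ q ∈ T} := fun n =>
    Nat.rec ⟨S, Subset.rfl, hS, hp, hq⟩ (fun n T => f n T) n
  have hanti : Antitone fun n => closure (s n).1 :=
    antitone_nat_of_succ_le fun n => closure_mono (hf n (s n)).1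
  refine ⟨⋂ n, closure (s n).1, isClosed_iInter fun _ => isClosed_closure,
    isPreconnected_iInter_directed _ hanti.directed_ge (fun _ => isClosed_closure)
      (fun n => (s n).2.2.1.closure), iInter_subset _ 0, fun z hz => ⟨?_, fun hzD => ?_⟩,
    mem_iInter.2 fun n => subset_closure (s n).2.2.2.1,
    mem_iInter.2 fun n => subset_closure (s n).2.2.2.2⟩
  · exact ((hf 0 (s 0)).2 (mem_iInter.1 hz 1)).1
  · have : z ∈ range u := hu ▸ mem_insert_of_mem _ hzD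
    obtain ⟨n, rfl⟩ := this
    exact ((hf n (s n)).2 (mem_iInter.1 hz (n + 1))).2 ⟨rfl, hzD⟩

theorem exists_countable_family : ∃ 𝓑 : Set (Set X), 𝓑.Countable ∧ (∀ G ∈ 𝓑, IsOpen G) ∧
    ∀ K O : Set X, IsCompact K → IsOpen O → K ⊆ O → ∃ G ∈ 𝓑, K ⊆ G ∧ G ⊆ O := by
  refine ⟨sUnion '' {t | t.Finite ∧ t ⊆ TopologicalSpace.countableBasis X},
    (countable_ofPred_finite_subset (TopologicalSpace.countable_countableBasis X)).image _, ?_, ?_⟩
  · rintro _ ⟨t, ht, rfl⟩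
    exact isOpen_sUnion fun s hs => TopologicalSpace.isOpen_of_mem_countableBasis (ht.2 hs)
  · intro K O hK hO hKO
    obtain ⟨t, h1, h2, h3⟩ := hK.elim_finite_subcover_image
      (b := {u | u ∈ TopologicalSpace.countableBasis X ∧ u ⊆ O}) (c := id)
      (fun u hu => TopologicalSpace.isOpen_of_mem_countableBasis hu.1) (by
        intro x hx
        obtain ⟨v, hv, hxv, hvO⟩ :=
          (TopologicalSpace.isBasis_countableBasis X).exists_subset_of_mem_open (hKO hx) hO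
        exact mem_iUnion₂.2 ⟨v, ⟨hv, hvO⟩, hxv⟩)
    refine ⟨⋃₀ t, ⟨t, ⟨h2, fun u hu => (h1 hu).1⟩, rfl⟩, ?_, sUnion_subset fun u hu => (h1 hu).2⟩
    rwa [sUnion_eq_biUnion]

theorem exists_stable_aux (Θ : Set X → Set (X × X)) (hc : ∀ D, IsClosed (Θ D))
    (hanti : ∀ D D', D ⊆ D' → Θ D' ⊆ Θ D) :
    ∃ D1 : Set X, D1.Countable ∧ ∀ D : Set X, D.Countable → Θ D1 ⊆ Θ D := by
  obtain ⟨u, hu⟩ := exists_seq_cover (fun D : {D : Set X // D.Countable} => (Θ D.1)ᶜ)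
    (fun D => (hc D.1).isOpen_compl) ⟨∅, countable_empty⟩
  refine ⟨⋃ n, (u n).1, countable_iUnion fun n => (u n).2, fun D hD z hz => ?_⟩
  by_contra h
  obtain ⟨n, hn⟩ := mem_iUnion.1 (hu (mem_iUnion.2 ⟨⟨D, hD⟩, h⟩))
  exact hn (hanti _ _ (subset_iUnion (fun n => (u n).1) n) hz)

theorem FS.exists_stable (hX : FS X) : ∃ D : Set X, D.Countable ∧ ∀ O : Set X, IsOpen O →
    ∀ x y w : X, y ∈ cc (O \ D) x → x ≠ w → y ≠ w → y ∈ cc (O \ insert w D) x := by
  obtain ⟨𝓑, h𝓑, hop, hK⟩ := exists_countable_family (X := X)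
  let Θ : Set X × Set X × Set X → Set X → Set (X × X) := fun t D =>
    ⋃ S ∈ crC (t.1 \ D) (closure t.2.1) (closure t.2.2), closure S ×ˢ closure S
  have h1 : ∀ t : Set X × Set X × Set X, Disjoint (closure t.2.1) (closure t.2.2) →
      ∃ D1 : Set X, D1.Countable ∧ ∀ D : Set X, D.Countable → Θ t D1 ⊆ Θ t D := by
    intro t ht
    refine exists_stable_aux (Θ t) (fun D => ?_) (fun D D' hD z hz => ?_)
    · exact (hX.crC_finite _ isClosed_closure isClosed_closure ht).isClosed_biUnion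
        fun S _ => isClosed_closure.prod isClosed_closure
    · obtain ⟨S, ⟨x, hx, rfl, hcr⟩, hz⟩ := mem_iUnion₂.1 hz
      have h2 : t.1 \ D' ⊆ t.1 \ D := sdiff_subset_sdiff_right hD
      have h3 : cc (t.1 \ D') x ⊆ cc (t.1 \ D) x := connectedComponentIn_mono x h2
      exact mem_iUnion₂.2 ⟨_, ⟨x, h2 hx, rfl, hcr.mono h3⟩,
        prod_mono (closure_mono h3) (closure_mono h3) hz⟩
  choose! D1 hD1 hD1' using h1
  let T : Set (Set X × Set X × Set X) :=
    {t | t ∈ 𝓑 ×ˢ 𝓑 ×ˢ 𝓑 ∧ Disjoint (closure t.2.1) (closure t.2.2)}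
  have hT : T.Countable := (h𝓑.prod (h𝓑.prod h𝓑)).mono fun t ht => ht.1
  have hD : (⋃ t ∈ T, D1 t).Countable := hT.biUnion fun t ht => hD1 t ht.2
  refine ⟨⋃ t ∈ T, D1 t, hD, fun O hO x y w hy hxw hyw => ?_⟩
  have hx : x ∈ O \ ⋃ t ∈ T, D1 t := connectedComponentIn_nonempty_iff.1 ⟨y, hy⟩
  have hx' : x ∈ O \ insert w (⋃ t ∈ T, D1 t) := ⟨hx.1, fun h => h.elim hxw hx.2⟩
  by_cases hxy : x = y
  · rw [← hxy]; exact cc_mem hx'
  obtain ⟨M, h2, h3, -, h4, h5, h6⟩ := hX.avoid_countable hO hD (cc_pre _ x) (cc_sub _ _)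
    (cc_mem hx) hy
  obtain ⟨G, hG, hMG, hGO⟩ := hK M O h2.isCompact hO (h4.trans sdiff_subset)
  have hd : 0 < dist x y / 3 := by have := dist_pos.2 hxy; positivity
  obtain ⟨U, hU, hxU, hU'⟩ := hK {x} (ball x (dist x y / 3)) isCompact_singleton isOpen_ball
    (singleton_subset_iff.2 (mem_ball_self hd))
  obtain ⟨V, hV, hyV, hV'⟩ := hK {y} (ball y (dist x y / 3)) isCompact_singleton isOpen_ball
    (singleton_subset_iff.2 (mem_ball_self hd))
  have hUV : Disjoint (closure U) (closure V) :=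
    (closedBall_disjoint_closedBall (show dist x y / 3 + dist x y / 3 < dist x y by linarith)).mono
      (closure_minimal (hU'.trans ball_subset_closedBall) isClosed_closedBall)
      (closure_minimal (hV'.trans ball_subset_closedBall) isClosed_closedBall)
  have ht : (G, U, V) ∈ T := ⟨⟨hG, hU, hV⟩, hUV⟩
  have h7 : M ⊆ G \ D1 (G, U, V) := fun z hz =>
    ⟨hMG hz, fun h => (h4 hz).2 (mem_iUnion₂.2 ⟨_, ht, h⟩)⟩
  have h8 : M ⊆ cc (G \ D1 (G, U, V)) x := h3.subset_connectedComponentIn h5 h7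
  have h9 : (x, y) ∈ Θ (G, U, V) (D1 (G, U, V)) :=
    mem_iUnion₂.2 ⟨_, ⟨x, h7 h5, rfl, ⟨x, h8 h5, subset_closure (hxU rfl)⟩,
      ⟨y, h8 h6, subset_closure (hyV rfl)⟩⟩, subset_closure (h8 h5), subset_closure (h8 h6)⟩
  obtain ⟨S, ⟨z, hz, rfl, -⟩, h10, h11⟩ := mem_iUnion₂.1 (hD1' _ hUV _ (hD.insert w) h9)
  have h12 : x ∈ cc (G \ insert w (⋃ t ∈ T, D1 t)) z := cc_closed ⟨hMG h5, hx'.2⟩ h10
  have h13 : y ∈ cc (G \ insert w (⋃ t ∈ T, D1 t)) z :=
    cc_closed ⟨hMG h6, fun h => h.elim hyw (h4 h6).2⟩ h11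
  exact (cc_pre _ z).subset_connectedComponentIn h12
    ((cc_sub _ _).trans (sdiff_subset_sdiff_left hGO)) h13

theorem FS.two_paths (hX : FS X) {D O A B : Set X} (hD : D.Countable)
    (hst : ∀ x y w : X, y ∈ cc (O \ D) x → x ≠ w → y ≠ w → y ∈ cc (O \ insert w D) x)
    (hO : IsOpen O) (hA : IsClosed A) {g : X}
    (h2A : ∀ y, ∃ a ∈ cc (O \ D) g ∩ A, a ≠ y) (h2B : ∀ y, ∃ b ∈ cc (O \ D) g ∩ B, b ≠ y) :
    ∃ K1 K2, IsClosed K1 ∧ IsPreconnected K1 ∧ IsPreconnected K2 ∧ K1 ⊆ cc (O \ D) g ∧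
      K2 ⊆ cc (O \ D) g ∧ Disjoint K1 K2 ∧ Cr A B K1 ∧ Cr A B K2 := by
  set Γ := cc (O \ D) g with hΓ
  have hΓp : IsPreconnected Γ := cc_pre _ _
  have hΓs : Γ ⊆ O \ D := cc_sub _ _
  have hJ : ∀ O' S : Set X, IsOpen O' → O' ⊆ O → IsPreconnected S → S ⊆ O' \ D → ∀ p ∈ S, ∀ q ∈ S,
      p ∈ Γ → ∃ M, IsClosed M ∧ IsPreconnected M ∧ M ⊆ closure S ∧ M ⊆ O' ∧ M ⊆ Γ ∧ p ∈ M ∧
        q ∈ M := by
    intro O' S h1 h2 h3 h4 p hp q hq hpΓ
    obtain ⟨M, h5, h6, h7, h8, h9, h10⟩ := hX.avoid_countable h1 hD h3 h4 hp hq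
    exact ⟨M, h5, h6, h7, h8.trans sdiff_subset,
      cc_max h6 (h8.trans (sdiff_subset_sdiff_left h2)) h9 hpΓ, h9, h10⟩
  let S : X → Prop := fun x => ∃ K1 K2, IsClosed K1 ∧ IsPreconnected K1 ∧ IsClosed K2 ∧
    IsPreconnected K2 ∧ K1 ⊆ Γ ∧ K2 ⊆ Γ ∧ Disjoint K1 K2 ∧ Cr A B K1 ∧ (K2 ∩ A).Nonempty ∧ x ∈ K2
  have hopen : ∀ y ∈ Γ, S y → ∀ᶠ x in 𝓝[Γ] y, S x := by
    rintro y hy ⟨K1, K2, h1, h2, h3, h4, h5, h6, h7, h8, h9, h10⟩
    obtain ⟨r, hr, hrO⟩ := nhds_basis_closedBall.mem_iff.1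
      ((hO.sdiff h1).mem_nhds ⟨(hΓs hy).1, Set.disjoint_right.1 h7 h10⟩)
    filter_upwards [hX.lc hΓp hy hr] with x hx
    obtain ⟨M, m1, m2, -, m4, m5, m6, m7⟩ := hJ (O \ K1) (cc (Γ ∩ closedBall y r) y) (hO.sdiff h1)
      sdiff_subset (cc_pre _ y)
      (fun z hz => ⟨hrO (cc_sub _ _ hz).2, (hΓs (cc_sub _ _ hz).1).2⟩) y
      (cc_mem ⟨hy, mem_closedBall_self hr.le⟩) x hx hy
    exact ⟨K1, K2 ∪ M, h1, h2, h3.union m1, h4.union y h10 m6 m2, h5, union_subset h6 m5,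
      disjoint_union_right.2 ⟨h7, Set.disjoint_right.2 fun z hz => (m4 hz).2⟩, h8,
      h9.mono (inter_subset_inter_left _ subset_union_left), Or.inr m7⟩
  have hclosed : ∀ y ∈ Γ, ∀ᶠ x in 𝓝[Γ] y, S x → S y := by
    intro y hy
    obtain ⟨a', ha', ha'y⟩ := h2A y
    obtain ⟨b', hb', hb'y⟩ := h2B y
    have hab : a' ∈ cc (O \ insert y D) b' := hst b' a' y (by
      rw [← show cc (O \ D) g = cc (O \ D) b' from connectedComponentIn_eq hb'.1]; exact ha'.1)
      hb'y ha'y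
    obtain ⟨L, l1, l2, -, l4, l5, l6⟩ := hX.avoid_countable hO (hD.insert y) (cc_pre _ b')
      (cc_sub _ _) (cc_mem (connectedComponentIn_nonempty_iff.1 ⟨a', hab⟩)) hab
    have hLΓ : L ⊆ Γ := cc_max l2 (l4.trans (sdiff_subset_sdiff_right (subset_insert _ _))) l5 hb'.1
    have hyL : y ∉ L := fun h => (l4 h).2 (mem_insert _ _)
    by_cases hyA : y ∈ A
    · exact Eventually.of_forall fun x _ => ⟨L, {y}, l1, l2, isClosed_singleton,
        isPreconnected_singleton, hLΓ, singleton_subset_iff.2 hy, disjoint_singleton_right.2 hyL,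
        ⟨⟨a', l6, ha'.2⟩, ⟨b', l5, hb'.2⟩⟩, ⟨y, rfl, hyA⟩, rfl⟩
    obtain ⟨r, hr, hrO⟩ := nhds_basis_closedBall.mem_iff.1
      ((l1.union hA).isOpen_compl.mem_nhds (show y ∈ (L ∪ A)ᶜ from fun h => h.elim hyL hyA))
    set N := cc (Γ ∩ closedBall y r) y with hN
    have hyN : y ∈ N := cc_mem ⟨hy, mem_closedBall_self hr.le⟩
    have hNb : closure N ⊆ (L ∪ A)ᶜ :=
      (closure_minimal ((cc_sub _ _).trans inter_subset_right) isClosed_closedBall).trans hrO
    have hM : ∀ u ∈ closure N, u ∈ Γ →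
        ∃ M, IsClosed M ∧ IsPreconnected M ∧ M ⊆ closure N ∧ M ⊆ Γ ∧ u ∈ M ∧ y ∈ M := by
      intro u hu huΓ
      obtain ⟨M, m1, m2, m3, -, m5, m6, m7⟩ := hJ O (insert u N) hO Subset.rfl
        ((cc_pre _ _).subset_closure (subset_insert _ _) (insert_subset hu subset_closure))
        (insert_subset (hΓs huΓ) (((cc_sub _ _).trans inter_subset_left).trans hΓs)) u
        (mem_insert _ _) y (mem_insert_of_mem _ hyN) huΓ
      exact ⟨M, m1, m2, m3.trans (closure_minimal (insert_subset hu subset_closure)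
        isClosed_closure), m5, m6, m7⟩
    filter_upwards [hX.lc hΓp hy hr] with x hx
    rintro ⟨K1, K2, h1, h2, h3, h4, h5, h6, h7, h8, ⟨a2, h9, h9'⟩, h10⟩
    by_cases hK1 : (K1 ∩ closure N).Nonempty
    swap
    · obtain ⟨M, m1, m2, m3, m4, m5, m6⟩ := hM x (subset_closure hx) (h6 h10)
      exact ⟨K1, K2 ∪ M, h1, h2, h3.union m1, h4.union x h10 m5 m2, h5, union_subset h6 m4,
        disjoint_union_right.2 ⟨h7, Set.disjoint_left.2 fun z hz hz' => hK1 ⟨z, hz, m3 hz'⟩⟩, h8,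
        ⟨a2, Or.inl h9, h9'⟩, Or.inr m6⟩
    obtain ⟨a1, h11, h11'⟩ := h8.1
    obtain ⟨u1, hu1, L1, p1, p2, p3, p4, p5, -, p7⟩ := hX.first_hit h1 h2 isClosed_closure h11 hK1
    obtain ⟨u2, hu2, L2, q1, q2, q3, q4, q5, -, q7⟩ := hX.first_hit h3 h4 isClosed_closure h9
      ⟨x, h10, subset_closure hx⟩
    obtain ⟨w, hw, L', r1, r2, r3, r4, r5, r6, -⟩ := hX.first_hit l1 l2 ((hA.union p1).union q1) l5
      ⟨a', l6, Or.inl (Or.inl ha'.2)⟩
    have hwN : w ∉ closure N := fun h => hNb h (Or.inl (r3 r5))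
    have key : ∀ (La Lb : Set X) (a b u : X), IsClosed La → IsPreconnected La → IsClosed Lb →
        IsPreconnected Lb → La ⊆ Γ → Lb ⊆ Γ → Disjoint La Lb → a ∈ La → a ∈ A → b ∈ Lb → b ∈ A →
        u ∈ Lb → u ∈ closure N → IsPreconnected (La \ closure N) → L' ∩ Lb ⊆ {w} → w ∉ Lb →
        (w ∈ A ∨ w ∈ La) → S y := by
      intro La Lb a b u s1 s2 s3 s4 s5 s6 s7 s8 s9 s10 s11 s12 s13 s14 s15 s16 s17
      obtain ⟨M, m1, m2, m3, m4, m5, m6⟩ := hM u s13 (s6 s12)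
      obtain ⟨T, t1, t2, t3, t4, t5, t6, t7⟩ : ∃ T, IsClosed T ∧ IsPreconnected T ∧ T ⊆ Γ ∧
          (T ∩ A).Nonempty ∧ w ∈ T ∧ Disjoint T Lb ∧ Disjoint T (closure N) := by
        rcases s17 with h | h
        · exact ⟨{w}, isClosed_singleton, isPreconnected_singleton,
            singleton_subset_iff.2 (hLΓ (r3 r5)), ⟨w, rfl, h⟩, rfl, disjoint_singleton_left.2 s16,
            disjoint_singleton_left.2 hwN⟩
        · obtain ⟨T, t1, t2, t3, t4, t5⟩ := hX.exists_continuum s1 s2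
            isClosed_closure.isOpen_compl s14 Subset.rfl
            (show a ∈ La \ closure N from ⟨s8, fun h' => hNb h' (Or.inr s9)⟩) ⟨h, hwN⟩
          exact ⟨T, t1, t2, (t3.trans inter_subset_left).trans s5, ⟨a, t4, s9⟩, t5,
            s7.mono_left (t3.trans inter_subset_left),
            Set.disjoint_left.2 fun z hz => (t3 hz).2⟩
      refine ⟨L' ∪ T, Lb ∪ M, r1.union t1, r2.union w r5 t5 t2, s3.union m1,
        s4.union u s12 m5 m2, union_subset (r3.trans hLΓ) t3, union_subset s6 m4, ?_,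
        ⟨t4.mono (inter_subset_inter_left _ subset_union_right), ⟨b', Or.inl r4, hb'.2⟩⟩,
        ⟨b, Or.inl s10, s11⟩, Or.inr m6⟩
      rw [Set.disjoint_left]
      rintro z (hz | hz) (hz' | hz')
      · exact s16 (s15 ⟨hz, hz'⟩ ▸ hz')
      · exact hNb (m3 hz') (Or.inl (r3 hz))
      · exact Set.disjoint_left.1 t6 hz hz'
      · exact Set.disjoint_left.1 t7 hz (m3 hz')
    have hd12 : Disjoint L1 L2 := h7.mono p3 q3
    by_cases hw2 : w ∈ L2
    · exact key L2 L1 a2 a1 u1 q1 q2 p1 p2 (q3.trans h6) (p3.trans h5) hd12.symm q4 h9' p4 h11' p5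
        hu1 q7 (fun z hz => r6 ⟨hz.1, Or.inl (Or.inr hz.2)⟩) (Set.disjoint_right.1 hd12 hw2)
        (Or.inr hw2)
    · exact key L1 L2 a1 a2 u2 p1 p2 q1 q2 (p3.trans h5) (q3.trans h6) hd12 p4 h11' q4 h9' q5
        hu2 p7 (fun z hz => r6 ⟨hz.1, Or.inr hz.2⟩) hw2 (hw.resolve_right hw2)
  obtain ⟨a0, ha0, -⟩ := h2A g
  obtain ⟨b0, hb0, -⟩ := h2B g
  obtain ⟨K, k1, k2, -, -, k5, k6, k7⟩ := hJ O Γ hO Subset.rfl hΓp hΓs b0 hb0.1 a0 ha0.1 hb0.1
  obtain ⟨w, hw, L, l1, l2, l3, l4, l5, l6, -⟩ := hX.first_hit k1 k2 hA k6 ⟨a0, k7, ha0.2⟩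
  obtain ⟨a, ha, haw⟩ := h2A w
  have hSa : S a := ⟨L, {a}, l1, l2, isClosed_singleton, isPreconnected_singleton, l3.trans k5,
    singleton_subset_iff.2 ha.1, disjoint_singleton_right.2 fun h => haw (l6 ⟨h, ha.2⟩),
    ⟨⟨w, l5, hw⟩, ⟨b0, l4, hb0.2⟩⟩, ⟨a, rfl, ha.2⟩, rfl⟩
  have hSb : S b0 := by
    refine hΓp.induction₂' (fun x y => S x → S y) (fun y hy => ?_)
      (fun x y z _ _ _ h1 h2 h => h2 (h1 h)) ha.1 hb0.1 hSa
    by_cases h : S y
    · filter_upwards [hopen y hy h] with x hx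
      exact ⟨fun _ => hx, fun _ => h⟩
    · filter_upwards [hclosed y hy] with x hx
      exact ⟨fun h' => absurd h' h, hx⟩
  obtain ⟨K1, K2, h1, h2, h3, h4, h5, h6, h7, h8, h9, h10⟩ := hSb
  exact ⟨K1, K2, h1, h2, h4, h5, h6, h7, h8, h9, ⟨b0, h10, hb0.2⟩⟩

theorem exists_ne_of_preconnected {S V : Set X} (hS : IsPreconnected S) (hV : IsOpen V) {x z : X}
    (hx : x ∈ S ∩ V) (hz : z ∈ S) (hxz : z ≠ x) (y : X) : ∃ a ∈ S ∩ V, a ≠ y := by
  by_cases hxy : x = y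
  · subst hxy
    obtain ⟨a, ha, ha'⟩ := hS V {x}ᶜ hV isOpen_compl_singleton
      (fun w _ => by
        by_cases h : w = x
        · exact Or.inl (h ▸ hx.2)
        · exact Or.inr h) ⟨x, hx⟩ ⟨z, hz, hxz⟩
    exact ⟨a, ⟨ha, ha'.1⟩, ha'.2⟩
  · exact ⟨x, hx, hxy⟩

theorem FS.rational (hX : FS X) :
    ∃ D : Set X, D.Countable ∧ ∀ S : Set X, IsPreconnected S → S ⊆ Dᶜ → S.Subsingleton := by
  obtain ⟨D, hD, hst⟩ := hX.exists_stable
  refine ⟨D, hD, fun S hS hSD a ha b hb => ?_⟩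
  by_contra hab
  have hδ : 0 < dist a b / 3 := by have := dist_pos.2 hab; positivity
  let ρ : ℕ → ℝ := fun n => dist a b / 3 * (1 - 1 / ((n : ℝ) + 2))
  have hρ1 : ∀ n, ρ n < ρ (n + 1) := by
    intro n
    refine mul_lt_mul_of_pos_left ?_ hδ
    have : (1 : ℝ) / ((n + 1 : ℕ) + 2) < 1 / (n + 2) :=
      one_div_lt_one_div_of_lt (by positivity) (by push_cast; linarith)
    linarith
  have hρ2 : ∀ n, ρ n ≤ dist a b / 3 := by
    intro n
    have : (0 : ℝ) ≤ 1 / ((n : ℝ) + 2) := by positivity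
    exact mul_le_of_le_one_right hδ.le (by linarith)
  have hρ0 : 0 < ρ 0 := mul_pos hδ (by norm_num)
  have hdis : Disjoint (closedBall a (dist a b / 3)) (closedBall b (dist a b / 3)) :=
    closedBall_disjoint_closedBall (by linarith)
  let P : ℕ → Set X × X → Prop := fun n t =>
    IsOpen t.1 ∧ Cr (ball a (ρ n)) (ball b (ρ n)) (cc (t.1 \ D) t.2)
  have step : ∀ n (t : {t // P n t}), ∃ (t' : {t // P (n + 1) t}) (K : Set X), IsClosed K ∧
      IsPreconnected K ∧ Cr (closedBall a (dist a b / 3)) (closedBall b (dist a b / 3)) K ∧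
      K ⊆ t.1.1 ∧ t'.1.1 = t.1.1 \ K := by
    rintro n ⟨⟨O, g⟩, hO, ⟨x, hx⟩, ⟨z, hz⟩⟩
    have hxz : x ≠ z := by
      rintro rfl
      exact Set.disjoint_left.1 hdis (closedBall_subset_closedBall (hρ2 n)
        (ball_subset_closedBall hx.2)) (closedBall_subset_closedBall (hρ2 n)
        (ball_subset_closedBall hz.2))
    obtain ⟨K1, K2, h1, h2, h3, h4, h5, h6, h7, h8⟩ := hX.two_paths (A := closedBall a (ρ n))
      (B := closedBall b (ρ n)) (g := g) hD (hst O hO) hO isClosed_closedBall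
      (fun y => (exists_ne_of_preconnected (cc_pre _ _) isOpen_ball hx hz.1 hxz.symm y).imp
        fun a ha => ⟨⟨ha.1.1, ball_subset_closedBall ha.1.2⟩, ha.2⟩)
      (fun y => (exists_ne_of_preconnected (cc_pre _ _) isOpen_ball hz hx.1 hxz y).imp
        fun a ha => ⟨⟨ha.1.1, ball_subset_closedBall ha.1.2⟩, ha.2⟩)
    obtain ⟨g', hg', -⟩ := h8.1
    refine ⟨⟨(O \ K1, g'), hO.sdiff h1, ?_⟩, K1, h1, h2,
      h7.mono' (closedBall_subset_closedBall (hρ2 n)) (closedBall_subset_closedBall (hρ2 n)),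
      (h4.trans (cc_sub _ _)).trans sdiff_subset, rfl⟩
    refine (h8.mono' (closedBall_subset_ball (hρ1 n)) (closedBall_subset_ball (hρ1 n))).mono ?_
    exact h3.subset_connectedComponentIn hg' fun w hw =>
      ⟨⟨(cc_sub _ _ (h5 hw)).1, Set.disjoint_right.1 h6 hw⟩, (cc_sub _ _ (h5 hw)).2⟩
  choose f K hK using step
  have h0 : P 0 (univ, a) := by
    have h1 : S ⊆ cc (univ \ D) a := hS.subset_connectedComponentIn ha fun z hz => ⟨trivial, hSD hz⟩
    exact ⟨isOpen_univ, ⟨a, h1 ha, mem_ball_self hρ0⟩, ⟨b, h1 hb, mem_ball_self hρ0⟩⟩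
  let s : ∀ n, {t // P n t} := fun n => Nat.rec ⟨(univ, a), h0⟩ (fun n t => f n t) n
  have hanti : Antitone fun n => (s n).1.1 := antitone_nat_of_succ_le fun n => by
    show (f n (s n)).1.1 ⊆ _
    rw [(hK n (s n)).2.2.2.2]; exact sdiff_subset
  refine hX.ns isClosed_closedBall isClosed_closedBall hdis (fun n => K n (s n))
    (fun n => ⟨(hK n (s n)).2.1, (hK n (s n)).2.2.1⟩) (fun j k hjk => ?_)
  rw [(hK j (s j)).1.closure_eq, Set.disjoint_right]
  intro z hz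
  have h1 : z ∈ (f j (s j)).1.1 := hanti (show j + 1 ≤ k from hjk) ((hK k (s k)).2.2.2.1 hz)
  rw [(hK j (s j)).2.2.2.2] at h1
  exact h1.2

/-- finite closed covers by small cells whose overlaps lie in a countable closed set -/
theorem FS.cells (hX : FS X) {ε : ℝ} (hε : 0 < ε) :
    ∃ (W : ℕ → Set X) (F : Set X), (∀ i, IsClosed (W i)) ∧ {i | (W i).Nonempty}.Finite ∧
      (∀ x, ∃ i, x ∈ W i) ∧ (∀ i, ∀ x ∈ W i, ∀ y ∈ W i, dist x y ≤ ε) ∧ IsClosed F ∧
      F.Countable ∧ ∀ i j, i ≠ j → W i ∩ W j ⊆ F := by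
  classical
  obtain ⟨D, hD, hrat⟩ := hX.rational
  have h1 : ∀ x : X, ∃ V : Set X, IsOpen V ∧ x ∈ V ∧ V ⊆ closedBall x (ε / 2) ∧
      frontier V ⊆ D := by
    intro x
    obtain ⟨U, W, hU, hW, hd, h2, h3, h4⟩ := hX.sep (H := Dᶜ) (A := closedBall x (ε / 2 / 2))
      (B := (ball x (ε / 2))ᶜ) isClosed_closedBall isOpen_ball.isClosed_compl (by
        rintro y hy ⟨⟨a, ha, ha'⟩, ⟨b, hb, hb'⟩⟩
        have := hrat _ (cc_pre _ y) (cc_sub _ _) ha hb
        subst this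
        exact Set.disjoint_left.1 (disjoint_ball_half x (half_pos hε)) ha' hb')
    have hV : IsOpen (U ∩ ball x (ε / 2) ∪ ball x (ε / 2 / 2)) :=
      (hU.inter isOpen_ball).union isOpen_ball
    refine ⟨_, hV, Or.inr (mem_ball_self (by positivity)), union_subset
      (inter_subset_right.trans ball_subset_closedBall)
      (ball_subset_closedBall.trans (closedBall_subset_closedBall (by linarith))), ?_⟩
    intro z hz
    rw [hV.frontier_eq, closure_union] at hz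
    by_contra hzD
    have hzW : z ∈ W := by
      by_cases hzb : z ∈ ball x (ε / 2)
      · exact (h2 hzD).resolve_left fun h => hz.2 (Or.inl ⟨h, hzb⟩)
      · exact h4 ⟨hzD, hzb⟩
    rcases hz.1 with h | h
    · obtain ⟨y, hy1, hy2⟩ := mem_closure_iff.1 h W hW hzW
      exact Set.disjoint_left.1 hd hy2.1 hy1
    · exact Set.disjoint_left.1 hd (h3 ⟨hzD, closure_ball_subset_closedBall h⟩) hzW
  choose V hV hxV hVb hVD using h1
  obtain ⟨t, ht⟩ := isCompact_univ.elim_finite_subcover V hV (fun x _ => mem_iUnion.2 ⟨x, hxV x⟩)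
  let l := t.toList
  let V' : ℕ → Set X := fun i => if h : i < l.length then V l[i] else ∅
  have hV'o : ∀ i, IsOpen (V' i) := by
    intro i
    simp only [V']
    split_ifs
    · exact hV _
    · exact isOpen_empty
  have hcov : ∀ x, ∃ i, x ∈ V' i := by
    intro x
    obtain ⟨y, hy, hxy⟩ := mem_iUnion₂.1 (ht (mem_univ x))
    obtain ⟨i, hi, rfl⟩ := List.getElem_of_mem (Finset.mem_toList.2 hy)
    exact ⟨i, by simp only [V', l, hi, dif_pos]; exact hxy⟩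
  refine ⟨fun i => closure (V' i) \ ⋃ j ∈ Finset.range i, V' j, ⋃ y ∈ t, frontier (V y),
    fun i => isClosed_closure.sdiff (isOpen_biUnion fun j _ => hV'o j), ?_, fun x => ?_, ?_,
    isClosed_biUnion_finset fun y _ => isClosed_frontier,
    hD.mono (iUnion₂_subset fun y _ => hVD y), ?_⟩
  · refine (finite_lt_nat l.length).subset fun i hi => ?_
    by_contra h
    obtain ⟨z, hz, -⟩ := hi
    simp only [V', dif_neg (show ¬ i < l.length from h), closure_empty] at hz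
    exact hz
  · refine ⟨Nat.find (hcov x), subset_closure (Nat.find_spec (hcov x)), fun h => ?_⟩
    obtain ⟨j, hj, hxj⟩ := mem_iUnion₂.1 h
    exact Nat.find_min (hcov x) (Finset.mem_range.1 hj) hxj
  · rintro i x ⟨hx, -⟩ y ⟨hy, -⟩
    simp only [V'] at hx hy
    split_ifs at hx hy with h
    · have h2 := closure_minimal (hVb l[i]) isClosed_closedBall hx
      have h3 := closure_minimal (hVb l[i]) isClosed_closedBall hy
      rw [mem_closedBall] at h2 h3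
      have := dist_triangle_right x y l[i]
      linarith
    · simp at hx
  · have key : ∀ i j, i < j → ∀ z, z ∈ closure (V' i) → z ∉ ⋃ k ∈ Finset.range j, V' k →
        z ∈ ⋃ y ∈ t, frontier (V y) := by
      intro i j hij z hz hz'
      have h2 : z ∉ V' i := fun h => hz' (mem_iUnion₂.2 ⟨i, Finset.mem_range.2 hij, h⟩)
      simp only [V'] at hz h2
      split_ifs at hz h2 with h
      · exact mem_iUnion₂.2 ⟨l[i], Finset.mem_toList.1 (List.getElem_mem h),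
          by rw [(hV _).frontier_eq]; exact ⟨hz, h2⟩⟩
      · simp at hz
    rintro i j hij z ⟨hz, hz'⟩
    rcases lt_or_gt_of_ne hij with h | h
    · exact key i j h z hz.1 hz'.2
    · exact key j i h z hz'.1 hz.2

end Pool.Agent.MP_2fe25f_gt

end

-- part MP_2fe25f_gt.Net
section

/-!
Finitely Suslinian continua, part 5: a connected set that is, up to a countable set, a union of
connected regions carries nets of regions between any two of its points.
-/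

set_option autoImplicit false
set_option linter.unusedSectionVars false

open Set Metric Topology Filter

namespace Pool.Agent.MP_2fe25f_gt

variable {X : Type} [MetricSpace X] [CompactSpace X] [ConnectedSpace X]

theorem closure_iUnion_null {S : ℕ → Set X} {x : X}
    (h : ∀ r > 0, ∀ᶠ n in atTop, S n ⊆ closedBall x r) :
    closure (⋃ n, S n) ⊆ insert x (⋃ n, closure (S n)) := by
  intro z hz
  by_cases hzx : z = x
  · exact Or.inl hzx
  right
  have hr : 0 < dist z x / 2 := by have := dist_pos.2 hzx; positivity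
  obtain ⟨N, hN⟩ := eventually_atTop.1 (h _ hr)
  have h1 : (⋃ n, S n) ⊆ (⋃ n ∈ Finset.range N, S n) ∪ closedBall x (dist z x / 2) := by
    refine iUnion_subset fun n y hy => ?_
    by_cases hn : N ≤ n
    · exact Or.inr (hN n hn hy)
    · exact Or.inl (mem_iUnion₂.2 ⟨n, Finset.mem_range.2 (not_le.1 hn), hy⟩)
  have h2 := closure_mono h1 hz
  rw [closure_union, Finset.closure_biUnion, isClosed_closedBall.closure_eq] at h2
  rcases h2 with h2 | h2
  · obtain ⟨n, -, hn⟩ := mem_iUnion₂.1 h2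
    exact mem_iUnion.2 ⟨n, hn⟩
  · rw [mem_closedBall] at h2
    linarith

theorem one_class {H : Set X} (hH : IsPreconnected H) (r : X → X → Prop)
    (hrefl : ∀ x ∈ H, r x x) (hsymm : ∀ x y, r x y → r y x)
    (htrans : ∀ x y z, r x y → r y z → r x z) (hmem : ∀ x y, r x y → y ∈ H)
    (hcl : ∀ x, ∀ y ∈ H, y ∈ closure {w | r x w} → r x y)
    (hfin : ∀ A B : Set X, IsClosed A → IsClosed B → Disjoint A B →
      {S | ∃ p ∈ H, S = {w | r p w} ∧ Cr A B S}.Finite)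
    {D : Set X} (hD : D.Countable) (hnd : ∀ z ∈ H, z ∉ D → ∃ w, w ≠ z ∧ r z w)
    {p q : X} (hp : p ∈ H) (hq : q ∈ H) : r p q := by
  -- countably many classes
  have hcount : ((fun x => {w | r x w}) '' H).Countable := by
    obtain ⟨𝓑, h𝓑, -, hK⟩ := exists_countable_family (X := X)
    let T : Set (Set X × Set X) := {t | t ∈ 𝓑 ×ˢ 𝓑 ∧ Disjoint (closure t.1) (closure t.2)}
    have hT : T.Countable := (h𝓑.prod h𝓑).mono fun t ht => ht.1
    refine ((hD.image (fun x => {w | r x w})).union (hT.biUnion fun t ht =>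
      (hfin _ _ isClosed_closure isClosed_closure ht.2).countable)).mono ?_
    rintro _ ⟨x, hx, rfl⟩
    by_cases hxD : x ∈ D
    · exact Or.inl ⟨x, hxD, rfl⟩
    obtain ⟨y, hyx, hxy⟩ := hnd x hx hxD
    have hd : 0 < dist x y / 3 := by have := dist_pos.2 hyx.symm; positivity
    obtain ⟨U, hU, hxU, hU'⟩ := hK {x} (ball x (dist x y / 3)) isCompact_singleton isOpen_ball
      (singleton_subset_iff.2 (mem_ball_self hd))
    obtain ⟨V, hV, hyV, hV'⟩ := hK {y} (ball y (dist x y / 3)) isCompact_singleton isOpen_ball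
      (singleton_subset_iff.2 (mem_ball_self hd))
    have hUV : Disjoint (closure U) (closure V) :=
      (closedBall_disjoint_closedBall (show dist x y / 3 + dist x y / 3 < dist x y by linarith)).mono
        (closure_minimal (hU'.trans ball_subset_closedBall) isClosed_closedBall)
        (closure_minimal (hV'.trans ball_subset_closedBall) isClosed_closedBall)
    exact Or.inr (mem_iUnion₂.2 ⟨(U, V), ⟨⟨hU, hV⟩, hUV⟩, x, hx, rfl,
      ⟨x, hrefl x hx, subset_closure (hxU rfl)⟩, ⟨y, hxy, subset_closure (hyV rfl)⟩⟩)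
  obtain ⟨u, hu⟩ := hcount.exists_eq_range ⟨_, p, hp, rfl⟩
  let Good : Set X → Prop := fun A =>
    A ⊆ H ∧ (∀ y ∈ A, ∀ z, r y z → z ∈ A) ∧ ∀ z ∈ H, z ∈ closure A → z ∈ A
  have hcls : ∀ x, Good {w | r x w} := fun x =>
    ⟨fun y hy => hmem x y hy, fun y hy z hz => htrans x y z hy hz, fun z hz h => hcl x z hz h⟩
  have hun : ∀ A B, Good A → Good B → Good (A ∪ B) := by
    rintro A B ⟨a1, a2, a3⟩ ⟨b1, b2, b3⟩
    refine ⟨union_subset a1 b1, fun y hy z hz => hy.imp (fun h => a2 y h z hz) (fun h => b2 y h z hz),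
      fun z hz h => ?_⟩
    rw [closure_union] at h
    exact h.imp (a3 z hz) (b3 z hz)
  have hthick : ∀ A0 A1, Good A0 → Good A1 → Disjoint A0 A1 →
      ∃ A0', Good A0' ∧ Disjoint A0' A1 ∧ ∀ x ∈ A0, A0' ∈ 𝓝[H] x := by
    rintro A0 A1 ⟨a1, a2, a3⟩ ⟨b1, b2, b3⟩ hd
    obtain ⟨U, W, hU, hW, h1, h2, h3⟩ := exists_open_sep (s := A0) (t := A1)
      (Set.disjoint_left.2 fun z hz hz' => Set.disjoint_left.1 hd (a3 z (b1 hz') hz) hz')
      (Set.disjoint_left.2 fun z hz hz' => Set.disjoint_left.1 hd hz (b3 z (a1 hz) hz'))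
    refine ⟨{z | ∃ y ∈ H \ W, r y z}, ⟨?_, ?_, ?_⟩, ?_, ?_⟩
    · rintro z ⟨y, -, hy⟩; exact hmem y z hy
    · rintro z ⟨y, hy, hyz⟩ w hw; exact ⟨y, hy, htrans _ _ _ hyz hw⟩
    · intro z hz hz'
      by_cases hzW : z ∈ W
      swap
      · exact ⟨z, ⟨hz, hzW⟩, hrefl z hz⟩
      obtain ⟨ρ, hρ, hρW⟩ := nhds_basis_closedBall.mem_iff.1 (hW.mem_nhds hzW)
      have hf := hfin (closedBall z ρ) Wᶜ isClosed_closedBall hW.isClosed_compl
        (disjoint_compl_right_iff_subset.2 hρW)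
      have h4 : z ∈ closure (⋃₀ {S | ∃ p ∈ H, S = {w | r p w} ∧ Cr (closedBall z ρ) Wᶜ S}) := by
        rw [mem_closure_iff_nhds] at hz' ⊢
        intro t ht
        obtain ⟨w, ⟨hw1, hw2⟩, y, hy, hyw⟩ := hz' _ (inter_mem ht (closedBall_mem_nhds z hρ))
        exact ⟨w, hw1, _, ⟨y, hy.1, rfl, ⟨w, hyw, hw2⟩, ⟨y, hrefl y hy.1, hy.2⟩⟩, hyw⟩
      rw [hf.closure_sUnion] at h4
      obtain ⟨S, ⟨y, hy, rfl, -, ⟨w, hw1, hw2⟩⟩, h5⟩ := mem_iUnion₂.1 h4
      exact ⟨w, ⟨hmem y w hw1, hw2⟩, htrans _ _ _ (hsymm _ _ hw1) (hcl y z hz h5)⟩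
    · rw [Set.disjoint_left]
      rintro z ⟨y, hy, hyz⟩ hz
      exact hy.2 (h3 (b2 z hz y (hsymm _ _ hyz)))
    · intro x hx
      filter_upwards [mem_nhdsWithin_of_mem_nhds (hU.mem_nhds (h2 hx)), self_mem_nhdsWithin]
        with y hy hyH
      exact ⟨y, ⟨hyH, Set.disjoint_left.1 h1 hy⟩, hrefl y hyH⟩
  have step : ∀ (n : ℕ) (t : {t : Set X × Set X // Good t.1 ∧ Good t.2 ∧ Disjoint t.1 t.2}),
      ∃ t' : {t : Set X × Set X // Good t.1 ∧ Good t.2 ∧ Disjoint t.1 t.2},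
        (∀ x ∈ t.1.1, t'.1.1 ∈ 𝓝[H] x) ∧ (∀ x ∈ t.1.2, t'.1.2 ∈ 𝓝[H] x) ∧
          u n ⊆ t'.1.1 ∪ t'.1.2 := by
    rintro n ⟨⟨A0, A1⟩, g0, g1, hd⟩
    obtain ⟨A0', g0', hd', h0⟩ := hthick A0 A1 g0 g1 hd
    obtain ⟨A1', g1', hd'', h1⟩ := hthick A1 A0' g1 g0' hd'.symm
    obtain ⟨x, hx, hxu⟩ : u n ∈ (fun x => {w | r x w}) '' H := hu ▸ mem_range_self n
    by_cases hx1 : x ∈ A1'
    · exact ⟨⟨(A0', A1'), g0', g1', hd''.symm⟩, h0, h1,
        hxu ▸ fun w hw => Or.inr (g1'.2.1 x hx1 w hw)⟩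
    · refine ⟨⟨(A0' ∪ {w | r x w}, A1'), hun _ _ g0' (hcls x), g1',
        disjoint_union_left.2 ⟨hd''.symm, Set.disjoint_left.2 fun w hw hw' =>
          hx1 (g1'.2.1 w hw' x (hsymm _ _ hw))⟩⟩,
        fun y hy => mem_of_superset (h0 y hy) subset_union_left, h1,
        hxu ▸ fun w hw => Or.inl (Or.inr hw)⟩
  choose f hf using step
  by_contra hpq
  let s : ℕ → {t : Set X × Set X // Good t.1 ∧ Good t.2 ∧ Disjoint t.1 t.2} := fun n =>
    Nat.rec ⟨({w | r p w}, {w | r q w}), hcls p, hcls q, Set.disjoint_left.2 fun w hw hw' =>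
      hpq (htrans _ _ _ hw (hsymm _ _ hw'))⟩ (fun n t => f n t) n
  have hm0 : Monotone fun n => (s n).1.1 := monotone_nat_of_le_succ fun n x hx =>
    mem_of_mem_nhdsWithin ((s n).2.1.1 hx) ((hf n (s n)).1 x hx)
  have hm1 : Monotone fun n => (s n).1.2 := monotone_nat_of_le_succ fun n x hx =>
    mem_of_mem_nhdsWithin ((s n).2.2.1.1 hx) ((hf n (s n)).2.1 x hx)
  have hdis : ∀ x n m, x ∈ (s n).1.1 → x ∈ (s m).1.2 → False := fun x n m h1 h2 =>
    Set.disjoint_left.1 (s (max n m)).2.2.2 (hm0 (le_max_left n m) h1) (hm1 (le_max_right n m) h2)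
  have hcov : ∀ x ∈ H, ∃ n, x ∈ (s n).1.1 ∨ x ∈ (s n).1.2 := by
    intro x hx
    obtain ⟨n, hn⟩ : {w | r x w} ∈ range u := hu ▸ ⟨x, hx, rfl⟩
    exact ⟨n + 1, (hf n (s n)).2.2 (hn ▸ hrefl x hx)⟩
  have := hH.induction₂' (fun x y => (∃ n, x ∈ (s n).1.1) → ∃ n, y ∈ (s n).1.1) (fun x hx => ?_)
    (fun x y z _ _ _ h1 h2 h => h2 (h1 h)) hp hq ⟨0, hrefl p hp⟩
  · obtain ⟨n, hn⟩ := this
    exact hdis q n 0 hn (hrefl q hq)
  · obtain ⟨n, hn | hn⟩ := hcov x hx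
    · filter_upwards [(hf n (s n)).1 x hn] with y hy
      exact ⟨fun _ => ⟨n + 1, hy⟩, fun _ => ⟨n, hn⟩⟩
    · filter_upwards [(hf n (s n)).2.1 x hn] with y hy
      exact ⟨fun ⟨m, hm⟩ => (hdis x m n hm hn).elim, fun ⟨m, hm⟩ => (hdis y m (n + 1) hm hy).elim⟩

/-- joined inside `O` by regions, finite chains and null sequences converging in `H` -/
inductive Rel {τ : Type} (H : Set X) (Reg : Set X → τ → Prop) : Set X → X → X → Prop
  | base {O G : Set X} {c : τ} {p q : X} : Reg G c → G ⊆ O → p ∈ H → q ∈ H → p ∈ closure G →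
      q ∈ closure G → Rel H Reg O p q
  | refl {O : Set X} {p : X} : p ∈ H → p ∈ closure O → Rel H Reg O p p
  | symm {O : Set X} {p q : X} : Rel H Reg O p q → Rel H Reg O q p
  | trans {O : Set X} {p m q : X} : Rel H Reg O p m → Rel H Reg O m q → Rel H Reg O p q
  | lim {O : Set X} (U : ℕ → Set X) (p : ℕ → X) (x : X) :
      (∀ n, Rel H Reg (U n) (p n) (p (n + 1))) → (∀ n, U n ⊆ O) → x ∈ H →
      (∀ r > 0, ∀ᶠ n in atTop, U n ⊆ closedBall x r) → Rel H Reg O (p 0) x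

variable {τ : Type} {H : Set X} {Reg : Set X → τ → Prop}

theorem mem_closure_of_null {U S : ℕ → Set X} {p : ℕ → X} {x : X} (hp : ∀ n, p n ∈ closure (U n))
    (hU : ∀ r > 0, ∀ᶠ n in atTop, U n ⊆ closedBall x r) (hS : ∀ n, p n ∈ S n) :
    x ∈ closure (⋃ n, S n) := by
  rw [Metric.mem_closure_iff]
  intro ε hε
  obtain ⟨n, hn⟩ := (hU (ε / 2) (half_pos hε)).exists
  have := closure_minimal hn isClosed_closedBall (hp n)
  rw [mem_closedBall, dist_comm] at this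
  exact ⟨p n, mem_iUnion.2 ⟨n, hS n⟩, by linarith⟩

theorem Rel.mem {O : Set X} {p q : X} (h : Rel H Reg O p q) :
    (p ∈ H ∧ p ∈ closure O) ∧ (q ∈ H ∧ q ∈ closure O) := by
  induction h with
  | base _ h2 h3 h4 h5 h6 => exact ⟨⟨h3, closure_mono h2 h5⟩, ⟨h4, closure_mono h2 h6⟩⟩
  | refl h1 h2 => exact ⟨⟨h1, h2⟩, ⟨h1, h2⟩⟩
  | symm _ ih => exact ih.symm
  | trans _ _ ih1 ih2 => exact ⟨ih1.1, ih2.2⟩
  | lim U p x _ h2 h3 h4 ih =>
    refine ⟨⟨(ih 0).1.1, closure_mono (h2 0) (ih 0).1.2⟩, h3, ?_⟩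
    have := mem_closure_of_null (fun n => (ih n).1.2) h4 (fun n => (ih n).1.2)
    exact closure_minimal (iUnion_subset fun n => closure_mono (h2 n)) isClosed_closure this

theorem Rel.mono {O O' : Set X} {p q : X} (h : Rel H Reg O p q) (hO : O ⊆ O') :
    Rel H Reg O' p q := by
  induction h with
  | base h1 h2 h3 h4 h5 h6 => exact .base h1 (h2.trans hO) h3 h4 h5 h6
  | refl h1 h2 => exact .refl h1 (closure_mono hO h2)
  | symm _ ih => exact .symm (ih hO)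
  | trans _ _ ih1 ih2 => exact .trans (ih1 hO) (ih2 hO)
  | lim U p x h1 h2 h3 h4 _ => exact .lim U p x h1 (fun n => (h2 n).trans hO) h3 h4

theorem rel_chain {O : Set X} {U : ℕ → Set X} {p : ℕ → X}
    (h1 : ∀ n, Rel H Reg (U n) (p n) (p (n + 1))) (h2 : ∀ n, U n ⊆ O) (n : ℕ) :
    Rel H Reg O (p 0) (p n) := by
  induction n with
  | zero => exact .trans ((h1 0).mono (h2 0)) (.symm ((h1 0).mono (h2 0)))
  | succ n ih => exact .trans ih ((h1 n).mono (h2 n))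

theorem Rel.conn (hR : ∀ G c, Reg G c → IsPreconnected G ∧ G ⊆ H) {O : Set X} {p q : X}
    (h : Rel H Reg O p q) :
    ∃ S, IsPreconnected S ∧ S ⊆ H ∧ S ⊆ closure O ∧ p ∈ S ∧ q ∈ S ∧
      ∀ z ∈ H, z ∈ closure S → Rel H Reg O p z := by
  induction h with
  | @base O G c p q h1 h2 h3 h4 h5 h6 =>
    have h7 : insert p (insert q G) ⊆ closure G := insert_subset h5 (insert_subset h6 subset_closure)
    exact ⟨insert p (insert q G), (hR G c h1).1.subset_closure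
      ((subset_insert _ _).trans (subset_insert _ _)) h7,
      insert_subset h3 (insert_subset h4 (hR G c h1).2), h7.trans (closure_mono h2),
      mem_insert _ _, mem_insert_of_mem _ (mem_insert _ _),
      fun z hz hz' => .base h1 h2 h3 hz h5 (closure_minimal h7 isClosed_closure hz')⟩
  | @refl O p h1 h2 =>
    refine ⟨{p}, isPreconnected_singleton, singleton_subset_iff.2 h1, singleton_subset_iff.2 h2,
      rfl, rfl, fun z _ hz => ?_⟩
    rw [closure_singleton] at hz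
    rw [hz]; exact .refl h1 h2
  | symm h ih =>
    obtain ⟨S, h1, h2, h3, h4, h5, h6⟩ := ih
    exact ⟨S, h1, h2, h3, h5, h4, fun z hz hz' => .trans (.symm h) (h6 z hz hz')⟩
  | @trans O p m q h _ ih1 ih2 =>
    obtain ⟨S, h1, h2, h3, h4, h5, h6⟩ := ih1
    obtain ⟨T, k1, k2, k3, k4, k5, k6⟩ := ih2
    refine ⟨S ∪ T, h1.union m h5 k4 k1, union_subset h2 k2, union_subset h3 k3, Or.inl h4,
      Or.inr k5, fun z hz hz' => ?_⟩
    rw [closure_union] at hz'
    exact hz'.elim (h6 z hz) (fun h' => .trans h (k6 z hz h'))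
  | @lim O U p x h1 h2 h3 h4 ih =>
    choose S k1 k2 k3 k4 k5 k6 using ih
    have h5 : x ∈ closure (⋃ n, S n) := mem_closure_of_null (fun n => (h1 n).mem.1.2) h4 k4
    have h6 : IsPreconnected (⋃ n, S n) :=
      IsPreconnected.iUnion_of_chain k1 fun n => ⟨p (n + 1), k5 n, k4 (n + 1)⟩
    refine ⟨insert x (⋃ n, S n), h6.subset_closure (subset_insert _ _)
      (insert_subset h5 subset_closure), insert_subset h3 (iUnion_subset k2),
      insert_subset (Rel.lim U p x h1 h2 h3 h4).mem.2.2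
        (iUnion_subset fun n => (k3 n).trans (closure_mono (h2 n))),
      mem_insert_of_mem _ (mem_iUnion.2 ⟨0, k4 0⟩), mem_insert _ _, fun z hz hz' => ?_⟩
    have h7 := closure_iUnion_null (S := S) (x := x) (fun r hr => (h4 r hr).mono fun n hn =>
      (k3 n).trans (closure_minimal hn isClosed_closedBall))
      (closure_minimal (insert_subset h5 subset_closure) isClosed_closure hz')
    rcases h7 with rfl | h7
    · exact .lim U p z h1 h2 h3 h4
    · obtain ⟨n, hn⟩ := mem_iUnion.1 h7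
      exact .trans (rel_chain h1 h2 n) ((k6 n z hz hn).mono (h2 n))

theorem FS.rel_loc (hX : FS X) (hR : ∀ G c, Reg G c → IsPreconnected G ∧ G ⊆ H)
    (hR2 : ∀ G c V g, Reg G c → IsOpen V → g ∈ G ∩ V → Reg (cc (G ∩ V) g) c)
    {V' V : Set X} (hV' : IsOpen V') (hV : IsOpen V) (hVV : closure V' ⊆ V) {O : Set X} {p q : X}
    (h : Rel H Reg O p q) :
    (p ∈ V' → Rel H Reg (O ∩ V) p q ∨ ∃ w, w ∉ V' ∧ Rel H Reg (O ∩ V) p w) ∧
    (q ∈ V' → Rel H Reg (O ∩ V) q p ∨ ∃ w, w ∉ V' ∧ Rel H Reg (O ∩ V) q w) := by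
  have hV'V : V' ⊆ V := subset_closure.trans hVV
  have hbase : ∀ (O G : Set X) (c : τ) (p q : X), Reg G c → G ⊆ O → p ∈ H → q ∈ H →
      p ∈ closure G → q ∈ closure G → p ∈ V' →
      Rel H Reg (O ∩ V) p q ∨ ∃ w, w ∉ V' ∧ Rel H Reg (O ∩ V) p w := by
    intro O G c p q h1 h2 h3 h4 h5 h6 h7
    by_cases hG : G ⊆ V'
    · exact Or.inl (.base h1 (subset_inter h2 (hG.trans hV'V)) h3 h4 h5 h6)
    right
    obtain ⟨ρ, hρ, hρV⟩ := nhds_basis_closedBall.mem_iff.1 (hV'.mem_nhds h7)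
    have hf := hX.crC_finite (G ∩ closure V') isClosed_closedBall hV'.isClosed_compl
      (disjoint_compl_right_iff_subset.2 hρV)
    have h8 : p ∈ closure (⋃₀ crC (G ∩ closure V') (closedBall p ρ) V'ᶜ) := by
      rw [mem_closure_iff_nhds] at h5 ⊢
      intro t ht
      obtain ⟨g, ⟨hg1, hg2⟩, hg3⟩ := h5 _ (inter_mem ht (closedBall_mem_nhds p hρ))
      obtain ⟨w, hw, hw'⟩ := hX.bb (hR G c h1).1 hV' isClosed_closure subset_closure
        ⟨hg3, hρV hg2⟩ hG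
      have hg4 : g ∈ G ∩ closure V' := ⟨hg3, subset_closure (hρV hg2)⟩
      exact ⟨g, hg1, _, ⟨g, hg4, rfl, ⟨g, cc_mem hg4, hg2⟩, ⟨w, hw, hw'⟩⟩, cc_mem hg4⟩
    rw [hf.closure_sUnion] at h8
    obtain ⟨S, ⟨g, hg, rfl, -, ⟨w, hw1, hw2⟩⟩, h9⟩ := mem_iUnion₂.1 h8
    have h10 : cc (G ∩ closure V') g ⊆ cc (G ∩ V) g :=
      connectedComponentIn_mono g (inter_subset_inter_right _ hVV)
    exact ⟨w, hw2, .base (hR2 G c V g h1 hV ⟨hg.1, hVV hg.2⟩)
      ((cc_sub _ _).trans (inter_subset_inter_left _ h2)) h3 ((hR G c h1).2 (cc_sub _ _ hw1).1)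
      (closure_mono h10 h9) (subset_closure (h10 hw1))⟩
  have htr : ∀ (O O' : Set X) (p m q : X), O' ⊆ O → Rel H Reg (O ∩ V) p m →
      (m ∈ V' → Rel H Reg (O' ∩ V) m q ∨ ∃ w, w ∉ V' ∧ Rel H Reg (O' ∩ V) m w) →
      Rel H Reg (O ∩ V) p q ∨ ∃ w, w ∉ V' ∧ Rel H Reg (O ∩ V) p w := by
    intro O O' p m q hO h1 h2
    by_cases hm : m ∈ V'
    · rcases h2 hm with h3 | ⟨w, hw, h3⟩
      · exact Or.inl (.trans h1 (h3.mono (inter_subset_inter_left _ hO)))
      · exact Or.inr ⟨w, hw, .trans h1 (h3.mono (inter_subset_inter_left _ hO))⟩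
    · exact Or.inr ⟨m, hm, h1⟩
  induction h with
  | @base O G c p q h1 h2 h3 h4 h5 h6 =>
    exact ⟨hbase O G c p q h1 h2 h3 h4 h5 h6, hbase O G c q p h1 h2 h4 h3 h6 h5⟩
  | @refl O p h1 h2 =>
    have : p ∈ V' → Rel H Reg (O ∩ V) p p := fun h =>
      .refl h1 (hV.closure_inter ⟨h2, hV'V h⟩)
    exact ⟨fun h => Or.inl (this h), fun h => Or.inl (this h)⟩
  | symm _ ih => exact ih.symm
  | @trans O p m q _ _ ih1 ih2 =>
    constructor
    · intro hp
      rcases ih1.1 hp with h1 | h1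
      · exact htr O O p m q Subset.rfl h1 ih2.1
      · exact Or.inr h1
    · intro hq
      rcases ih2.2 hq with h1 | h1
      · exact htr O O q m p Subset.rfl h1 ih1.2
      · exact Or.inr h1
  | @lim O U p x h1 h2 h3 h4 ih =>
    constructor
    · intro hp
      by_cases hex : ∃ w, w ∉ V' ∧ Rel H Reg (O ∩ V) (p 0) w
      · exact Or.inr hex
      left
      have h5 : ∀ n, Rel H Reg (O ∩ V) (p 0) (p n) → Rel H Reg (U n ∩ V) (p n) (p (n + 1)) := by
        intro n hn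
        have h6 : p n ∈ V' := by
          by_contra h6
          exact hex ⟨p n, h6, hn⟩
        rcases (ih n).1 h6 with h7 | ⟨w, hw, h7⟩
        · exact h7
        · exact absurd ⟨w, hw, .trans hn (h7.mono (inter_subset_inter_left _ (h2 n)))⟩ hex
      have h6 : ∀ n, Rel H Reg (O ∩ V) (p 0) (p n) := by
        intro n
        induction n with
        | zero =>
          exact .refl (h1 0).mem.1.1 (hV.closure_inter ⟨closure_mono (h2 0) (h1 0).mem.1.2, hV'V hp⟩)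
        | succ n ih' => exact .trans ih' ((h5 n ih').mono (inter_subset_inter_left _ (h2 n)))
      exact .lim (fun n => U n ∩ V) p x (fun n => h5 n (h6 n))
        (fun n => inter_subset_inter_left _ (h2 n)) h3
        (fun r hr => (h4 r hr).mono fun n hn => inter_subset_left.trans hn)
    · intro hx
      obtain ⟨ρ, hρ, hρV⟩ := nhds_basis_closedBall.mem_iff.1 (hV'.mem_nhds hx)
      obtain ⟨N, hN⟩ := eventually_atTop.1 (h4 ρ hρ)
      have h5 : Rel H Reg (O ∩ V) (p (0 + N)) x :=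
        .lim (fun n => U (n + N)) (fun n => p (n + N)) x
          (fun n => by rw [Nat.add_right_comm]; exact h1 (n + N))
          (fun n => subset_inter (h2 _) (((hN _ (by omega)).trans hρV).trans hV'V)) h3
          (fun r hr => (tendsto_add_atTop_nat N).eventually (h4 r hr))
      have h6 : ∀ j n, n + j = N →
          Rel H Reg (O ∩ V) x (p n) ∨ ∃ w, w ∉ V' ∧ Rel H Reg (O ∩ V) x w := by
        intro j
        induction j with
        | zero => intro n hn; left; rw [show n = 0 + N by omega]; exact .symm h5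
        | succ j ih' =>
          intro n hn
          rcases ih' (n + 1) (by omega) with h7 | h7
          · exact htr O (U n) x _ _ (h2 n) h7 (ih n).2
          · exact Or.inr h7
      exact h6 N 0 (by omega)

theorem FS.rel_fin (hX : FS X) (hR : ∀ G c, Reg G c → IsPreconnected G ∧ G ⊆ H) (O : Set X)
    {A B : Set X} (hA : IsClosed A) (hB : IsClosed B) (hAB : Disjoint A B) :
    {S | ∃ p ∈ H, S = {w | Rel H Reg O p w} ∧ Cr A B S}.Finite := by
  refine finite_of_seq fun f hf hf' => ?_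
  have h1 : ∀ n, ∃ a, f n = {w | Rel H Reg O a w} ∧ ∃ S, IsPreconnected S ∧ Cr A B S ∧ S ⊆ H ∧
      ∀ z ∈ H, z ∈ closure S → Rel H Reg O a z := by
    intro n
    obtain ⟨p, -, h2, ⟨a, ha, ha'⟩, ⟨b, hb, hb'⟩⟩ := hf' n
    rw [h2] at ha hb
    obtain ⟨S, k1, k2, -, k4, k5, k6⟩ := (Rel.trans (.symm ha) hb).conn hR
    exact ⟨p, h2, S, k1, ⟨⟨a, k4, ha'⟩, ⟨b, k5, hb'⟩⟩, k2, fun z hz hz' => .trans ha (k6 z hz hz')⟩
  choose a ha S h2 h3 h4 h5 using h1
  refine hX.ns hA hB hAB S (fun n => ⟨h2 n, h3 n⟩) fun j k hjk => Set.disjoint_left.2 fun z hz hz' => ?_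
  have h6 := h5 j z (h4 k hz') hz
  have h7 := h5 k z (h4 k hz') (subset_closure hz')
  refine hf.ne hjk.ne ?_
  rw [ha j, ha k]
  ext w
  exact ⟨fun h => .trans (.trans h7 (.symm h6)) h, fun h => .trans (.trans h6 (.symm h7)) h⟩

theorem FS.rel_closed (hX : FS X) (hR : ∀ G c, Reg G c → IsPreconnected G ∧ G ⊆ H)
    (hR2 : ∀ G c V g, Reg G c → IsOpen V → g ∈ G ∩ V → Reg (cc (G ∩ V) g) c)
    {y x : X} (hx : x ∈ H) (h : x ∈ closure {w | Rel H Reg univ y w}) : Rel H Reg univ y x := by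
  by_contra hne
  let P : Set X × X → Prop := fun t => Rel H Reg univ y t.2 ∧ x ∈ closure {w | Rel H Reg t.1 t.2 w}
  have step : ∀ (n : ℕ) (t : {t // P t}), ∃ t' : {t // P t}, Rel H Reg t.1.1 t.1.2 t'.1.2 ∧
      t'.1.1 ⊆ t.1.1 ∩ closedBall x (1 / ((n : ℝ) + 1)) := by
    rintro n ⟨⟨O, z⟩, h1, h2⟩
    have hzx : z ≠ x := fun h => hne (h ▸ h1)
    let r := min (1 / ((n : ℝ) + 1)) (dist z x)
    have hr : 0 < r := lt_min (by positivity) (dist_pos.2 hzx)
    have hzV : z ∉ ball x (r / 2) := by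
      rw [mem_ball, not_lt]
      have : r ≤ dist z x := min_le_right _ _
      linarith
    have hf := (hX.rel_fin hR (O ∩ ball x r) isClosed_closedBall isOpen_ball.isClosed_compl
      (disjoint_ball_half x (half_pos hr))).subset
      (show {S | ∃ w, Rel H Reg O z w ∧ S = {v | Rel H Reg (O ∩ ball x r) w v} ∧
        Cr (closedBall x (r / 2 / 2)) (ball x (r / 2))ᶜ S} ⊆ _ from
        fun S ⟨w, h3, h4, h5⟩ => ⟨w, h3.mem.2.1, h4, h5⟩)
    have h3 : x ∈ closure (⋃₀ {S | ∃ w, Rel H Reg O z w ∧ S = {v | Rel H Reg (O ∩ ball x r) w v} ∧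
        Cr (closedBall x (r / 2 / 2)) (ball x (r / 2))ᶜ S}) := by
      rw [mem_closure_iff_nhds] at h2 ⊢
      intro t ht
      obtain ⟨w, ⟨hw1, hw2⟩, hw3⟩ := h2 _ (inter_mem ht (closedBall_mem_nhds x
        (show 0 < r / 2 / 2 by positivity)))
      have hw4 : w ∈ ball x (r / 2) := closedBall_subset_ball (by linarith) hw2
      obtain ⟨v, hv1, hv2⟩ : ∃ v, v ∉ ball x (r / 2) ∧ Rel H Reg (O ∩ ball x r) w v := by
        rcases (hX.rel_loc hR hR2 isOpen_ball isOpen_ball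
          (closure_ball_subset_closedBall.trans (closedBall_subset_ball (half_lt_self hr)))
          hw3).2 hw4 with h4 | h4
        · exact ⟨z, hzV, h4⟩
        · exact h4
      have hww : Rel H Reg (O ∩ ball x r) w w := .trans hv2 (.symm hv2)
      exact ⟨w, hw1, _, ⟨w, hw3, rfl, ⟨w, hww, hw2⟩, ⟨v, hv2, hv1⟩⟩, hww⟩
    rw [hf.closure_sUnion] at h3
    obtain ⟨S, ⟨w, h4, rfl, -⟩, h5⟩ := mem_iUnion₂.1 h3
    exact ⟨⟨(O ∩ ball x r, w), .trans h1 (h4.mono (subset_univ _)), h5⟩, h4,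
      inter_subset_inter_right _ (ball_subset_closedBall.trans
        (closedBall_subset_closedBall (min_le_left _ _)))⟩
  choose f hf using step
  obtain ⟨w, hw⟩ : {w | Rel H Reg univ y w}.Nonempty := closure_nonempty_iff.1 ⟨x, h⟩
  let s : ℕ → {t // P t} := fun n =>
    Nat.rec ⟨(univ, y), .trans hw (.symm hw), h⟩ (fun n t => f n t) n
  refine hne (Rel.lim (fun n => (s n).1.1) (fun n => (s n).1.2) x (fun n => (hf n (s n)).1)
    (fun n => subset_univ _) hx (fun r hr => ?_))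
  obtain ⟨k, hk⟩ := exists_nat_one_div_lt hr
  refine eventually_atTop.2 ⟨k + 1, fun n hn => ?_⟩
  obtain ⟨m, rfl⟩ : ∃ m, n = m + 1 := ⟨n - 1, by omega⟩
  refine ((hf m (s m)).2.trans inter_subset_right).trans (closedBall_subset_closedBall ?_)
  refine le_trans (one_div_le_one_div_of_le (by positivity) ?_) hk.le
  have : (k : ℝ) ≤ m := by exact_mod_cast (by omega : k ≤ m)
  linarith

theorem FS.rel_all (hX : FS X) (hH : IsPreconnected H)
    (hR : ∀ G c, Reg G c → IsPreconnected G ∧ G ⊆ H)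
    (hR2 : ∀ G c V g, Reg G c → IsOpen V → g ∈ G ∩ V → Reg (cc (G ∩ V) g) c)
    {D : Set X} (hD : D.Countable)
    (hR3 : ∀ z ∈ H, z ∉ D → ∃ G c w, Reg G c ∧ z ∈ G ∧ w ∈ G ∧ w ≠ z)
    {p q : X} (hp : p ∈ H) (hq : q ∈ H) : Rel H Reg univ p q :=
  one_class hH (Rel H Reg univ) (fun _ hx => .refl hx (by simp)) (fun _ _ h => .symm h)
    (fun _ _ _ h h' => .trans h h') (fun _ _ h => h.mem.2.1)
    (fun _ _ hy h => hX.rel_closed hR hR2 hy h) (fun _ _ hA hB hAB => hX.rel_fin hR univ hA hB hAB)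
    hD (fun z hz hzD => by
      obtain ⟨G, c, w, h1, h2, h3, h4⟩ := hR3 z hz hzD
      exact ⟨w, h4, .base h1 (subset_univ _) hz ((hR G c h1).2 h3) (subset_closure h2)
        (subset_closure h3)⟩) hp hq

/-- a net: a compact set with a null family of links that connect it -/
def IsNet (H : Set X) (Reg : Set X → τ → Prop) (O : Set X) (E : Set X)
    (L : Set (X × X × Set X × τ)) : Prop :=
  IsClosed E ∧ E ⊆ H ∧ E ⊆ closure O ∧
  (∀ l ∈ L, l.1 ∈ E ∧ l.2.1 ∈ E ∧ l.1 ∈ closure l.2.2.1 ∧ l.2.1 ∈ closure l.2.2.1 ∧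
    Reg l.2.2.1 l.2.2.2 ∧ l.2.2.1 ⊆ O) ∧
  (∀ ε > 0, {l | l ∈ L ∧ ∃ a ∈ l.2.2.1, ∃ b ∈ l.2.2.1, ε < dist a b}.Finite) ∧
  ∀ κ : X × X × Set X × τ → Set X, (∀ l ∈ L, IsPreconnected (κ l) ∧ l.1 ∈ κ l ∧ l.2.1 ∈ κ l) →
    IsPreconnected (E ∪ ⋃ l ∈ L, κ l)

theorem Rel.net {O : Set X} {p q : X} (h : Rel H Reg O p q) :
    ∃ E L, IsNet H Reg O E L ∧ p ∈ E ∧ q ∈ E := by
  induction h with
  | @base O G c p q h1 h2 h3 h4 h5 h6 =>
    refine ⟨{p, q}, {(p, q, G, c)}, ⟨(toFinite _).isClosed, insert_subset h3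
      (singleton_subset_iff.2 h4), insert_subset (closure_mono h2 h5)
      (singleton_subset_iff.2 (closure_mono h2 h6)), ?_, fun ε _ =>
      (finite_singleton _).subset fun l hl => hl.1, fun κ hκ => ?_⟩, by simp, by simp⟩
    · rintro l rfl
      exact ⟨by simp, by simp, h5, h6, h1, h2⟩
    · obtain ⟨k1, k2, k3⟩ := hκ _ rfl
      rw [biUnion_singleton, union_eq_right.2 (insert_subset k2 (singleton_subset_iff.2 k3))]
      exact k1
  | @refl O p h1 h2 =>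
    refine ⟨{p}, ∅, ⟨isClosed_singleton, singleton_subset_iff.2 h1, singleton_subset_iff.2 h2,
      by simp, by simp, fun κ _ => by simpa using isPreconnected_singleton⟩, rfl, rfl⟩
  | symm _ ih =>
    obtain ⟨E, L, h1, h2, h3⟩ := ih
    exact ⟨E, L, h1, h3, h2⟩
  | @trans O p m q _ _ ih1 ih2 =>
    obtain ⟨E, L, ⟨h1, h2, h3, h4, h5, h6⟩, h7, h8⟩ := ih1
    obtain ⟨E', L', ⟨k1, k2, k3, k4, k5, k6⟩, k7, k8⟩ := ih2
    refine ⟨E ∪ E', L ∪ L', ⟨h1.union k1, union_subset h2 k2, union_subset h3 k3, ?_, ?_, ?_⟩,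
      Or.inl h7, Or.inr k8⟩
    · rintro l (hl | hl)
      · exact ⟨Or.inl (h4 l hl).1, Or.inl (h4 l hl).2.1, (h4 l hl).2.2⟩
      · exact ⟨Or.inr (k4 l hl).1, Or.inr (k4 l hl).2.1, (k4 l hl).2.2⟩
    · intro ε hε
      refine ((h5 ε hε).union (k5 ε hε)).subset ?_
      rintro l ⟨hl | hl, hl'⟩
      · exact Or.inl ⟨hl, hl'⟩
      · exact Or.inr ⟨hl, hl'⟩
    · intro κ hκ
      rw [biUnion_union, union_union_union_comm]
      exact (h6 κ fun l hl => hκ l (Or.inl hl)).union m (Or.inl h8) (Or.inl k7)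
        (k6 κ fun l hl => hκ l (Or.inr hl))
  | @lim O U p x h1 h2 h3 h4 ih =>
    choose E L k k7 k8 using ih
    have h5 : ∀ r > 0, ∀ᶠ n in atTop, E n ⊆ closedBall x r := fun r hr => (h4 r hr).mono fun n hn =>
      (k n).2.2.1.trans (closure_minimal hn isClosed_closedBall)
    refine ⟨insert x (⋃ n, E n), ⋃ n, L n, ⟨?_, insert_subset h3 (iUnion_subset fun n => (k n).2.1),
      insert_subset (Rel.lim U p x h1 h2 h3 h4).mem.2.2
        (iUnion_subset fun n => (k n).2.2.1.trans (closure_mono (h2 n))), ?_, ?_, ?_⟩,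
      mem_insert_of_mem _ (mem_iUnion.2 ⟨0, k7 0⟩), mem_insert _ _⟩
    · refine isClosed_of_closure_subset ?_
      rw [insert_eq, closure_union, closure_singleton]
      refine union_subset subset_union_left ((closure_iUnion_null h5).trans ?_)
      simp only [fun n => (k n).1.closure_eq]
      exact Subset.rfl
    · intro l hl
      obtain ⟨n, hn⟩ := mem_iUnion.1 hl
      obtain ⟨l1, l2, l3, l4, l5, l6⟩ := (k n).2.2.2.1 l hn
      exact ⟨Or.inr (mem_iUnion.2 ⟨n, l1⟩), Or.inr (mem_iUnion.2 ⟨n, l2⟩), l3, l4, l5,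
        l6.trans (h2 n)⟩
    · intro ε hε
      obtain ⟨N, hN⟩ := eventually_atTop.1 (h4 (ε / 2) (half_pos hε))
      refine ((finite_lt_nat N).biUnion fun n _ => (k n).2.2.2.2.1 ε hε).subset ?_
      rintro l ⟨hl, a, ha, b, hb, hab⟩
      obtain ⟨n, hn⟩ := mem_iUnion.1 hl
      refine mem_iUnion₂.2 ⟨n, ?_, hn, a, ha, b, hb, hab⟩
      by_contra hnN
      have h6 := ((k n).2.2.2.1 l hn).2.2.2.2.2.trans (hN n (not_lt.1 hnN))
      have h7 := h6 ha
      have h8 := h6 hb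
      rw [mem_closedBall] at h7 h8
      have := dist_triangle_right a b x
      linarith
    · intro κ hκ
      have h6 : IsPreconnected (⋃ n, E n ∪ ⋃ l ∈ L n, κ l) :=
        IsPreconnected.iUnion_of_chain
          (fun n => (k n).2.2.2.2.2 κ fun l hl => hκ l (mem_iUnion.2 ⟨n, hl⟩))
          fun n => ⟨p (n + 1), Or.inl (k8 n), Or.inl (k7 (n + 1))⟩
      have h7 : x ∈ closure (⋃ n, E n ∪ ⋃ l ∈ L n, κ l) :=
        mem_closure_of_null (fun n => (h1 n).mem.1.2) h4 (fun n => Or.inl (k7 n))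
      rw [biUnion_iUnion, insert_union, ← iUnion_union_distrib]
      exact h6.subset_closure (subset_insert _ _) (insert_subset h7 subset_closure)

end Pool.Agent.MP_2fe25f_gt

end

-- part MP_2fe25f_gt.Step
section

/-!
Finitely Suslinian continua, part 6: extension of two-colourings that respect a shrinking family
of closed sets.
-/

set_option autoImplicit false
set_option linter.unusedSectionVars false

open Set Metric Topology Filter

namespace Pool.Agent.MP_2fe25f_gt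

variable {X : Type} [MetricSpace X] [CompactSpace X] [ConnectedSpace X]

/-- on every core of `U`, the set `Q` is eventually missed by the family `𝓛` -/
def Club (𝓛 : Set (Set X)) (U Q : Set X) : Prop := ∀ m, ∃ N ∈ 𝓛, Disjoint (core U m ∩ N) Q

theorem exists_disjoint_finite {𝓛 𝒮 : Set (Set X)} (hLu : univ ∈ 𝓛)
    (hLi : ∀ M ∈ 𝓛, ∀ N ∈ 𝓛, M ∩ N ∈ 𝓛) (h𝒮 : 𝒮.Finite) (h : ∀ S ∈ 𝒮, ∃ N ∈ 𝓛, Disjoint S N) :
    ∃ N ∈ 𝓛, ∀ S ∈ 𝒮, Disjoint S N := by
  induction 𝒮, h𝒮 using Set.Finite.induction_on with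
  | empty => exact ⟨univ, hLu, by simp⟩
  | @insert S 𝒮 _ _ ih =>
    obtain ⟨N, hN, h1⟩ := ih fun T hT => h T (mem_insert_of_mem _ hT)
    obtain ⟨M, hM, h2⟩ := h S (mem_insert _ _)
    refine ⟨M ∩ N, hLi M hM N hN, ?_⟩
    rintro T (rfl | hT)
    · exact h2.mono_right inter_subset_left
    · exact (h1 T hT).mono_right inter_subset_right

theorem FS.step (hX : FS X) {H P Q U0 U1 : Set X} {𝓛 : Set (Set X)}
    (hU0 : IsOpen U0) (hU1 : IsOpen U1) (hU : Disjoint U0 U1)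
    (hLu : univ ∈ 𝓛) (hLi : ∀ M ∈ 𝓛, ∀ N ∈ 𝓛, M ∩ N ∈ 𝓛) (hLc : ∀ N ∈ 𝓛, IsClosed N)
    (hP : H ∩ closure P ⊆ P) (hQ : H ∩ closure Q ⊆ Q)
    (a1 : ∀ x ∈ H, ∀ N ∈ 𝓛, x ∈ N → cc H x ⊆ N)
    (a2 : ∀ x ∈ H, ∀ y ∈ cc H x, ∀ z ∈ cc H x, y ≠ z → ∃ N ∈ 𝓛, Disjoint (cc H x) N)
    (hb : ∀ x ∈ H, ¬ Cr P Q (cc H x))
    (hc : ∀ x ∈ H, (∀ N ∈ 𝓛, x ∈ N) → x ∈ U0 ∪ U1)
    (c0 : Club 𝓛 U0 Q) (c1 : Club 𝓛 U1 P) :
    ∃ V0 V1 : Set X, IsOpen V0 ∧ IsOpen V1 ∧ Disjoint V0 V1 ∧ H ⊆ V0 ∪ V1 ∧ H ∩ P ⊆ V0 ∧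
      H ∩ Q ⊆ V1 ∧ Club 𝓛 U0 (H ∩ V1) ∧ Club 𝓛 U1 (H ∩ V0) := by
  obtain ⟨u, hu⟩ := exists_seq_cover (fun N : 𝓛 => N.1ᶜ) (fun N => (hLc N.1 N.2).isOpen_compl)
    ⟨univ, hLu⟩
  have hfin : ∀ (U : Set X) (m : ℕ), ∃ N ∈ 𝓛, ∀ x ∈ H,
      Cr (core U m) (interior (core U (m + 1)))ᶜ (cc H x) → Disjoint (cc H x) N := by
    intro U m
    have hd : Disjoint (core U m) (interior (core U (m + 1)))ᶜ :=
      disjoint_compl_right_iff_subset.2 (core_subset_interior U m)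
    obtain ⟨N, hN, h1⟩ := exists_disjoint_finite hLu hLi
      (hX.crC_finite H (isClosed_core U m) isOpen_interior.isClosed_compl hd) (by
        rintro S ⟨x, hx, rfl, ⟨y, hy, hy'⟩, ⟨z, hz, hz'⟩⟩
        exact a2 x hx y hy z hz (fun h => Set.disjoint_left.1 hd hy' (h ▸ hz')))
    exact ⟨N, hN, fun x hx h => h1 _ ⟨x, hx, rfl, h⟩⟩
  choose F hF hF' using hfin
  choose A0 hA0 hA0' using c0
  choose A1 hA1 hA1' using c1
  let N0 : ℕ → Set X := fun m => (u m).1 ∩ (F U0 m ∩ F U1 m) ∩ (A0 (m + 1) ∩ A1 (m + 1))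
  have hN0 : ∀ m, N0 m ∈ 𝓛 := fun m =>
    hLi _ (hLi _ (u m).2 _ (hLi _ (hF _ _) _ (hF _ _))) _ (hLi _ (hA0 _) _ (hA1 _))
  let N : ℕ → Set X := fun m => Nat.rec (N0 0) (fun m t => t ∩ N0 (m + 1)) m
  have hN : ∀ m, N m ∈ 𝓛 := by
    intro m
    induction m with
    | zero => exact hN0 0
    | succ m ih => exact hLi _ ih _ (hN0 _)
  have hNN : ∀ m, N m ⊆ N0 m := by
    intro m
    cases m with
    | zero => exact Subset.rfl
    | succ m => exact inter_subset_right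
  have hanti : Antitone N := antitone_nat_of_succ_le fun m => inter_subset_left
  let J : Set X → Set X := fun U => ⋃ m, core U m ∩ N m
  have hJU : ∀ U, J U ⊆ U := fun U =>
    iUnion_subset fun m => inter_subset_left.trans (core_subset U m)
  have hcl : ∀ U U' : Set X, IsOpen U → IsOpen U' → Disjoint U U' →
      (∀ x, x ∈ U0 ∪ U1 → x ∈ U ∪ U') → H ∩ closure (J U) ⊆ J U := by
    rintro U U' h1 h2 h3 h4 x ⟨hx, hx'⟩
    rcases Classical.em (∀ m, x ∈ N m) with h | h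
    · have h5 : x ∈ U ∪ U' := h4 x (hc x hx fun M hM => by
        by_contra h6
        obtain ⟨m, hm⟩ := mem_iUnion.1 (hu (mem_iUnion.2 ⟨⟨M, hM⟩, h6⟩))
        exact hm (hNN m (h m)).1.1)
      have h6 : x ∉ U' := fun h6 =>
        Set.disjoint_left.1 (h3.closure_left h2) (closure_mono (hJU U) hx') h6
      obtain ⟨k, hk⟩ := exists_core_nhds h1 (h5.resolve_right h6)
      exact mem_iUnion.2 ⟨k, mem_of_mem_nhds hk, h k⟩
    · push Not at h
      obtain ⟨m, hm⟩ := h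
      have h5 : J U ⊆ (⋃ k ∈ Finset.range m, core U k ∩ N k) ∪ N m := by
        refine iUnion_subset fun k y hy => ?_
        by_cases hk : k < m
        · exact Or.inl (mem_iUnion₂.2 ⟨k, Finset.mem_range.2 hk, hy⟩)
        · exact Or.inr (hanti (not_lt.1 hk) hy.2)
      have h6 : IsClosed ((⋃ k ∈ Finset.range m, core U k ∩ N k) ∪ N m) :=
        (isClosed_biUnion_finset fun k _ => (isClosed_core U k).inter (hLc _ (hN k))).union
          (hLc _ (hN m))
      obtain ⟨k, -, hk⟩ := mem_iUnion₂.1 ((closure_minimal h5 h6 hx').resolve_right hm)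
      exact mem_iUnion.2 ⟨k, hk⟩
  have hin : ∀ U : Set X, (∀ m, N m ⊆ F U m) → ∀ x ∈ H, ∀ y ∈ cc H x, y ∈ J U →
      ∃ m, cc H x ⊆ core U (m + 1) ∩ N m := by
    intro U h1 x hx y hy hy'
    obtain ⟨m, hm1, hm2⟩ := mem_iUnion.1 hy'
    refine ⟨m, subset_inter (fun z hz => ?_) ?_⟩
    · by_contra h2
      exact Set.disjoint_left.1 (hF' U m x hx ⟨⟨y, hy, hm1⟩, ⟨z, hz, fun h => h2
        (interior_subset h)⟩⟩) hy (h1 m hm2)
    · rw [show cc H x = cc H y from connectedComponentIn_eq hy]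
      exact a1 y (cc_sub _ _ hy) _ (hN m) hm2
  have hA : H ∩ closure (J U0 ∪ P) ⊆ J U0 ∪ P := by
    rw [closure_union, inter_union_distrib_left]
    exact union_subset_union (hcl U0 U1 hU0 hU1 hU fun _ h => h) hP
  have hB : H ∩ closure (J U1 ∪ Q) ⊆ J U1 ∪ Q := by
    rw [closure_union, inter_union_distrib_left]
    exact union_subset_union (hcl U1 U0 hU1 hU0 hU.symm fun _ h => h.symm) hQ
  obtain ⟨V0, V1, h1, h2, h3, h4, h5, h6⟩ := hX.sep (H := H) (A := closure (J U0 ∪ P))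
    (B := closure (J U1 ∪ Q)) isClosed_closure isClosed_closure (by
      rintro x hx ⟨⟨y, hy, hy'⟩, ⟨z, hz, hz'⟩⟩
      rcases hA ⟨cc_sub _ _ hy, hy'⟩ with k1 | k1
      · obtain ⟨m, hm⟩ := hin U0 (fun m w hw => (hNN m hw).1.2.1) x hx y hy k1
        rcases hB ⟨cc_sub _ _ hz, hz'⟩ with k2 | k2
        · exact Set.disjoint_left.1 hU (core_subset _ _ (hm hz).1) (hJU _ k2)
        · exact Set.disjoint_left.1 (hA0' (m + 1)) ⟨(hm hz).1, (hNN m (hm hz).2).2.1⟩ k2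
      · rcases hB ⟨cc_sub _ _ hz, hz'⟩ with k2 | k2
        · obtain ⟨m, hm⟩ := hin U1 (fun m w hw => (hNN m hw).1.2.2) x hx z hz k2
          exact Set.disjoint_left.1 (hA1' (m + 1)) ⟨(hm hy).1, (hNN m (hm hy).2).2.2⟩ k1
        · exact hb x hx ⟨⟨y, hy, k1⟩, ⟨z, hz, k2⟩⟩)
  refine ⟨V0, V1, h1, h2, h3, h4, fun x hx => h5 ⟨hx.1, subset_closure (Or.inr hx.2)⟩,
    fun x hx => h6 ⟨hx.1, subset_closure (Or.inr hx.2)⟩, fun m => ⟨N m, hN m, ?_⟩,
    fun m => ⟨N m, hN m, ?_⟩⟩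
  · exact Set.disjoint_left.2 fun x hx hx' => Set.disjoint_left.1 h3
      (h5 ⟨hx'.1, subset_closure (Or.inl (mem_iUnion.2 ⟨m, hx⟩))⟩) hx'.2
  · exact Set.disjoint_left.2 fun x hx hx' => Set.disjoint_left.1 h3 hx'.2
      (h6 ⟨hx'.1, subset_closure (Or.inl (mem_iUnion.2 ⟨m, hx⟩))⟩)

end Pool.Agent.MP_2fe25f_gt

end

-- part MP_2fe25f_gt.Prune
section

/-!
Finitely Suslinian continua, part 7: transfinite pruning along a tree of cells.
-/

set_option autoImplicit false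
set_option linter.unusedSectionVars false

open Set Metric Topology Filter

namespace Pool.Agent.MP_2fe25f_gt

variable {X : Type} [MetricSpace X] [CompactSpace X] [ConnectedSpace X]

/-- a tree of cells with two-coloured ports that answers every separation -/
structure Sys (C D : Set X) {𝓝' : Type} (lt : 𝓝' → 𝓝' → Prop) (W P Q : 𝓝' → Set X) : Prop where
  trans : ∀ a b c, lt a b → lt b c → lt a c
  closed : ∀ s, IsClosed (W s)
  anti : ∀ s c, lt s c → W c ⊆ W s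
  P_sub : ∀ s, P s ⊆ D ∩ C ∩ W s
  Q_sub : ∀ s, Q s ⊆ D ∩ C ∩ W s
  P_ne : ∀ s, (P s).Nonempty
  Q_ne : ∀ s, (Q s).Nonempty
  P_cl : ∀ s, C ∩ closure (P s) ⊆ P s
  Q_cl : ∀ s, C ∩ closure (Q s) ⊆ Q s
  disj : ∀ s, Disjoint (P s) (Q s)
  count : D.Countable
  ext : ∀ s (U0 U1 : Set X), IsOpen U0 → IsOpen U1 → Disjoint U0 U1 → D ∩ C ∩ W s ⊆ U0 ∪ U1 →
    P s ⊆ U0 → Q s ⊆ U1 → ∃ c, lt s c ∧ P c ⊆ U0 ∧ Q c ⊆ U1
  lim : ∀ c : ℕ → 𝓝', (∀ n, lt (c n) (c (n + 1))) →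
    ∃ z ∈ C, ∀ r > 0, ∀ᶠ n in atTop, W (c n) ⊆ closedBall z r

/-- the union of the components of `G` that meet `P` and `Q` -/
def Lam (G P Q : Set X) : Set X := {x | x ∈ G ∧ Cr P Q (cc G x)}

theorem Lam_mono {G G' P Q : Set X} (h : G ⊆ G') : Lam G P Q ⊆ Lam G' P Q :=
  fun x hx => ⟨h hx.1, hx.2.mono (connectedComponentIn_mono x h)⟩

theorem Lam_pre {G P Q T : Set X} (hT : IsPreconnected T) (hTG : T ⊆ G) {x : X} (hx : x ∈ T)
    (hx' : x ∈ Lam G P Q) : T ⊆ Lam G P Q := by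
  intro y hy
  refine ⟨hTG hy, ?_⟩
  rw [← show cc G x = cc G y from
    connectedComponentIn_eq (hT.subset_connectedComponentIn hx hTG hy)]
  exact hx'.2

theorem Lam_symm {G P Q : Set X} : Lam G P Q = Lam G Q P := by
  ext x
  exact ⟨fun h => ⟨h.1, h.2.symm⟩, fun h => ⟨h.1, h.2.symm⟩⟩

theorem FS.Lam_closed_aux (hX : FS X) {G P Q : Set X} {z : X} (hz : z ∈ G)
    (hz' : z ∈ closure (Lam G P Q)) (hQ : z ∉ closure Q) : z ∈ Lam G P Q := by
  obtain ⟨ρ, hρ, hρV⟩ := nhds_basis_closedBall.mem_iff.1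
    (isClosed_closure.isOpen_compl.mem_nhds hQ)
  have hf := (hX.crC_finite G isClosed_closedBall isClosed_closure
    (subset_compl_iff_disjoint_right.1 hρV)).subset
    (show {S | S ∈ crC G (closedBall z ρ) (closure Q) ∧ S ⊆ Lam G P Q} ⊆ _ from fun S hS => hS.1)
  have h1 : z ∈ closure (⋃₀ {S | S ∈ crC G (closedBall z ρ) (closure Q) ∧ S ⊆ Lam G P Q}) := by
    rw [mem_closure_iff_nhds] at hz' ⊢
    intro t ht
    obtain ⟨g, ⟨hg1, hg2⟩, hg3⟩ := hz' _ (inter_mem ht (closedBall_mem_nhds z hρ))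
    exact ⟨g, hg1, _, ⟨⟨g, hg3.1, rfl, ⟨g, cc_mem hg3.1, hg2⟩,
      hg3.2.2.mono (inter_subset_inter_right _ subset_closure)⟩,
      Lam_pre (cc_pre _ _) (cc_sub _ _) (cc_mem hg3.1) hg3⟩, cc_mem hg3.1⟩
  rw [hf.closure_sUnion] at h1
  obtain ⟨S, ⟨⟨g, -, rfl, -⟩, h2⟩, h3⟩ := mem_iUnion₂.1 h1
  exact h2 (cc_closed hz h3)

variable {C D : Set X} {𝓝' : Type} {lt : 𝓝' → 𝓝' → Prop} {W P Q : 𝓝' → Set X}

theorem Sys.Lam_closed (hS : Sys C D lt W P Q) (hX : FS X) {G : Set X} (hG : G ⊆ C) (s : 𝓝')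
    {z : X} (hz : z ∈ G) (hz' : z ∈ closure (Lam G (P s) (Q s))) : z ∈ Lam G (P s) (Q s) := by
  by_cases h : z ∈ closure (Q s)
  · rw [Lam_symm] at hz' ⊢
    exact hX.Lam_closed_aux hz hz' fun h' =>
      Set.disjoint_left.1 (hS.disj s) (hS.P_cl s ⟨hG hz, h'⟩) (hS.Q_cl s ⟨hG hz, h⟩)
  · exact hX.Lam_closed_aux hz hz' h

theorem Sys.mem_lim (hS : Sys C D lt W P Q) {c : ℕ → 𝓝'} {z : X}
    (hz : ∀ r > 0, ∀ᶠ n in atTop, W (c n) ⊆ closedBall z r) {S : ℕ → Set X} {T : Set X}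
    (h1 : ∀ n, (S n).Nonempty) (h2 : ∀ n, S n ⊆ W (c n)) (h3 : ∀ᶠ n in atTop, S n ⊆ T) :
    z ∈ closure T := by
  rw [Metric.mem_closure_iff]
  intro ε hε
  obtain ⟨n, hn, hn'⟩ := ((hz (ε / 2) (half_pos hε)).and h3).exists
  obtain ⟨y, hy⟩ := h1 n
  have := hn (h2 n hy)
  rw [mem_closedBall, dist_comm] at this
  exact ⟨y, hn' hy, by linarith⟩

theorem Sys.prune (hS : Sys C D lt W P Q) (hX : FS X) (G : Ordinal.{0} → 𝓝' → Set X)
    (hG : ∀ α s x, x ∈ G α s ↔ x ∈ C ∩ W s ∧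
      ∀ β < α, x ∈ D ∨ ∃ c, lt s c ∧ x ∈ Lam (G β c) (P c) (Q c))
    (l : Ordinal.{0}) (s : 𝓝') : (Lam (G l s) (P s) (Q s)).Nonempty := by
  have Ganti : ∀ {α β : Ordinal.{0}} (s : 𝓝'), α ≤ β → G β s ⊆ G α s := fun s h x hx =>
    (hG _ _ _).2 ⟨((hG _ _ _).1 hx).1, fun γ hγ => ((hG _ _ _).1 hx).2 γ (hγ.trans_le h)⟩
  have GC : ∀ α s, G α s ⊆ C ∩ W s := fun α s x hx => ((hG _ _ _).1 hx).1
  have GC' : ∀ α s, G α s ⊆ C := fun α s x hx => (GC α s hx).1
  have Glt : ∀ α {s c : 𝓝'}, lt s c → G α c ⊆ G α s := fun α s c h x hx =>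
    (hG _ _ _).2 ⟨⟨(GC _ _ hx).1, hS.anti s c h (GC _ _ hx).2⟩, fun γ hγ =>
      (((hG _ _ _).1 hx).2 γ hγ).imp_right fun ⟨c', h1, h2⟩ => ⟨c', hS.trans _ _ _ h h1, h2⟩⟩
  have GD : ∀ α s, D ∩ C ∩ W s ⊆ G α s := fun α s x hx =>
    (hG _ _ _).2 ⟨⟨hx.1.2, hx.2⟩, fun γ _ => Or.inl hx.1.1⟩
  induction l using WellFoundedLT.induction generalizing s with
  | ind l ih =>
  by_contra hne
  obtain ⟨U0, U1, hU0, hU1, hU, hGU, hPU, hQU⟩ := hX.sep (H := G l s) (A := closure (P s))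
    (B := closure (Q s)) isClosed_closure isClosed_closure (by
      rintro x hx ⟨⟨y, hy, hy'⟩, ⟨z, hz, hz'⟩⟩
      exact hne ⟨x, hx, ⟨y, hy, hS.P_cl s ⟨GC' _ _ (cc_sub _ _ hy), hy'⟩⟩,
        ⟨z, hz, hS.Q_cl s ⟨GC' _ _ (cc_sub _ _ hz), hz'⟩⟩⟩)
  let Λ : Ordinal.{0} → 𝓝' → Set X := fun α c => Lam (G α c) (P c) (Q c)
  let 𝓛 : 𝓝' → Set (Set X) := fun c => {N | N = univ ∨ ∃ α < l, N = closure (Λ α c)}
  have Λanti : ∀ {α β : Ordinal.{0}} (c : 𝓝'), α ≤ β → Λ β c ⊆ Λ α c := fun c h =>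
    Lam_mono (Ganti c h)
  have step : ∀ c, W c ⊆ W s → Club (𝓛 c) U0 (Q c) → Club (𝓛 c) U1 (P c) →
      ∃ c', lt c c' ∧ (∀ α < l, Λ α c' ⊆ Λ α c) ∧ Club (𝓛 c') U0 (Q c') ∧
        Club (𝓛 c') U1 (P c') := by
    intro c hc c0 c1
    let H : Set X := D ∩ C ∩ W c ∪ {x | ∃ α < l, ∃ c', lt c c' ∧ x ∈ Λ α c' ∧ x ∉ Λ α c}
    have hHC : H ⊆ C := by
      rintro x (hx | ⟨α, -, c', -, h, -⟩)
      · exact hx.1.2
      · exact GC' _ _ h.1
    have key : ∀ x, (cc H x).Subsingleton ∨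
        ∃ β < l, cc H x ⊆ G β c ∧ Disjoint (cc H x) (closure (Λ β c)) := by
      intro x
      by_cases h : cc H x ⊆ D
      · exact Or.inl (hS.count.isTotallyDisconnected _ h (cc_pre _ _))
      right
      obtain ⟨y, hy, hyD⟩ := not_subset.1 h
      obtain ⟨α, hα⟩ := (cc_sub _ _ hy).resolve_left fun h => hyD h.1.1
      obtain ⟨β, ⟨w, hw, hβ, c', h1, h2, h3⟩, hmin⟩ := wellFounded_lt.has_min
        {α | ∃ y ∈ cc H x, α < l ∧ ∃ c', lt c c' ∧ y ∈ Λ α c' ∧ y ∉ Λ α c} ⟨α, y, hy, hα⟩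
      have h4 : cc H x ⊆ G β c := by
        intro v hv
        rcases cc_sub _ _ hv with h5 | ⟨γ, hγ, c'', h5, h6, h7⟩
        · exact GD _ _ h5
        · exact Ganti c (not_lt.1 (hmin γ ⟨v, hv, hγ, c'', h5, h6, h7⟩)) (Glt γ h5 h6.1)
      exact ⟨β, hβ, h4, Set.disjoint_left.2 fun v hv hv' => h3 (Lam_pre (cc_pre _ _) h4 hv
        (hS.Lam_closed hX (GC' _ _) c (h4 hv) hv') hw)⟩
    obtain ⟨V0, V1, h1, h2, h3, h4, h5, h6, h7, h8⟩ := hX.step (H := H) (P := P c) (Q := Q c)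
      (𝓛 := 𝓛 c) hU0 hU1 hU (Or.inl rfl)
      (by
        rintro M (rfl | ⟨α, hα, rfl⟩) N hN
        · rwa [univ_inter]
        · rcases hN with rfl | ⟨β, hβ, rfl⟩
          · rw [inter_univ]; exact Or.inr ⟨α, hα, rfl⟩
          · rcases le_total α β with h | h
            · rw [inter_eq_right.2 (closure_mono (Λanti c h))]; exact Or.inr ⟨β, hβ, rfl⟩
            · rw [inter_eq_left.2 (closure_mono (Λanti c h))]; exact Or.inr ⟨α, hα, rfl⟩)
      (by
        rintro N (rfl | ⟨α, -, rfl⟩)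
        · exact isClosed_univ
        · exact isClosed_closure)
      (fun x hx => hS.P_cl c ⟨hHC hx.1, hx.2⟩) (fun x hx => hS.Q_cl c ⟨hHC hx.1, hx.2⟩)
      (by
        rintro x hx N (rfl | ⟨α, hα, rfl⟩) hxN
        · exact subset_univ _
        · rcases key x with h | ⟨β, -, h1, h2⟩
          · intro y hy
            rwa [h hy (cc_mem hx)]
          · have h3 : α ≤ β := by
              by_contra h3
              exact Set.disjoint_left.1 h2 (cc_mem hx)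
                (closure_mono (Λanti c (not_le.1 h3).le) hxN)
            have h4 := h1.trans (Ganti c h3)
            exact (Lam_pre (cc_pre _ _) h4 (cc_mem hx)
              (hS.Lam_closed hX (GC' _ _) c (h4 (cc_mem hx)) hxN)).trans subset_closure)
      (by
        intro x _ y hy z hz hyz
        rcases key x with h | ⟨β, hβ, -, h2⟩
        · exact absurd (h hy hz) hyz
        · exact ⟨_, Or.inr ⟨β, hβ, rfl⟩, h2⟩)
      (by
        rintro x hx hcr
        rcases key x with h | ⟨β, -, h1, h2⟩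
        · obtain ⟨⟨y, hy, hy'⟩, ⟨z, hz, hz'⟩⟩ := hcr
          exact Set.disjoint_left.1 (hS.disj c) hy' (h hz hy ▸ hz')
        · exact Set.disjoint_left.1 h2 (cc_mem hx) (subset_closure ⟨h1 (cc_mem hx),
            hcr.mono ((cc_pre _ _).subset_connectedComponentIn (cc_mem hx) h1)⟩))
      (by
        rintro x (hx | ⟨α, hα, c', h1, h2, h3⟩) h
        · exact hGU (GD _ _ ⟨hx.1, hc hx.2⟩)
        · exact absurd (hS.Lam_closed hX (GC' _ _) c (Glt α h1 h2.1)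
            (h _ (Or.inr ⟨α, hα, rfl⟩))) h3)
      c0 c1
    obtain ⟨c', k1, k2, k3⟩ := hS.ext c V0 V1 h1 h2 h3 (subset_union_left.trans h4)
      (fun x hx => h5 ⟨Or.inl (hS.P_sub c hx), hx⟩) (fun x hx => h6 ⟨Or.inl (hS.Q_sub c hx), hx⟩)
    have hatt : ∀ α < l, Λ α c' ⊆ Λ α c := by
      intro α hα x hx
      by_contra hx'
      have k4 : cc (G α c') x ⊆ H := fun y hy => Or.inr ⟨α, hα, c', k1,
        Lam_pre (cc_pre _ _) (cc_sub _ _) (cc_mem hx.1) hx hy, fun hy' => hx'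
          (Lam_pre (cc_pre _ _) ((cc_sub _ _).trans (Glt α k1)) hy hy' (cc_mem hx.1))⟩
      obtain ⟨⟨y, hy, hy'⟩, ⟨z, hz, hz'⟩⟩ := hx.2
      rcases (cc_pre _ _).subset_or_subset h1 h2 h3 (k4.trans h4) with h | h
      · exact Set.disjoint_left.1 h3 (h hz) (k3 hz')
      · exact Set.disjoint_left.1 h3 (k2 hy') (h hy)
    have hcl : ∀ U R R' : Set X, Club (𝓛 c) U R → R' ⊆ R → Club (𝓛 c') U R' := by
      intro U R R' h hR m
      obtain ⟨N, rfl | ⟨α, hα, rfl⟩, hN⟩ := h m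
      · exact ⟨univ, Or.inl rfl, hN.mono_right hR⟩
      · exact ⟨_, Or.inr ⟨α, hα, rfl⟩,
          hN.mono (inter_subset_inter_right _ (closure_mono (hatt α hα))) hR⟩
    have hsub : D ∩ C ∩ W c' ⊆ H := fun x hx => Or.inl ⟨hx.1, hS.anti c c' k1 hx.2⟩
    exact ⟨c', k1, hatt, hcl _ _ _ h7 (subset_inter ((hS.Q_sub c').trans hsub) k3),
      hcl _ _ _ h8 (subset_inter ((hS.P_sub c').trans hsub) k2)⟩
  have step' : ∀ t : {c // W c ⊆ W s ∧ Club (𝓛 c) U0 (Q c) ∧ Club (𝓛 c) U1 (P c)},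
      ∃ t' : {c // W c ⊆ W s ∧ Club (𝓛 c) U0 (Q c) ∧ Club (𝓛 c) U1 (P c)},
        lt t.1 t'.1 ∧ ∀ α < l, Λ α t'.1 ⊆ Λ α t.1 := by
    rintro ⟨c, h1, h2, h3⟩
    obtain ⟨c', k1, k2, k3, k4⟩ := step c h1 h2 h3
    exact ⟨⟨c', (hS.anti _ _ k1).trans h1, k3, k4⟩, k1, k2⟩
  choose f hf using step'
  let t : ℕ → {c // W c ⊆ W s ∧ Club (𝓛 c) U0 (Q c) ∧ Club (𝓛 c) U1 (P c)} := fun n =>
    Nat.rec ⟨s, Subset.rfl,
      fun m => ⟨univ, Or.inl rfl, Set.disjoint_left.2 fun x hx hx' => Set.disjoint_left.1 hU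
        (core_subset _ _ hx.1) (hQU ⟨GD _ _ (hS.Q_sub s hx'), subset_closure hx'⟩)⟩,
      fun m => ⟨univ, Or.inl rfl, Set.disjoint_left.2 fun x hx hx' => Set.disjoint_left.1 hU
        (hPU ⟨GD _ _ (hS.P_sub s hx'), subset_closure hx'⟩) (core_subset _ _ hx.1)⟩⟩
      (fun _ t => f t) n
  obtain ⟨z, hzC, hz⟩ := hS.lim (fun n => (t n).1) (fun n => (hf (t n)).1)
  have hW : Antitone fun n => W (t n).1 :=
    antitone_nat_of_succ_le fun n => hS.anti _ _ (hf (t n)).1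
  have hzW : ∀ k, z ∈ W (t k).1 := fun k => by
    rw [← (hS.closed _).closure_eq]
    exact hS.mem_lim hz (S := fun n => W (t n).1)
      (fun n => (hS.P_ne _).mono fun x hx => (hS.P_sub _ hx).2) (fun n => Subset.rfl)
      (eventually_atTop.2 ⟨k, fun n hn => hW hn⟩)
  have hzG : ∀ α, α ≤ l → ∀ k, z ∈ G α (t k).1 := by
    intro α
    induction α using WellFoundedLT.induction with
    | ind α ih' =>
    intro hα k
    refine (hG _ _ _).2 ⟨⟨hzC, hzW k⟩, fun β hβ => Or.inr ⟨(t (k + 1)).1, (hf (t k)).1, ?_⟩⟩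
    have hβl := hβ.trans_le hα
    have hΛ : Antitone fun n => Λ β (t n).1 :=
      antitone_nat_of_succ_le fun n => (hf (t n)).2 β hβl
    exact hS.Lam_closed hX (GC' _ _) _ (ih' β hβ hβl.le (k + 1))
      (hS.mem_lim hz (S := fun n => Λ β (t n).1) (fun n => ih β hβl _)
        (fun n x hx => (GC _ _ hx.1).2) (eventually_atTop.2 ⟨k + 1, fun n hn => hΛ hn⟩))
  have fin : ∀ (U : Set X) (R : 𝓝' → Set X), IsOpen U → z ∈ U → (∀ c, R c ⊆ W c) →
      (∀ c, (R c).Nonempty) → (∀ α c, ∀ x ∈ Λ α c, (cc (G α c) x ∩ R c).Nonempty) →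
      (∀ n, Club (𝓛 (t n).1) U (R (t n).1)) → False := by
    intro U R h1 h2 h3 h4 h5 h6
    obtain ⟨m, hm⟩ := exists_core_nhds h1 h2
    obtain ⟨r, hr, hr'⟩ := nhds_basis_closedBall.mem_iff.1 hm
    obtain ⟨n, hn⟩ := (hz r hr).exists
    obtain ⟨N, rfl | ⟨α, hα, rfl⟩, hN⟩ := h6 n m
    · obtain ⟨y, hy⟩ := h4 (t n).1
      exact Set.disjoint_left.1 hN ⟨hr' (hn (h3 _ hy)), trivial⟩ hy
    · obtain ⟨x, hx⟩ := ih α hα (t n).1
      obtain ⟨y, hy, hy'⟩ := h5 α _ x hx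
      exact Set.disjoint_left.1 hN ⟨hr' (hn (h3 _ hy')), subset_closure
        (Lam_pre (cc_pre _ _) (cc_sub _ _) (cc_mem hx.1) hx hy)⟩ hy'
  rcases hGU (hzG l le_rfl 0) with h | h
  · exact fin U0 Q hU0 h (fun c x hx => (hS.Q_sub c hx).2) hS.Q_ne (fun α c x hx => hx.2.2)
      (fun n => (t n).2.2.1)
  · exact fin U1 P hU1 h (fun c x hx => (hS.P_sub c hx).2) hS.P_ne (fun α c x hx => hx.2.1)
      (fun n => (t n).2.2.2)

/-- the pruning stabilises at a family in which every node still has a crossing component -/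
theorem Sys.exists_fix (hS : Sys C D lt W P Q) (hX : FS X) :
    ∃ G : 𝓝' → Set X, (∀ s x, x ∈ G s ↔ x ∈ C ∩ W s ∧
      (x ∈ D ∨ ∃ c, lt s c ∧ x ∈ Lam (G c) (P c) (Q c))) ∧
      ∀ s, (Lam (G s) (P s) (Q s)).Nonempty := by
  let Φ : (𝓝' → Set X) →o (𝓝' → Set X) :=
    ⟨fun G s => {x | x ∈ C ∩ W s ∧ (x ∈ D ∨ ∃ c, lt s c ∧ x ∈ Lam (G c) (P c) (Q c))},
      fun G G' h s x hx => ⟨hx.1, hx.2.imp_right fun ⟨c, h1, h2⟩ => ⟨c, h1, Lam_mono (h c) h2⟩⟩⟩
  have h1 := OrdinalApprox.gfpApprox_ord_mem_fixedPoint Φ (x := fun s => C ∩ W s)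
    (fun s x hx => hx.1)
  refine ⟨_, fun s x => ?_, hS.prune hX (OrdinalApprox.gfpApprox Φ fun s => C ∩ W s) ?_
    (Order.succ (Cardinal.mk (𝓝' → Set X))).ord⟩
  · exact Iff.of_eq (congrArg (fun G : 𝓝' → Set X => x ∈ G s) (Eq.symm h1))
  · intro α s x
    conv_lhs => rw [OrdinalApprox.gfpApprox]
    simp only [Pi.inf_apply, iInf_apply, inf_eq_inter, iInf_eq_iInter, mem_inter_iff, mem_iInter]
    exact ⟨fun h => ⟨h.1, fun β hβ => (h.2 β hβ).2⟩, fun h => ⟨h.1, fun β hβ => ⟨h.1, h.2 β hβ⟩⟩⟩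

end Pool.Agent.MP_2fe25f_gt

end
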